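import Mathlib
import Pool.Agent.Y887.QE.SvA
import Pool.Agent.Y887.QE.Quad

/-!
Values of binary quadratic forms of fixed discriminant at arguments `(x, 1)`.
-/

set_option autoImplicit false

namespace Pool.Agent.Y887.QF

open Finset Pool.Agent.Y887.QE

/-- the value of the form -/
def pv (al k ga x : ℕ) : ℕ := al * x ^ 2 + 2 * k * x + ga

theorem pv_cast (al k ga x : ℕ) : ((pv al k ga x : ℕ) : ℤ) = al * x ^ 2 + 2 * k * x + ga := by
  unfold pv
  push_cast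
  ring

theorem pv_sub {D : ℤ} {Q al k ga : ℕ} (h1 : al ≡ 1 [MOD Q]) (h2 : k ≡ 0 [MOD Q])
    (h3 : (Q : ℤ) ∣ ga + D) (x : ℕ) : (Q : ℤ) ∣ (pv al k ga x : ℤ) - ((x : ℤ) ^ 2 - D) := by
  have e1 : (Q : ℤ) ∣ (al : ℤ) - 1 := by
    have := (Nat.modEq_iff_dvd).1 h1.symm
    push_cast at this
    exact this
  have e2 : (Q : ℤ) ∣ (k : ℤ) := by
    have := (Nat.modEq_zero_iff_dvd).1 h2
    exact_mod_cast this
  rw [pv_cast]
  have e : (al : ℤ) * x ^ 2 + 2 * k * x + ga - ((x : ℤ) ^ 2 - D) =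
      ((al : ℤ) - 1) * x ^ 2 + k * (2 * x) + (ga + D) := by ring
  rw [e]
  exact dvd_add (dvd_add (e1.mul_right _) (e2.mul_right _)) h3

/-- transfer of the divisibility by divisors of the modulus -/
theorem dvd_trans_vq {D : ℤ} {Q al k ga : ℕ} (h1 : al ≡ 1 [MOD Q]) (h2 : k ≡ 0 [MOD Q])
    (h3 : (Q : ℤ) ∣ ga + D) {d x : ℕ} (hd : d ∣ Q) : d ∣ pv al k ga x ↔ d ∣ vq D x := by
  rw [dvd_vq]
  have h4 : (d : ℤ) ∣ (pv al k ga x : ℤ) - ((x : ℤ) ^ 2 - D) :=
    (Int.natCast_dvd_natCast.2 hd).trans (pv_sub h1 h2 h3 x)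
  rw [← Int.natCast_dvd_natCast]
  exact (dvd_iff_dvd_of_dvd_sub h4)

theorem quot {D : ℤ} {Q' al k ga : ℕ} (h1 : al ≡ 1 [MOD Q' ^ 2]) (h2 : k ≡ 0 [MOD Q' ^ 2])
    (h3 : ((Q' ^ 2 : ℕ) : ℤ) ∣ ga + D) {c x : ℕ} (hc : c ∣ Q') (hcx : c ∣ vq D x)
    (hq : ∀ p : ℕ, p.Prime → p ∣ Q' → ¬ p ∣ vq D x / c) :
    c ∣ pv al k ga x ∧ ∀ p : ℕ, p.Prime → p ∣ Q' → ¬ p ∣ pv al k ga x / c := by
  have hc2 : c ∣ Q' ^ 2 := hc.trans (dvd_pow_self _ (by norm_num))
  have hcp := (dvd_trans_vq h1 h2 h3 (x := x) hc2).2 hcx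
  refine ⟨hcp, fun p hp hd hpd => ?_⟩
  have h4 : p * c ∣ Q' ^ 2 := by
    rw [pow_two]
    exact mul_dvd_mul hd hc
  have h5 : p * c ∣ pv al k ga x := by
    rw [mul_comm]
    exact (Nat.dvd_div_iff_mul_dvd hcp).1 hpd
  have h6 := (dvd_trans_vq h1 h2 h3 (x := x) h4).1 h5
  apply hq p hp hd
  rw [Nat.dvd_div_iff_mul_dvd hcx, mul_comm]
  exact h6

theorem fac_c {c z p : ℕ} (hc : c ∣ z) (hz : z ≠ 0) (h : ¬ p ∣ z / c) :
    z.factorization p = c.factorization p := by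
  obtain ⟨t, rfl⟩ := hc
  have hc0 : c ≠ 0 := left_ne_zero_of_mul hz
  have ht0 : t ≠ 0 := right_ne_zero_of_mul hz
  rw [Nat.mul_div_cancel_left _ (Nat.pos_of_ne_zero hc0)] at h
  rw [Nat.factorization_mul hc0 ht0, Finsupp.add_apply, Nat.factorization_eq_zero_of_not_dvd h,
    add_zero]

theorem pv_congr {al k ga p x x' : ℕ} (h : x ≡ x' [MOD p]) :
    p ∣ pv al k ga x ↔ p ∣ pv al k ga x' := by
  have h1 : pv al k ga x ≡ pv al k ga x' [MOD p] := by
    unfold pv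
    exact ((((h.pow 2).mul_left _).add (h.mul_left _)).add_right _)
  exact ⟨fun h2 => (Nat.modEq_zero_iff_dvd).1 (h1.symm.trans ((Nat.modEq_zero_iff_dvd).2 h2)),
    fun h2 => (Nat.modEq_zero_iff_dvd).1 (h1.trans ((Nat.modEq_zero_iff_dvd).2 h2))⟩

/-- two roots of the form modulo a prime -/
theorem two_roots {D : ℤ} {al k ga p x y : ℕ} (hp : p.Prime)
    (hD : (k : ℤ) ^ 2 - al * ga = D) (hx : p ∣ pv al k ga x) (hy : p ∣ pv al k ga y) (hxy : ¬ (p : ℤ) ∣ (x : ℤ) - y) :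
    (p : ℤ) ∣ (al : ℤ) ^ 2 * ((x : ℤ) - y) ^ 2 - 4 * D := by
  have hpp := Nat.prime_iff_prime_int.1 hp
  have hx' : (p : ℤ) ∣ al * x ^ 2 + 2 * k * x + ga := by
    rw [← pv_cast]; exact_mod_cast hx
  have hy' : (p : ℤ) ∣ al * y ^ 2 + 2 * k * y + ga := by
    rw [← pv_cast]; exact_mod_cast hy
  have h3 : (p : ℤ) ∣ ((x : ℤ) - y) * (al * (x + y) + 2 * k) := by
    have := dvd_sub hx' hy'
    have e : (al : ℤ) * x ^ 2 + 2 * k * x + ga - (al * y ^ 2 + 2 * k * y + ga) =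
      ((x : ℤ) - y) * (al * (x + y) + 2 * k) := by ring
    rwa [e] at this
  have h4 : (p : ℤ) ∣ al * ((x : ℤ) + y) + 2 * k := (hpp.dvd_or_dvd h3).resolve_left hxy
  have e : (al : ℤ) ^ 2 * ((x : ℤ) - y) ^ 2 - 4 * D =
      (al * ((x : ℤ) + y) + 2 * k) * (al * ((x : ℤ) + y) - 2 * k) -
        4 * (al * ((al * ((x : ℤ) + y) + 2 * k) * y - (al * y ^ 2 + 2 * k * y + ga))) +
        (- 4 * (al * y ^ 2 + 2 * k * y + ga)) * (al - al) := by
    rw [← hD]
    ring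
  rw [e]
  refine dvd_add (dvd_sub (h4.mul_right _) (Dvd.dvd.mul_left (Dvd.dvd.mul_left
    (dvd_sub (h4.mul_right _) hy') _) _)) ?_
  rw [sub_self, mul_zero]
  exact dvd_zero _

open Classical in
/-- the quotients of the values of a form along a progression -/
theorem good_pv {ι : Type} {D : ℤ} {al k ga : ℕ} (hD : (k : ℤ) ^ 2 - al * ga = D) (Q : ℕ)
    (hQD : ∀ p : ℕ, p.Prime → ((p : ℤ) ∣ 2 ∨ (p : ℤ) ∣ D) → p ∣ Q) (u c : ι → ℕ)
    (hc : ∀ h m, c h ∣ pv al k ga (Q * m + u h)) (hcQ : ∀ h p, p.Prime → p ∣ c h → p ∣ Q)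
    (hn : ∀ h m p, p.Prime → p ∣ Q → ¬ p ∣ pv al k ga (Q * m + u h) / c h) :
    Good (fun h m => pv al k ga (Q * m + u h) / c h) := by
  have key : ∀ h p m, p.Prime → ¬ p ∣ Q →
      (p ∣ pv al k ga (Q * m + u h) / c h ↔ p ∣ pv al k ga (Q * m + u h)) := by
    intro h p m hp hpQ
    constructor
    · intro h1
      exact h1.trans (Nat.div_dvd_of_dvd (hc h m))
    · intro h1
      rw [← Nat.div_mul_cancel (hc h m)] at h1
      rcases (hp.dvd_mul).1 h1 with h2 | h2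
      · exact h2
      · exact absurd (hcQ h p hp h2) hpQ
  constructor
  · intro h p n hp
    show p ∣ pv al k ga (Q * n + u h) / c h ↔ p ∣ pv al k ga (Q * (n % p) + u h) / c h
    by_cases hpQ : p ∣ Q
    · exact ⟨fun h1 => absurd h1 (hn h n p hp hpQ), fun h1 => absurd h1 (hn h _ p hp hpQ)⟩
    · rw [key h p n hp hpQ, key h p (n % p) hp hpQ]
      apply pv_congr
      exact (Nat.ModEq.mul_left _ (Nat.mod_modEq n p).symm).add_right _
  · intro h p hp
    show ((range p).filter (fun r => p ∣ pv al k ga (Q * r + u h) / c h)).card ≤ 2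
    by_cases hpQ : p ∣ Q
    · have : (range p).filter (fun r => p ∣ pv al k ga (Q * r + u h) / c h) = ∅ := by
        rw [filter_eq_empty_iff]
        intro r _
        exact hn h r p hp hpQ
      rw [this]
      simp
    · have hpp : Prime (p : ℤ) := Nat.prime_iff_prime_int.1 hp
      have hp2 : ¬ (p : ℤ) ∣ 2 := fun h1 => hpQ (hQD p hp (Or.inl h1))
      have hpD : ¬ (p : ℤ) ∣ D := fun h1 => hpQ (hQD p hp (Or.inr h1))
      by_contra hcon
      push Not at hcon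
      obtain ⟨a, ha, b, hb, d, hd, hab, had, hbd⟩ := Finset.two_lt_card.1 hcon
      rw [mem_filter, mem_range, key h p _ hp hpQ] at ha hb hd
      have hne : ∀ r s : ℕ, r < p → s < p → r ≠ s → ¬ (p : ℤ) ∣ (r : ℤ) - s := by
        intro r s hr hs hrs h1
        apply hrs
        have h2 : r ≡ s [MOD p] := ((Nat.modEq_iff_dvd).2 h1).symm
        have h3 : r % p = s % p := h2
        rwa [Nat.mod_eq_of_lt hr, Nat.mod_eq_of_lt hs] at h3
      have hpQ' : ¬ (p : ℤ) ∣ (Q : ℤ) := fun h1 => hpQ (by exact_mod_cast h1)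
      have hpair : ∀ r s : ℕ, r < p → s < p → r ≠ s →
          p ∣ pv al k ga (Q * r + u h) → p ∣ pv al k ga (Q * s + u h) →
          (p : ℤ) ∣ (al : ℤ) * (Q * (r + s) + 2 * u h) + 2 * k := by
        intro r s hr hs hrs h1 h2
        have h1' : (p : ℤ) ∣ al * ((Q * r + u h : ℕ) : ℤ) ^ 2 + 2 * k * ((Q * r + u h : ℕ) : ℤ) + ga := by
          rw [← pv_cast]; exact_mod_cast h1
        have h2' : (p : ℤ) ∣ al * ((Q * s + u h : ℕ) : ℤ) ^ 2 + 2 * k * ((Q * s + u h : ℕ) : ℤ) + ga := by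
          rw [← pv_cast]; exact_mod_cast h2
        have h3 := dvd_sub h1' h2'
        have e : (al * ((Q * r + u h : ℕ) : ℤ) ^ 2 + 2 * k * ((Q * r + u h : ℕ) : ℤ) + ga) -
            (al * ((Q * s + u h : ℕ) : ℤ) ^ 2 + 2 * k * ((Q * s + u h : ℕ) : ℤ) + ga) =
            (Q : ℤ) * (((r : ℤ) - s) * ((al : ℤ) * (Q * (r + s) + 2 * u h) + 2 * k)) := by
          push_cast
          ring
        rw [e] at h3
        rcases hpp.dvd_or_dvd h3 with h4 | h4
        · exact absurd h4 hpQ'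
        · rcases hpp.dvd_or_dvd h4 with h5 | h5
          · exact absurd h5 (hne r s hr hs hrs)
          · exact h5
      have h1 := hpair a b ha.1 hb.1 hab ha.2 hb.2
      have h2 := hpair a d ha.1 hd.1 had ha.2 hd.2
      have h3 := dvd_sub h1 h2
      have e : (al : ℤ) * (Q * (a + b) + 2 * u h) + 2 * k - ((al : ℤ) * (Q * (a + d) + 2 * u h) + 2 * k) =
          (Q : ℤ) * (((b : ℤ) - d) * al) := by ring
      rw [e] at h3
      rcases hpp.dvd_or_dvd h3 with h4 | h4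
      · exact hpQ' h4
      · rcases hpp.dvd_or_dvd h4 with h5 | h5
        · exact hne b d hb.1 hd.1 hbd h5
        · have h6 : (p : ℤ) ∣ 2 * k := by
            have := dvd_sub h1 (h5.mul_right ((Q : ℤ) * (a + b) + 2 * u h))
            rwa [add_sub_cancel_left] at this
          rcases hpp.dvd_or_dvd h6 with h7 | h7
          · exact hp2 h7
          · apply hpD
            rw [← hD]
            exact dvd_sub (h7.pow (by norm_num)) (h5.mul_right _)

/-- the composition of two values -/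
theorem pv_comp {D : ℤ} {al k ga x y h : ℕ} (hD : (k : ℤ) ^ 2 - al * ga = D) (hh : 0 < h)
    (hxy : x = y + h) (hd : h ∣ pv al k ga y) :
    ∃ N : ℕ, N = pv al k ga y / h + al * y + k ∧
      vq D N * h ^ 2 = pv al k ga x * pv al k ga y := by
  refine ⟨_, rfl, ?_⟩
  obtain ⟨t, ht⟩ := hd
  rw [ht, Nat.mul_div_cancel_left _ hh]
  have hp : (h : ℤ) * t = al * y ^ 2 + 2 * k * y + ga := by
    rw [← pv_cast]
    exact_mod_cast ht.symm
  have h1 : (((t + al * y + k : ℕ) : ℤ) ^ 2 - D) * h ^ 2 = (pv al k ga x : ℤ) * (h * t) := by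
    rw [pv_cast, hxy, ← hD]
    push_cast
    have e1 : (ga : ℤ) = h * t - al * y ^ 2 - 2 * k * y := by linarith
    rw [e1]
    ring
  have h2 : vq D (t + al * y + k) * h ^ 2 = ((((t + al * y + k : ℕ) : ℤ) ^ 2 - D) * h ^ 2).natAbs := by
    rw [Int.natAbs_mul, Int.natAbs_pow, Int.natAbs_natCast]
    rfl
  rw [h2, h1]
  rw [← Nat.cast_mul, ← Nat.cast_mul, Int.natAbs_natCast]

end Pool.Agent.Y887.QF
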