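import Mathlib
import Pool.Agent.Y887.QF.Frm

/-!
Auxiliary counting lemmas: divisors of rough numbers, recovering a form and an argument.
-/

set_option autoImplicit false

namespace Pool.Agent.Y887.QF

open Finset Pool.Agent.Y887.QE

theorem div_mul_prime {p m : ℕ} (hp : p.Prime) (hm : m ≠ 0) :
    (p * m).divisors.card ≤ 2 * m.divisors.card := by
  classical
  have hsub : (p * m).divisors ⊆ m.divisors ∪ m.divisors.image (fun d => p * d) := by
    intro d hd
    rw [Nat.mem_divisors] at hd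
    rw [mem_union, mem_image]
    by_cases h : p ∣ d
    · obtain ⟨d', rfl⟩ := h
      right
      exact ⟨d', Nat.mem_divisors.2 ⟨Nat.dvd_of_mul_dvd_mul_left hp.pos hd.1, hm⟩, rfl⟩
    · left
      exact Nat.mem_divisors.2 ⟨((Nat.Prime.coprime_iff_not_dvd hp).2 h).symm.dvd_of_dvd_mul_left
        hd.1, hm⟩
  calc (p * m).divisors.card ≤ (m.divisors ∪ m.divisors.image (fun d => p * d)).card :=
        card_le_card hsub
    _ ≤ m.divisors.card + (m.divisors.image (fun d => p * d)).card := card_union_le _ _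
    _ ≤ m.divisors.card + m.divisors.card := Nat.add_le_add_left card_image_le _
    _ = _ := by ring

theorem div_list (l : List ℕ) (hl : ∀ p ∈ l, p.Prime) : l.prod.divisors.card ≤ 2 ^ l.length := by
  induction l with
  | nil => simp
  | cons p l ih =>
    have hl' : ∀ q ∈ l, q.Prime := fun q hq => hl q (List.mem_cons_of_mem _ hq)
    have h1 := ih hl'
    have h2 : l.prod ≠ 0 := by
      apply List.prod_ne_zero
      intro h0
      exact Nat.not_prime_zero (hl' 0 h0)
    rw [List.prod_cons, List.length_cons, pow_succ]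
    have h3 := div_mul_prime (hl p List.mem_cons_self) h2
    omega

theorem rough_list {t K : ℕ} (l : List ℕ) (hl : ∀ p ∈ l, t ≤ p ^ K) :
    t ^ l.length ≤ l.prod ^ K := by
  induction l with
  | nil => simp
  | cons p l ih =>
    have h1 := ih fun q hq => hl q (List.mem_cons_of_mem _ hq)
    rw [List.prod_cons, List.length_cons, pow_succ, mul_pow, mul_comm]
    exact Nat.mul_le_mul (hl p List.mem_cons_self) h1

/-- the number of divisors of a rough number -/
theorem div_rough {t K J s : ℕ} (ht : 2 ≤ t) (hs0 : s ≠ 0) (hs : s ≤ t ^ J)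
    (hp : ∀ p : ℕ, p.Prime → p ∣ s → t < p ^ K) : s.divisors.card ≤ 2 ^ (J * K) := by
  have h1 := div_list s.primeFactorsList (fun p hp => Nat.prime_of_mem_primeFactorsList hp)
  rw [Nat.prod_primeFactorsList hs0] at h1
  have h2 := rough_list (t := t) (K := K) s.primeFactorsList
    (fun p hpl => (hp p (Nat.prime_of_mem_primeFactorsList hpl)
      (Nat.dvd_of_mem_primeFactorsList hpl)).le)
  rw [Nat.prod_primeFactorsList hs0] at h2
  have h3 : t ^ s.primeFactorsList.length ≤ t ^ (J * K) := by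
    refine h2.trans ?_
    rw [pow_mul]
    exact Nat.pow_le_pow_left hs K
  have h4 : s.primeFactorsList.length ≤ J * K := (Nat.pow_le_pow_iff_right (by omega)).1 h3
  exact h1.trans (Nat.pow_le_pow_right (by norm_num) h4)

/-- recovering the form and the argument -/
theorem recon {D : ℤ} {al k ga al' k' ga' y y' h : ℕ} (hga : 0 < ga)
    (hD : (k : ℤ) ^ 2 - al * ga = D) (hD' : (k' : ℤ) ^ 2 - al' * ga' = D)
    (hZ : pv al k ga y = pv al' k' ga' y')
    (hN : pv al k ga y / h + al * y + k = pv al' k' ga' y' / h + al' * y' + k') :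
    al = al' ∧ (al : ℤ) ∣ (k : ℤ) - k' := by
  have h1 : al * y + k = al' * y' + k' := by
    rw [hZ] at hN
    omega
  have h2 : (al : ℤ) * y + k = al' * y' + k' := by exact_mod_cast h1
  have e1 : (al : ℤ) * (pv al k ga y) = (al * y + k) ^ 2 - D := by
    rw [pv_cast, ← hD]
    ring
  have e2 : (al' : ℤ) * (pv al' k' ga' y') = (al' * y' + k') ^ 2 - D := by
    rw [pv_cast, ← hD']
    ring
  have hpos : (0 : ℤ) < (pv al k ga y : ℤ) := by
    have : 0 < pv al k ga y := by
      unfold pv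
      omega
    exact_mod_cast this
  have h3 : (al : ℤ) = al' := by
    have h4 : (al : ℤ) * (pv al k ga y) = al' * (pv al k ga y) := by
      rw [e1, h2, ← e2, hZ]
    exact mul_right_cancel₀ hpos.ne' h4
  refine ⟨by exact_mod_cast h3, ?_⟩
  refine ⟨(y' : ℤ) - y, ?_⟩
  rw [← h3] at h2
  linarith

theorem card_pf {W x : ℕ} (hW : W ≠ 0) (hx : W < 2 ^ x) : W.primeFactors.card ≤ x := by
  have h1 : 2 ^ W.primeFactors.card ≤ ∏ p ∈ W.primeFactors, p := by
    rw [← prod_const]
    exact prod_le_prod' fun p hp => (Nat.prime_of_mem_primeFactors hp).two_le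
  have h2 : ∏ p ∈ W.primeFactors, p ≤ W := Nat.le_of_dvd (Nat.pos_of_ne_zero hW)
    (Nat.prod_primeFactors_dvd W)
  have h3 : 2 ^ W.primeFactors.card < 2 ^ x := (h1.trans h2).trans_lt hx
  exact ((Nat.pow_lt_pow_iff_right (by norm_num)).1 h3).le

/-- the size of the values -/
theorem pv_le {al k ga C t E Ss x : ℕ} (hal : al ≤ C * (t ^ E) ^ 2) (hk : k ≤ C * (t ^ E) ^ 2)
    (hga : ga ≤ C * (t ^ E) ^ 2) (hSs : 1 ≤ Ss) (ht : 1 ≤ t) (hx : x ≤ Ss * t) :
    pv al k ga x ≤ 4 * C * Ss ^ 2 * t ^ (2 * E + 2) := by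
  have h1 : x + 1 ≤ 2 * (Ss * t) := by
    have : 1 ≤ Ss * t := Nat.mul_pos hSs ht
    omega
  calc pv al k ga x = al * x ^ 2 + k * (2 * x) + ga * 1 := by unfold pv; ring
    _ ≤ (C * (t ^ E) ^ 2) * x ^ 2 + (C * (t ^ E) ^ 2) * (2 * x) + (C * (t ^ E) ^ 2) * 1 :=
        Nat.add_le_add (Nat.add_le_add (Nat.mul_le_mul_right _ hal) (Nat.mul_le_mul_right _ hk))
          (Nat.mul_le_mul_right _ hga)
    _ = (C * (t ^ E) ^ 2) * (x + 1) ^ 2 := by ring
    _ ≤ (C * (t ^ E) ^ 2) * (2 * (Ss * t)) ^ 2 :=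
        Nat.mul_le_mul_left _ (Nat.pow_le_pow_left h1 2)
    _ = _ := by ring

end Pool.Agent.Y887.QF
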