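import Mathlib
import Pool.Agent.Y887.UT.Res

/-!
A large family of quadratic forms of the same discriminant.
-/

set_option autoImplicit false

namespace Pool.Agent.Y887.QF

open Finset Filter Pool.Agent.Y887.UT

theorem primes_low : ∀ᶠ n : ℕ in atTop, n ≤ 2 * (Nat.log 2 n + 1) * Nat.primeCounting n := by
  have hlog : ∀ᶠ x : ℕ in atTop, Real.log ((x : ℝ) + 1) ≤ (1 / 4 : ℝ) * x := by
    have h1 := (Real.isLittleO_log_id_atTop.bound (show (0 : ℝ) < 1 / 8 by norm_num))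
    have h2 := tendsto_natCast_atTop_atTop.eventually h1
    have h3 := (tendsto_add_atTop_nat 1).eventually h2
    filter_upwards [h3, eventually_ge_atTop 1] with x hx hx1
    simp only [id, Real.norm_eq_abs] at hx
    push_cast at hx
    have h4 : (1 : ℝ) ≤ x := by exact_mod_cast hx1
    rw [abs_of_nonneg (show (0 : ℝ) ≤ (x : ℝ) + 1 by linarith)] at hx
    have h5 := (le_abs_self _).trans hx
    linarith
  filter_upwards [hlog, eventually_ge_atTop 2] with n hn h2n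
  have h3 := Chebyshev.psi_ge n
  have h4 := Chebyshev.psi_le_primeCounting_mul_log n
  have h5 : Real.log n ≤ (Nat.log 2 n + 1 : ℕ) * Real.log 2 := by
    have h6 : n < 2 ^ (Nat.log 2 n + 1) := Nat.lt_pow_succ_log_self (by norm_num) n
    have h7 : (n : ℝ) ≤ 2 ^ (Nat.log 2 n + 1) := by exact_mod_cast h6.le
    have h8 := Real.log_le_log (by
      have : (2 : ℝ) ≤ n := by exact_mod_cast h2n
      linarith) h7
    rwa [Real.log_pow] at h8
  have h9 := Real.log_two_gt_d9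
  have h10 : (0 : ℝ) ≤ (Nat.primeCounting n : ℝ) := Nat.cast_nonneg _
  have h11 : (Nat.primeCounting n : ℝ) * Real.log n ≤
      Nat.primeCounting n * ((Nat.log 2 n + 1 : ℕ) * Real.log 2) :=
    mul_le_mul_of_nonneg_left h5 h10
  have h12 : (n : ℝ) * Real.log 2 - Real.log ((n : ℝ) + 1) ≤
      Nat.primeCounting n * ((Nat.log 2 n + 1 : ℕ) * Real.log 2) := by linarith
  have h13 : (n : ℝ) * Real.log 2 ≤
      (2 * (Nat.log 2 n + 1 : ℕ) * Nat.primeCounting n : ℝ) * Real.log 2 := by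
    have h14 : (0 : ℝ) ≤ n := Nat.cast_nonneg _
    nlinarith
  have h14 : (n : ℝ) ≤ (2 * (Nat.log 2 n + 1 : ℕ) * Nat.primeCounting n : ℝ) :=
    le_of_mul_le_mul_right h13 (by linarith)
  exact_mod_cast h14

theorem bez {u v Q : ℕ} (hu : 0 < u) (hQ : 0 < Q) (huv : Nat.Coprime u v)
    (huQ : Nat.Coprime u Q) : ∃ b d : ℕ, u * d = v * b + 1 ∧ Q ∣ b ∧ u ≤ b ∧ b ≤ 2 * u * Q := by
  have h1 : IsCoprime (u : ℤ) (v : ℤ) := Nat.isCoprime_iff_coprime.2 huv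
  obtain ⟨y, x, hxy⟩ := h1
  -- `y u + x v = 1`
  obtain ⟨X, hX⟩ := crtZ (ι := Bool) (fun i => if i then u else Q) (fun i => if i then -x else 0)
    (by intro i; cases i <;> simp [hu, hQ])
    (by
      intro i j hij
      cases i <;> cases j
      · exact absurd rfl hij
      · simpa using huQ.symm
      · simpa using huQ
      · exact absurd rfl hij)
  have hX1 : (u : ℤ) ∣ (X : ℤ) + x := by simpa using hX true
  have hX2 : (Q : ℤ) ∣ (X : ℤ) := by simpa using hX false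
  obtain ⟨b, hb⟩ : ∃ b : ℕ, b = X % (u * Q) + u * Q := ⟨_, rfl⟩
  have huQ0 : 0 < u * Q := Nat.mul_pos hu hQ
  have hbX : ((u * Q : ℕ) : ℤ) ∣ (b : ℤ) - X := by
    rw [hb]
    push_cast
    have h3 : ((u : ℤ) * Q) ∣ (X : ℤ) - (X : ℤ) % (u * Q) := Int.dvd_self_sub_emod
    have e : (X : ℤ) % (u * Q) + u * Q - X = (u : ℤ) * Q - ((X : ℤ) - (X : ℤ) % (u * Q)) := by ring
    rw [e]
    exact dvd_sub (dvd_refl _) h3
  have hb1 : (u : ℤ) ∣ (b : ℤ) + x := by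
    have h3 : (u : ℤ) ∣ (b : ℤ) - X := (show (u : ℤ) ∣ ((u * Q : ℕ) : ℤ) by
      push_cast; exact dvd_mul_right _ _).trans hbX
    have := dvd_add h3 hX1
    have e : (b : ℤ) - X + (X + x) = b + x := by ring
    rwa [e] at this
  have hb2 : (Q : ℤ) ∣ (b : ℤ) := by
    have h3 : (Q : ℤ) ∣ (b : ℤ) - X := (show (Q : ℤ) ∣ ((u * Q : ℕ) : ℤ) by
      push_cast; exact dvd_mul_left _ _).trans hbX
    have := dvd_add h3 hX2
    have e : (b : ℤ) - X + X = b := by ring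
    rwa [e] at this
  have hdv : (u : ℤ) ∣ (v : ℤ) * b + 1 := by
    have e : (v : ℤ) * b + 1 = v * (b + x) + y * u := by
      have : (1 : ℤ) = y * u + x * v := hxy.symm
      rw [this]
      ring
    rw [e]
    exact dvd_add (hb1.mul_left _) (dvd_mul_left _ _)
  have hdv' : u ∣ v * b + 1 := by exact_mod_cast hdv
  obtain ⟨d, hd⟩ := hdv'
  refine ⟨b, d, hd.symm, by exact_mod_cast hb2, ?_, ?_⟩
  · have h3 : u ≤ u * Q := Nat.le_mul_of_pos_right _ hQ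
    omega
  · have h3 := Nat.mod_lt X huQ0
    have h4 : 2 * u * Q = u * Q + u * Q := by ring
    omega

/-- the form of a primitive pair -/
theorem form_of (D : ℤ) {u v Q L A : ℕ} (hL : L = 64 * (D.natAbs + 1)) (hQ : 0 < Q)
    (hu1 : u ≡ 1 [MOD Q]) (hvQ : Q ∣ v) (hv : 0 < v) (hLv : 2 * L * v ≤ u)
    (huv : Nat.Coprime u v) (huA : u ≤ 4 * Q * A) :
    ∃ al k ga d : ℕ, 0 < al ∧ 0 < k ∧ 0 < ga ∧ al ≡ 1 [MOD Q] ∧ k ≡ 0 [MOD Q] ∧ (Q : ℤ) ∣ ga + D ∧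
      (k : ℤ) ^ 2 - al * ga = D ∧ al ≤ 128 * Q ^ 4 * A ^ 2 ∧ k ≤ 128 * Q ^ 4 * A ^ 2 ∧
      ga ≤ 128 * Q ^ 4 * A ^ 2 ∧ (k : ℤ) * v + u = d * al ∧ 15 * u ^ 2 ≤ 16 * al := by
  have hL1 : 64 ≤ L := by omega
  have hu0 : 0 < u := by
    have : 0 < 2 * L * v := by positivity
    omega
  have huQ : Nat.Coprime u Q := by
    have h1 : Nat.gcd u Q = Nat.gcd 1 Q := hu1.gcd_eq
    rw [Nat.coprime_iff_gcd_eq_one, h1, Nat.gcd_one_left]
  obtain ⟨b, d, hbd, hQb, hub, hb2⟩ := bez hu0 hQ huv huQ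
  have hb0 : 0 < b := by omega
  -- sizes
  have hLd : L * d ≤ b := by
    have h1 : u * (L * d) ≤ u * b := by
      calc u * (L * d) = L * (u * d) := by ring
        _ = L * (v * b + 1) := by rw [hbd]
        _ ≤ L * (v * b + v * b) := by
            apply Nat.mul_le_mul_left
            have : 1 ≤ v * b := Nat.mul_pos hv hb0
            omega
        _ = (2 * L * v) * b := by ring
        _ ≤ u * b := Nat.mul_le_mul_right _ hLv
    exact Nat.le_of_mul_le_mul_left h1 hu0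
  obtain ⟨δ, hδ⟩ : ∃ δ : ℕ, δ = D.natAbs := ⟨_, rfl⟩
  have hδL : 16 * δ ≤ L := by omega
  have hLL : L ≤ L * L := Nat.le_mul_of_pos_left _ (by omega)
  have f3 : 16 * (δ * v ^ 2) ≤ u ^ 2 := by
    calc 16 * (δ * v ^ 2) = (16 * δ) * v ^ 2 := by ring
      _ ≤ (L * L) * v ^ 2 := Nat.mul_le_mul_right _ (hδL.trans hLL)
      _ ≤ (2 * L * v) ^ 2 := by
          have : (2 * L * v) ^ 2 = 4 * ((L * L) * v ^ 2) := by ring
          omega
      _ ≤ u ^ 2 := Nat.pow_le_pow_left hLv 2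
  have f4 : 16 * (δ * d ^ 2) ≤ b ^ 2 := by
    calc 16 * (δ * d ^ 2) = (16 * δ) * d ^ 2 := by ring
      _ ≤ (L * L) * d ^ 2 := Nat.mul_le_mul_right _ (hδL.trans hLL)
      _ = (L * d) ^ 2 := by ring
      _ ≤ b ^ 2 := Nat.pow_le_pow_left hLd 2
  have f5 : 16 * (δ * (v * d)) ≤ u * b := by
    calc 16 * (δ * (v * d)) = (16 * δ) * (v * d) := by ring
      _ ≤ (L * L) * (v * d) := Nat.mul_le_mul_right _ (hδL.trans hLL)
      _ ≤ (2 * L * v) * (L * d) := by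
          have : (2 * L * v) * (L * d) = 2 * ((L * L) * (v * d)) := by ring
          omega
      _ ≤ u * b := Nat.mul_le_mul hLv hLd
  have hD1 : -(δ : ℤ) ≤ D ∧ D ≤ δ := by
    rw [hδ, Int.natCast_natAbs]
    exact ⟨neg_abs_le D, le_abs_self D⟩
  have f3z : (16 : ℤ) * (δ * (v : ℤ) ^ 2) ≤ (u : ℤ) ^ 2 := by exact_mod_cast f3
  have f4z : (16 : ℤ) * (δ * (d : ℤ) ^ 2) ≤ (b : ℤ) ^ 2 := by exact_mod_cast f4
  have f5z : (16 : ℤ) * (δ * ((v : ℤ) * d)) ≤ (u : ℤ) * b := by exact_mod_cast f5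
  have hbdz : (u : ℤ) * d = v * b + 1 := by exact_mod_cast hbd
  have g3 : |D * (v : ℤ) ^ 2| ≤ δ * (v : ℤ) ^ 2 := by
    rw [abs_mul, abs_of_nonneg (show (0 : ℤ) ≤ (v : ℤ) ^ 2 by positivity)]
    apply mul_le_mul_of_nonneg_right (abs_le.2 hD1) (by positivity)
  have g4 : |D * (d : ℤ) ^ 2| ≤ δ * (d : ℤ) ^ 2 := by
    rw [abs_mul, abs_of_nonneg (show (0 : ℤ) ≤ (d : ℤ) ^ 2 by positivity)]
    apply mul_le_mul_of_nonneg_right (abs_le.2 hD1) (by positivity)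
  have g5 : |D * ((v : ℤ) * d)| ≤ δ * ((v : ℤ) * d) := by
    rw [abs_mul, abs_of_nonneg (show (0 : ℤ) ≤ (v : ℤ) * d by positivity)]
    apply mul_le_mul_of_nonneg_right (abs_le.2 hD1) (by positivity)
  obtain ⟨g3a, g3b⟩ := abs_le.1 g3
  obtain ⟨g4a, g4b⟩ := abs_le.1 g4
  obtain ⟨g5a, g5b⟩ := abs_le.1 g5
  have hu2 : (0 : ℤ) < (u : ℤ) ^ 2 := by
    have : (0 : ℤ) < u := by exact_mod_cast hu0
    positivity
  have hb22 : (0 : ℤ) < (b : ℤ) ^ 2 := by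
    have : (0 : ℤ) < b := by exact_mod_cast hb0
    positivity
  have hubz : (0 : ℤ) < (u : ℤ) * b := by
    have h1 : (0 : ℤ) < u := by exact_mod_cast hu0
    have h2 : (0 : ℤ) < b := by exact_mod_cast hb0
    positivity
  obtain ⟨az, haz⟩ : ∃ az : ℤ, az = (u : ℤ) ^ 2 - D * (v : ℤ) ^ 2 := ⟨_, rfl⟩
  obtain ⟨kz, hkz⟩ : ∃ kz : ℤ, kz = (u : ℤ) * b - D * ((v : ℤ) * d) := ⟨_, rfl⟩
  obtain ⟨gz, hgz⟩ : ∃ gz : ℤ, gz = (b : ℤ) ^ 2 - D * (d : ℤ) ^ 2 := ⟨_, rfl⟩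
  have haz0 : 0 < az := by rw [haz]; linarith
  have hkz0 : 0 < kz := by rw [hkz]; linarith
  have hgz0 : 0 < gz := by rw [hgz]; linarith
  obtain ⟨al, hal⟩ : ∃ al : ℕ, (al : ℤ) = az := ⟨az.toNat, Int.toNat_of_nonneg haz0.le⟩
  obtain ⟨k, hk⟩ : ∃ k : ℕ, (k : ℤ) = kz := ⟨kz.toNat, Int.toNat_of_nonneg hkz0.le⟩
  obtain ⟨ga, hga⟩ : ∃ ga : ℕ, (ga : ℤ) = gz := ⟨gz.toNat, Int.toNat_of_nonneg hgz0.le⟩
  -- congruences
  have hQu : (Q : ℤ) ∣ (u : ℤ) - 1 := by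
    have := (Nat.modEq_iff_dvd).1 hu1.symm
    exact_mod_cast this
  have hQv : (Q : ℤ) ∣ (v : ℤ) := by exact_mod_cast hvQ
  have hQbz : (Q : ℤ) ∣ (b : ℤ) := by exact_mod_cast hQb
  have hQd : (Q : ℤ) ∣ (d : ℤ) - 1 := by
    have e : (d : ℤ) - 1 = v * b - (u - 1) * d := by linarith
    rw [e]
    exact dvd_sub (hQv.mul_right _) (hQu.mul_right _)
  have hu4 : (u : ℤ) ≤ 4 * Q * A := by exact_mod_cast huA
  have hu0z : (0 : ℤ) ≤ u := by positivity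
  have hb4 : (b : ℤ) ≤ 2 * u * Q := by exact_mod_cast hb2
  have hb0z : (0 : ℤ) ≤ b := by positivity
  have hQ1 : (1 : ℤ) ≤ Q := by exact_mod_cast hQ
  have hQ2 : (1 : ℤ) ≤ (Q : ℤ) ^ 2 := one_le_pow₀ hQ1
  have hQ3 : (1 : ℤ) ≤ (Q : ℤ) ^ 3 := one_le_pow₀ hQ1
  have hA2 : (0 : ℤ) ≤ (A : ℤ) ^ 2 := by positivity
  have s1 : (u : ℤ) ^ 2 ≤ 16 * Q ^ 2 * A ^ 2 := by
    calc (u : ℤ) ^ 2 ≤ (4 * Q * A) ^ 2 := pow_le_pow_left₀ hu0z hu4 2
      _ = _ := by ring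
  have s2 : (u : ℤ) * b ≤ 32 * Q ^ 3 * A ^ 2 := by
    calc (u : ℤ) * b ≤ u * (2 * u * Q) := mul_le_mul_of_nonneg_left hb4 hu0z
      _ = 2 * Q * u ^ 2 := by ring
      _ ≤ 2 * Q * (16 * Q ^ 2 * A ^ 2) := mul_le_mul_of_nonneg_left s1 (by positivity)
      _ = _ := by ring
  have s3 : (b : ℤ) ^ 2 ≤ 64 * Q ^ 4 * A ^ 2 := by
    calc (b : ℤ) ^ 2 ≤ (2 * u * Q) ^ 2 := pow_le_pow_left₀ hb0z hb4 2
      _ = 4 * Q ^ 2 * u ^ 2 := by ring
      _ ≤ 4 * Q ^ 2 * (16 * Q ^ 2 * A ^ 2) := mul_le_mul_of_nonneg_left s1 (by positivity)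
      _ = _ := by ring
  have q2 : (Q : ℤ) ^ 2 * A ^ 2 ≤ Q ^ 4 * A ^ 2 := by
    apply mul_le_mul_of_nonneg_right _ hA2
    exact pow_le_pow_right₀ hQ1 (by norm_num)
  have q3 : (Q : ℤ) ^ 3 * A ^ 2 ≤ Q ^ 4 * A ^ 2 := by
    apply mul_le_mul_of_nonneg_right _ hA2
    exact pow_le_pow_right₀ hQ1 (by norm_num)
  refine ⟨al, k, ga, d, ?_, ?_, ?_, ?_, ?_, ?_, ?_, ?_, ?_, ?_, ?_, ?_⟩
  · rw [← hal] at haz0; exact_mod_cast haz0
  · rw [← hk] at hkz0; exact_mod_cast hkz0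
  · rw [← hga] at hgz0; exact_mod_cast hgz0
  · apply Nat.ModEq.symm
    rw [Nat.modEq_iff_dvd, hal, haz]
    have e : (u : ℤ) ^ 2 - D * (v : ℤ) ^ 2 - ((1 : ℕ) : ℤ) = (u - 1) * (u + 1) - v * (D * v) := by
      push_cast
      ring
    rw [e]
    exact dvd_sub (hQu.mul_right _) (hQv.mul_right _)
  · apply Nat.ModEq.symm
    rw [Nat.modEq_iff_dvd, hk, hkz]
    have e : (u : ℤ) * b - D * ((v : ℤ) * d) - ((0 : ℕ) : ℤ) = b * u - v * (D * d) := by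
      push_cast
      ring
    rw [e]
    exact dvd_sub (hQbz.mul_right _) (hQv.mul_right _)
  · rw [hga, hgz]
    have e : (b : ℤ) ^ 2 - D * (d : ℤ) ^ 2 + D = b * b - (d - 1) * (D * (d + 1)) := by ring
    rw [e]
    exact dvd_sub (hQbz.mul_right _) (hQd.mul_right _)
  · rw [hk, hal, hga, hkz, haz, hgz]
    have e : ((u : ℤ) * b - D * (v * d)) ^ 2 - ((u : ℤ) ^ 2 - D * (v : ℤ) ^ 2) *
        ((b : ℤ) ^ 2 - D * (d : ℤ) ^ 2) = D * ((u : ℤ) * d - v * b) ^ 2 := by ring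
    rw [e, hbdz]
    ring
  · have h1 : (al : ℤ) ≤ 128 * Q ^ 4 * A ^ 2 := by rw [hal, haz]; linarith
    exact_mod_cast h1
  · have h1 : (k : ℤ) ≤ 128 * Q ^ 4 * A ^ 2 := by rw [hk, hkz]; linarith
    exact_mod_cast h1
  · have h1 : (ga : ℤ) ≤ 128 * Q ^ 4 * A ^ 2 := by rw [hga, hgz]; linarith
    exact_mod_cast h1
  · rw [hk, hal, hkz, haz]
    have e : ((u : ℤ) * b - D * (v * d)) * v + u = u * (v * b + 1) - D * v ^ 2 * d := by ring
    rw [e, ← hbdz]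
    ring
  · have h1 : (15 : ℤ) * u ^ 2 ≤ 16 * al := by rw [hal, haz]; linarith
    exact_mod_cast h1

set_option maxHeartbeats 1000000 in
theorem family (D : ℤ) (Q : ℕ) (hQ : 0 < Q) :
    ∃ C A0 : ℕ, 0 < C ∧ ∀ A : ℕ, A0 ≤ A →
      ∃ (S : Finset (ℕ × ℕ)) (al k ga : ℕ × ℕ → ℕ),
        A ^ 2 ≤ C * (Nat.log 2 A + 1) * S.card ∧
        (∀ g ∈ S, 0 < al g ∧ 0 < k g ∧ 0 < ga g ∧ al g ≡ 1 [MOD Q] ∧ k g ≡ 0 [MOD Q] ∧
          (Q : ℤ) ∣ ga g + D ∧ (k g : ℤ) ^ 2 - al g * ga g = D ∧ al g ≤ C * A ^ 2 ∧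
          k g ≤ C * A ^ 2 ∧ ga g ≤ C * A ^ 2) ∧
        ∀ g ∈ S, ∀ g' ∈ S, al g = al g' → (al g : ℤ) ∣ (k g : ℤ) - k g' → g = g' := by
  classical
  obtain ⟨L, hL⟩ : ∃ L : ℕ, L = 64 * (D.natAbs + 1) := ⟨_, rfl⟩
  have hLpos : 0 < L := by omega
  obtain ⟨n0, hn0⟩ := eventually_atTop.1 primes_low
  obtain ⟨n1, hn1⟩ : ∃ n1 : ℕ, ∀ n, n1 ≤ n → 2 * Q ≤ Nat.primeCounting n := by
    have h1 := Nat.tendsto_primeCounting
    obtain ⟨n1, h2⟩ := eventually_atTop.1 (h1.eventually_ge_atTop (2 * Q))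
    exact ⟨n1, h2⟩
  refine ⟨128 * Q ^ 4 + 8 * L, L * (n0 + n1 + 1), by positivity, ?_⟩
  intro A hA
  obtain ⟨W, hW⟩ : ∃ W : ℕ, W = A / L := ⟨_, rfl⟩
  have hWn : n0 + n1 + 1 ≤ W := by
    rw [hW, Nat.le_div_iff_mul_le hLpos, mul_comm]
    exact hA
  have hAW : A < L * (W + 1) := by rw [hW]; exact Nat.lt_mul_div_succ A hLpos
  have hWA : L * W ≤ A := by rw [hW]; exact Nat.mul_div_le A L
  have hApos : 0 < A := by
    have : 0 < L * W := Nat.mul_pos hLpos (by omega)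
    omega
  obtain ⟨Pr, hPr⟩ : ∃ Pr : Finset ℕ, Pr = ((range (W + 1)).filter Nat.Prime).filter
    (fun w => ¬ w ∣ Q) := ⟨_, rfl⟩
  have hPrm : ∀ w ∈ Pr, w.Prime ∧ w ≤ W ∧ ¬ w ∣ Q := by
    intro w hw
    rw [hPr, mem_filter, mem_filter, mem_range] at hw
    exact ⟨hw.1.2, by omega, hw.2⟩
  have hPrc : Nat.primeCounting W ≤ 2 * Pr.card := by
    have h1 : ((range (W + 1)).filter Nat.Prime).card = Nat.primeCounting W := by
      rw [Nat.primeCounting, Nat.primeCounting', Nat.count_eq_card_filter_range]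
    have h2 := card_filter_add_card_filter_not (s := (range (W + 1)).filter Nat.Prime)
      (fun w => ¬ w ∣ Q)
    rw [← hPr, h1] at h2
    have h3 : (((range (W + 1)).filter Nat.Prime).filter (fun w => ¬ ¬ w ∣ Q)).card ≤ Q := by
      calc (((range (W + 1)).filter Nat.Prime).filter (fun w => ¬ ¬ w ∣ Q)).card ≤
            (Icc 1 Q).card := by
            apply card_le_card
            intro w hw
            rw [mem_filter, mem_filter] at hw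
            have h4 := not_not.1 hw.2
            exact mem_Icc.2 ⟨hw.1.2.pos, Nat.le_of_dvd hQ h4⟩
        _ = Q := by rw [Nat.card_Icc]; omega
    have h4 := hn1 W (by omega)
    omega
  obtain ⟨S, hS⟩ : ∃ S : Finset (ℕ × ℕ), S = Pr ×ˢ Ico A (2 * A) := ⟨_, rfl⟩
  obtain ⟨u, hu⟩ : ∃ u : ℕ × ℕ → ℕ, ∀ g, u g = 1 + Q * (if g.1 ∣ 1 + Q * (2 * g.2) then
    2 * g.2 + 1 else 2 * g.2) := ⟨_, fun _ => rfl⟩
  have hSm : ∀ g ∈ S, g.1.Prime ∧ g.1 ≤ W ∧ ¬ g.1 ∣ Q ∧ A ≤ g.2 ∧ g.2 < 2 * A := by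
    intro g hg
    rw [hS, mem_product, mem_Ico] at hg
    obtain ⟨h1, h2, h3⟩ := hPrm _ hg.1
    exact ⟨h1, h2, h3, hg.2.1, hg.2.2⟩
  have huw : ∀ g ∈ S, ¬ g.1 ∣ u g := by
    intro g hg hd
    obtain ⟨h1, h2, h3, h4, h5⟩ := hSm g hg
    rw [hu] at hd
    split_ifs at hd with h6
    · have h7 := (Nat.dvd_add_right h6).1 (show g.1 ∣ (1 + Q * (2 * g.2)) + Q by
        have e : 1 + Q * (2 * g.2) + Q = 1 + Q * (2 * g.2 + 1) := by ring
        rw [e]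
        exact hd)
      exact h3 h7
    · exact h6 hd
  have hu1 : ∀ g, u g ≡ 1 [MOD Q] := by
    intro g
    rw [hu]
    have h1 : Q * (if g.1 ∣ 1 + Q * (2 * g.2) then 2 * g.2 + 1 else 2 * g.2) ≡ 0 [MOD Q] :=
      (Nat.modEq_zero_iff_dvd).2 (dvd_mul_right _ _)
    simpa using Nat.ModEq.add_left 1 h1
  have hulo : ∀ g ∈ S, 2 * (Q * A) ≤ u g := by
    intro g hg
    obtain ⟨h1, h2, h3, h4, h5⟩ := hSm g hg
    rw [hu]
    have h6 : 2 * A ≤ (if g.1 ∣ 1 + Q * (2 * g.2) then 2 * g.2 + 1 else 2 * g.2) := by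
      split_ifs <;> omega
    have h7 := Nat.mul_le_mul_left Q h6
    have e : Q * (2 * A) = 2 * (Q * A) := by ring
    omega
  have huhi : ∀ g ∈ S, u g ≤ 4 * Q * A := by
    intro g hg
    obtain ⟨h1, h2, h3, h4, h5⟩ := hSm g hg
    rw [hu]
    have h6 : (if g.1 ∣ 1 + Q * (2 * g.2) then 2 * g.2 + 1 else 2 * g.2) + 1 ≤ 4 * A := by
      split_ifs <;> omega
    have h7 := Nat.mul_le_mul_left Q h6
    have e : Q * (4 * A) = 4 * Q * A := by ring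
    rw [Nat.mul_add, mul_one] at h7
    omega
  have hLv : ∀ g ∈ S, L * (Q * g.1) ≤ Q * A := by
    intro g hg
    obtain ⟨h1, h2, h3, h4, h5⟩ := hSm g hg
    calc L * (Q * g.1) = Q * (L * g.1) := by ring
      _ ≤ Q * (L * W) := Nat.mul_le_mul_left _ (Nat.mul_le_mul_left _ h2)
      _ ≤ Q * A := Nat.mul_le_mul_left _ hWA
  have huv : ∀ g ∈ S, Nat.Coprime (u g) (Q * g.1) := by
    intro g hg
    obtain ⟨h1, h2, h3, h4, h5⟩ := hSm g hg
    apply Nat.Coprime.mul_right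
    · have h6 : Nat.gcd (u g) Q = Nat.gcd 1 Q := (hu1 g).gcd_eq
      rw [Nat.coprime_iff_gcd_eq_one, h6, Nat.gcd_one_left]
    · exact ((Nat.Prime.coprime_iff_not_dvd h1).2 (huw g hg)).symm
  have hform : ∀ g : ℕ × ℕ, ∃ t : ℕ × ℕ × ℕ × ℕ, g ∈ S → 0 < t.1 ∧ 0 < t.2.1 ∧ 0 < t.2.2.1 ∧
      t.1 ≡ 1 [MOD Q] ∧ t.2.1 ≡ 0 [MOD Q] ∧ (Q : ℤ) ∣ t.2.2.1 + D ∧
      (t.2.1 : ℤ) ^ 2 - t.1 * t.2.2.1 = D ∧ t.1 ≤ 128 * Q ^ 4 * A ^ 2 ∧
      t.2.1 ≤ 128 * Q ^ 4 * A ^ 2 ∧ t.2.2.1 ≤ 128 * Q ^ 4 * A ^ 2 ∧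
      (t.2.1 : ℤ) * ((Q * g.1 : ℕ) : ℤ) + u g = t.2.2.2 * t.1 ∧ 15 * u g ^ 2 ≤ 16 * t.1 := by
    intro g
    by_cases hg : g ∈ S
    · obtain ⟨h1, h2, h3, h4, h5⟩ := hSm g hg
      obtain ⟨al, k, ga, d, h6⟩ := form_of D (L := L) (A := A) hL hQ (hu1 g)
        (dvd_mul_right Q g.1) (Nat.mul_pos hQ h1.pos) (by
          have h7 := hLv g hg
          have h8 := hulo g hg
          have e : 2 * L * (Q * g.1) = 2 * (L * (Q * g.1)) := by ring
          omega) (huv g hg) (huhi g hg)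
      exact ⟨(al, k, ga, d), fun _ => h6⟩
    · exact ⟨(0, 0, 0, 0), fun h => absurd h hg⟩
  choose t ht using hform
  refine ⟨S, fun g => (t g).1, fun g => (t g).2.1, fun g => (t g).2.2.1, ?_, ?_, ?_⟩
  · -- the number of pairs
    have h1 : S.card = Pr.card * A := by
      rw [hS, card_product, Nat.card_Ico]
      congr 1
      omega
    have h2 := hn0 W (by omega)
    have h3 : Nat.log 2 W ≤ Nat.log 2 A := by
      apply Nat.log_mono_right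
      exact (Nat.le_mul_of_pos_left W hLpos).trans hWA
    have h4 : A ≤ 2 * L * W := by
      have h5 : L * (W + 1) ≤ 2 * L * W := by
        have : L * (W + 1) ≤ L * (2 * W) := Nat.mul_le_mul_left _ (by omega)
        calc L * (W + 1) ≤ L * (2 * W) := this
          _ = _ := by ring
      omega
    calc A ^ 2 = A * A := by ring
      _ ≤ (2 * L * W) * A := Nat.mul_le_mul_right _ h4
      _ ≤ (2 * L * (2 * (Nat.log 2 W + 1) * Nat.primeCounting W)) * A :=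
          Nat.mul_le_mul_right _ (Nat.mul_le_mul_left _ h2)
      _ ≤ (2 * L * (2 * (Nat.log 2 A + 1) * (2 * Pr.card))) * A :=
          Nat.mul_le_mul_right _ (Nat.mul_le_mul_left _ (Nat.mul_le_mul
            (Nat.mul_le_mul_left _ (by omega)) hPrc))
      _ = (8 * L) * (Nat.log 2 A + 1) * (Pr.card * A) := by ring
      _ ≤ (128 * Q ^ 4 + 8 * L) * (Nat.log 2 A + 1) * (Pr.card * A) :=
          Nat.mul_le_mul_right _ (Nat.mul_le_mul_right _ (Nat.le_add_left _ _))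
      _ = _ := by rw [h1]
  · intro g hg
    obtain ⟨h1, h2, h3, h4, h5, h6, h7, h8, h9, h10, h11, h12⟩ := ht g hg
    have h13 : 128 * Q ^ 4 * A ^ 2 ≤ (128 * Q ^ 4 + 8 * L) * A ^ 2 :=
      Nat.mul_le_mul_right _ (Nat.le_add_right _ _)
    exact ⟨h1, h2, h3, h4, h5, h6, h7, h8.trans h13, h9.trans h13, h10.trans h13⟩
  · intro g hg g' hg' hal hk
    obtain ⟨-, -, -, -, -, -, -, -, -, -, h11, h12⟩ := ht g hg
    obtain ⟨-, -, -, -, -, -, -, -, -, -, h11', h12'⟩ := ht g' hg'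
    have hal : (t g).1 = (t g').1 := hal
    have hk : ((t g).1 : ℤ) ∣ ((t g).2.1 : ℤ) - (t g').2.1 := hk
    obtain ⟨v, hv⟩ : ∃ v : ℕ, v = Q * g.1 := ⟨_, rfl⟩
    obtain ⟨v', hv'⟩ : ∃ v' : ℕ, v' = Q * g'.1 := ⟨_, rfl⟩
    rw [← hv] at h11
    rw [← hv'] at h11'
    rw [← hal] at h11'
    -- `al` divides `u v' - u' v`
    have hdvd : ((t g).1 : ℤ) ∣ (u g : ℤ) * v' - (u g' : ℤ) * v := by
      have e : (u g : ℤ) * v' - (u g' : ℤ) * v =
          (t g).1 * ((t g).2.2.2 * v' - (t g').2.2.2 * v) -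
            (((t g).2.1 : ℤ) - (t g').2.1) * (v * v') := by
        have e1 : (u g : ℤ) = (t g).2.2.2 * (t g).1 - (t g).2.1 * v := by linarith
        have e2 : (u g' : ℤ) = (t g').2.2.2 * (t g).1 - (t g').2.1 * v' := by linarith
        rw [e1, e2]
        ring
      rw [e]
      exact dvd_sub (dvd_mul_right _ _) (hk.mul_right _)
    -- sizes
    have b1 : L * v ≤ Q * A := by rw [hv]; exact hLv g hg
    have b2 : L * v' ≤ Q * A := by rw [hv']; exact hLv g' hg'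
    have b3 := huhi g hg
    have b4 := huhi g' hg'
    have b5 := hulo g hg
    have hQA : 0 < Q * A := Nat.mul_pos hQ hApos
    have c1 : 64 * (u g * v') ≤ 4 * (Q * A) ^ 2 := by
      calc 64 * (u g * v') ≤ L * (u g * v') := Nat.mul_le_mul_right _ (by omega)
        _ = u g * (L * v') := by ring
        _ ≤ (4 * Q * A) * (Q * A) := Nat.mul_le_mul b3 b2
        _ = _ := by ring
    have c2 : 64 * (u g' * v) ≤ 4 * (Q * A) ^ 2 := by
      calc 64 * (u g' * v) ≤ L * (u g' * v) := Nat.mul_le_mul_right _ (by omega)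
        _ = u g' * (L * v) := by ring
        _ ≤ (4 * Q * A) * (Q * A) := Nat.mul_le_mul b4 b1
        _ = _ := by ring
    have c3 : 60 * (Q * A) ^ 2 ≤ 16 * (t g).1 := by
      calc 60 * (Q * A) ^ 2 = 15 * (2 * (Q * A)) ^ 2 := by ring
        _ ≤ 15 * u g ^ 2 := Nat.mul_le_mul_left _ (Nat.pow_le_pow_left b5 2)
        _ ≤ _ := h12
    have hQA2 : 0 < (Q * A) ^ 2 := by positivity
    have heq : (u g : ℤ) * v' - (u g' : ℤ) * v = 0 := by
      apply Int.eq_zero_of_abs_lt_dvd hdvd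
      have d1 : (u g : ℤ) * v' < (t g).1 := by
        have : u g * v' < (t g).1 := by omega
        exact_mod_cast this
      have d2 : (u g' : ℤ) * v < (t g).1 := by
        have : u g' * v < (t g).1 := by omega
        exact_mod_cast this
      have d3 : (0 : ℤ) ≤ (u g : ℤ) * v' := by positivity
      have d4 : (0 : ℤ) ≤ (u g' : ℤ) * v := by positivity
      rw [abs_lt]
      constructor <;> linarith
    have heqn : u g * v' = u g' * v := by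
      have : (u g : ℤ) * v' = (u g' : ℤ) * v := by linarith
      exact_mod_cast this
    have cop1 : Nat.Coprime (u g) v := by rw [hv]; exact huv g hg
    have cop2 : Nat.Coprime (u g') v' := by rw [hv']; exact huv g' hg'
    have e1 : u g ∣ u g' := cop1.dvd_of_dvd_mul_right (by rw [← heqn]; exact dvd_mul_right _ _)
    have e2 : u g' ∣ u g := cop2.dvd_of_dvd_mul_right (by rw [heqn]; exact dvd_mul_right _ _)
    have e3 : u g = u g' := Nat.dvd_antisymm e1 e2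
    have hupos : 0 < u g' := by
      have := hulo g' hg'
      omega
    have e4 : v' = v := by
      rw [e3] at heqn
      exact Nat.eq_of_mul_eq_mul_left hupos heqn
    have e5 : g.1 = g'.1 := by
      rw [hv, hv'] at e4
      exact (Nat.eq_of_mul_eq_mul_left hQ e4).symm
    have e6 : g.2 = g'.2 := by
      rw [hu, hu] at e3
      have h3 : Q * (if g.1 ∣ 1 + Q * (2 * g.2) then 2 * g.2 + 1 else 2 * g.2) =
          Q * (if g'.1 ∣ 1 + Q * (2 * g'.2) then 2 * g'.2 + 1 else 2 * g'.2) := by omega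
      have h4 := Nat.eq_of_mul_eq_mul_left hQ h3
      split_ifs at h4 <;> omega
    exact Prod.ext e5 e6

end Pool.Agent.Y887.QF
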