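import Mathlib
import Pool.Agent.Y887.QE.Cmb

/-!
The configuration of a discriminant: the design, the residue class and the constants of the vertices.
-/

set_option autoImplicit false

namespace Pool.Agent.Y887.QF

open Finset Filter Pool.Agent.Y887.DK Pool.Agent.Y887.QE
open Pool.Agent.Y887.DE (kap kap_zero mix mix_prod mix_mem mix_length filler fac_eq)
open Pool.Agent.H410R2.ED (Ln Pt pt Comb params)

/-- a configuration -/
structure Cfg {Γ : Type} [CommGroup Γ] (f : ℕ → Γ) (D : ℤ) (y0 B0 b T : ℕ)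
    (ρ : Ln 1 b → Fin (1 + 1) → ℕ) (val : Γ) (MB : ℕ) (h : Ln 1 b → ℕ) (s c A c' : Pt 1 b → ℕ)
    (Q' X' M0 : ℕ) (w : Ln 1 b → ℕ → ℕ) : Prop where
  Qpos : 0 < Q'
  small : ∀ p : ℕ, p.Prime → p ≤ B0 → p ∣ M0
  QB : B0 ≤ Q'
  hMQ : M0 ∣ Q'
  MBM : MB ∣ M0
  line : ∀ e, s (pt 0 e) = s (pt 1 e) + h e
  sq : ∀ e, Squarefree (h e)
  one : ∀ e, h e ≡ 1 [MOD M0]
  hM : ∀ e p, p.Prime → p ∣ h e → ¬ p ∣ M0
  hQ : ∀ e, h e ∣ Q'
  cpos : ∀ P, 0 < c P
  cQ : ∀ P, c P ∣ Q'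
  cd : ∀ P n, c P ∣ vq D (Q' * n + (X' + s P))
  cq : ∀ P n p, p.Prime → p ∣ Q' → ¬ p ∣ vq D (Q' * n + (X' + s P)) / c P
  cA : ∀ P, c P = A P * c' P
  A0 : ∀ e, A (pt 0 e) = vq D (y0 + 1)
  A1 : ∀ e, A (pt 1 e) = vq D y0
  AM : ∀ P, A P ∣ M0
  cM : ∀ P p, p.Prime → p ∣ c' P → ¬ p ∣ M0
  fx : ∀ e n p, p.Prime → p ∣ h e →
    (vq D (Q' * n + (X' + s (pt 0 e)))).factorization p = w e p + 1
  fy : ∀ e n p, p.Prime → p ∣ h e →
    (vq D (Q' * n + (X' + s (pt 1 e)))).factorization p = 1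
  no : ∀ e n p, p.Prime → p ∣ Q' → ¬ p ∣ h e → ¬ p ∣ M0 →
    p ∣ vq D (Q' * n + (X' + s (pt 0 e))) → ¬ p ∣ vq D (Q' * n + (X' + s (pt 1 e)))
  r0 : ∀ e n, Q' * n + (X' + s (pt 0 e)) ≡ y0 + 1 [MOD M0]
  r1 : ∀ e n, Q' * n + (X' + s (pt 1 e)) ≡ y0 [MOD M0]
  vl : ∀ e U0 U1, ρ e 0 + U0 = T + 1 → ρ e 1 + U1 = T + 1 →
    Fm f (c' (pt 0 e)) * Fm f (c' (pt 1 e)) * f 1 ^ (U0 + U1) *
      ∏ p ∈ (h e).primeFactors, kap f (w e p) = val * f 1 ^ (2 * (h e).primeFactors.card)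

set_option maxHeartbeats 8000000 in
theorem config {Γ : Type} [CommGroup Γ] (f : ℕ → Γ) (hf0 : f 0 = 1)
    (Lp Lm : List ℕ) (hrel : (Lp.map (kap f)).prod = f 1 * (Lm.map (kap f)).prod)
    (b T : ℕ) (hb2 : 2 ≤ b) (ρ : Ln 1 b → Fin (1 + 1) → ℕ)
    (hρ : ∀ e l, 1 ≤ ρ e l ∧ ρ e l ≤ T + 1) :
    ∃ Φ : Γ, ∀ D : ℤ, ¬ IsSquare D → ∀ y0 MB : ℕ, 0 < MB →
      ∀ ex : List ℕ, (∀ m ∈ ex, 1 ≤ m) → ∀ M : ℕ,
      ∃ (h : Ln 1 b → ℕ) (s c A c' : Pt 1 b → ℕ) (Q' X' M0 : ℕ) (w : Ln 1 b → ℕ → ℕ),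
        Cfg f D y0 (4 * (b * b) + 8 * b + M + D.natAbs + 5) b T ρ (Φ * (ex.map f).prod) MB
          h s c A c' Q' X' M0 w := by
  classical
  obtain ⟨C1, hC10, hdes⟩ := design
  obtain ⟨Cc, hCc⟩ : ∃ Cc : ℕ, Cc = b * b * (C1 * (Nat.log 2 (b * b) + 1)) := ⟨_, rfl⟩
  obtain ⟨Cm, hCm⟩ : ∃ Cm : ℕ, Cm = 2 * (T + 1) + 2 * Cc := ⟨_, rfl⟩
  obtain ⟨Nn, hNn⟩ : ∃ Nn : ℕ, Nn = Cm * (Lp.length + Lm.length) + 1 := ⟨_, rfl⟩
  obtain ⟨mm, hmm⟩ : ∃ mm : ℕ, mm = Lp.sum + Lm.sum := ⟨_, rfl⟩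
  obtain ⟨Z, hZd⟩ : ∃ Z : ℕ, Z = b * b * (Nn + Cc) := ⟨_, rfl⟩
  obtain ⟨Φ0, hΦ0⟩ : ∃ Φ0 : Γ, Φ0 = ∏ j ∈ Icc 1 (mm + 1), f j ^ Z := ⟨_, rfl⟩
  obtain ⟨Km, hKm⟩ : ∃ Km : Γ, Km = (Lm.map (kap f)).prod := ⟨_, rfl⟩
  refine ⟨Φ0 * Φ0 * Km ^ Cm * f 1 ^ (2 * (T + 1)) / f 1 ^ (2 * Nn), ?_⟩
  intro D hD y0 MB hMB ex hex M
  have hD0 : D ≠ 0 := by
    rintro rfl
    exact hD ⟨0, by simp⟩
  -- the small part
  obtain ⟨AL, hAL⟩ : ∃ AL : ℕ, AL = vq D (y0 + 1) := ⟨_, rfl⟩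
  obtain ⟨AR, hAR⟩ : ∃ AR : ℕ, AR = vq D y0 := ⟨_, rfl⟩
  have hALpos : 0 < AL := by rw [hAL]; exact vq_pos hD _
  have hARpos : 0 < AR := by rw [hAR]; exact vq_pos hD _
  obtain ⟨B, hB⟩ : ∃ B : ℕ, B = 4 * (b * b) + 8 * b + M + AL * AR + D.natAbs + 5 := ⟨_, rfl⟩
  obtain ⟨BF, hBF⟩ : ∃ BF : ℕ, BF = B.factorial := ⟨_, rfl⟩
  have hBFpos : 0 < BF := by rw [hBF]; exact Nat.factorial_pos _
  obtain ⟨M0, hM0d⟩ : ∃ M0 : ℕ, M0 = BF * MB * (AL * AR) := ⟨_, rfl⟩
  have hM0 : 0 < M0 := by rw [hM0d]; positivity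
  have hBM0 : BF ∣ M0 := by
    rw [hM0d]
    exact (dvd_mul_right _ _).mul_right _
  have hMBM0 : MB ∣ M0 := by
    rw [hM0d]
    exact (dvd_mul_left _ _).mul_right _
  have hM1 : ∀ p : ℕ, p.Prime → p ≤ B → p ∣ M0 := fun p hp hle => by
    refine dvd_trans ?_ hBM0
    rw [hBF]
    exact (hp.dvd_factorial).2 hle
  have hALM : AL ∣ M0 := by rw [hM0d]; exact (dvd_mul_right _ _).mul_left _
  have hARM : AR ∣ M0 := by rw [hM0d]; exact (dvd_mul_left _ _).mul_left _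
  have hM0fac : ∀ p : ℕ, p.Prime → p ∣ M0 → AL.factorization p < M0.factorization p ∧
      AR.factorization p < M0.factorization p := by
    intro p hp hd
    have h1 : p ∣ BF * MB := by
      rw [hM0d, hp.dvd_mul] at hd
      rcases hd with h | h
      · exact h
      · have h2 : p ≤ B := by
          have := Nat.le_of_dvd (Nat.mul_pos hALpos hARpos) h
          omega
        exact (show p ∣ BF by rw [hBF]; exact (hp.dvd_factorial).2 h2).mul_right _
    have h2 : (BF * MB).factorization p ≠ 0 := by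
      have := (hp.dvd_iff_one_le_factorization (Nat.mul_pos hBFpos hMB).ne').1 h1
      omega
    rw [hM0d, Nat.factorization_mul (Nat.mul_pos hBFpos hMB).ne' (Nat.mul_pos hALpos hARpos).ne',
      Nat.factorization_mul hALpos.ne' hARpos.ne', Finsupp.add_apply, Finsupp.add_apply]
    omega
  -- the design
  obtain ⟨h, s0, s1, H⟩ := hdes D hD b (by omega) Nn B M0 1 hM0
    (fun p hp hle => hM1 p hp (by omega))
  rw [← hCc] at H
  have hhpos : ∀ j i, 0 < h j i := fun j i => Nat.pos_of_ne_zero (H.sq j i).ne_zero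
  have hhM0 : ∀ j i p, p.Prime → p ∣ h j i → ¬ p ∣ M0 := by
    intro j i p hp hd hM
    have h1 : h j i ≡ 1 [MOD p] := (H.one j i).of_dvd hM
    have h2 : h j i ≡ 0 [MOD p] := (Nat.modEq_zero_iff_dvd).2 hd
    have h3 := (h2.symm.trans h1)
    have h4 : p ∣ 1 := (Nat.modEq_zero_iff_dvd).1 h3.symm
    exact hp.one_lt.ne' (Nat.dvd_one.1 h4)
  -- the lists of exponents
  obtain ⟨cnt, hcnt⟩ : ∃ cnt : Fin b → Fin b → ℕ, ∀ j i, cnt j i =
      ρ ![i, j] 0 + ρ ![i, j] 1 + 2 * ((h j i).primeFactors.card - Nn) := ⟨_, fun _ _ => rfl⟩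
  have hcntle : ∀ j i, cnt j i ≤ Cm := by
    intro j i
    rw [hcnt, hCm]
    have h1 := (hρ ![i, j] 0).2
    have h2 := (hρ ![i, j] 1).2
    have h3 := H.hi j i
    omega
  have hasg : ∀ j i, ∃ w : ℕ → ℕ, (∀ p, w p = 0 ∨ w p ∈ mix Lp Lm Cm (cnt j i)) ∧
      ∀ {Δ : Type} [CommMonoid Δ] (g : ℕ → Δ), g 0 = 1 →
      ∏ p ∈ (h j i).primeFactors, g (w p) = ((mix Lp Lm Cm (cnt j i)).map g).prod := by
    intro j i
    apply assign
    refine (mix_length Lp Lm (hcntle j i)).trans ?_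
    have h1 := H.lo j i
    omega
  choose w hw1 hw2 using hasg
  have hw : ∀ j i p, w j i p ≤ mm := by
    intro j i p
    rcases hw1 j i p with h1 | h1
    · omega
    · rw [hmm]
      rcases mix_mem h1 with h2 | h2
      · have := List.le_sum_of_mem h2
        omega
      · have := List.le_sum_of_mem h2
        omega
  obtain ⟨Q, X, hQpos, hMQ, hXM, hQp, hhQ, hQfac, hres⟩ := residues hD H (by omega) hM0 hM1 y0 mm
    w hw
  -- the vertices
  obtain ⟨s, hs⟩ : ∃ s : Pt 1 b → ℕ, ∀ P, s P = if P.1 = 0 then s0 (P.2 0) else s1 (P.2 0) :=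
    ⟨_, fun _ => rfl⟩
  have hsL : ∀ (c : Fin 1 → Fin b), s ((0 : Fin 2), c) = s0 (c 0) := fun c => by rw [hs]; simp
  have hsR : ∀ (c : Fin 1 → Fin b), s ((1 : Fin 2), c) = s1 (c 0) := fun c => by rw [hs]; simp
  obtain ⟨A, hA⟩ : ∃ A : Pt 1 b → ℕ, ∀ P, A P = if P.1 = 0 then AL else AR := ⟨_, fun _ => rfl⟩
  have hbpos : 0 < b := by omega
  have hexp1 : ∀ j i, ∃ p, p.Prime ∧ p ∣ h j i := by
    intro j i
    have h1 := H.lo j i
    have h2 : 0 < (h j i).primeFactors.card := by omega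
    obtain ⟨p, hp⟩ := card_pos.1 h2
    exact ⟨p, Nat.prime_of_mem_primeFactors hp, Nat.dvd_of_mem_primeFactors hp⟩
  have hs0inj : ∀ j j', s0 j = s0 j' → j = j' := by
    intro j j' heq
    by_contra hne
    obtain ⟨p, hp, hd⟩ := hexp1 j ⟨0, hbpos⟩
    have := (H.lft j ⟨0, hbpos⟩ j' p hp hd (Ne.symm hne)).1
    apply this
    rw [heq]
    simp
  have hs1inj : ∀ i i', s1 i = s1 i' → i = i' := by
    intro i i' heq
    by_contra hne
    obtain ⟨p, hp, hd⟩ := hexp1 ⟨0, hbpos⟩ i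
    have := (H.rgt ⟨0, hbpos⟩ i i' p hp hd (Ne.symm hne)).1
    apply this
    rw [heq]
    simp
  have hs01 : ∀ j i, s0 j ≠ s1 i := by
    intro j i
    have h1 := H.eq j i
    have h2 := hhpos j i
    omega
  have hPcase : ∀ P : Pt 1 b, (∃ j, P = ((0 : Fin 2), fun _ => j)) ∨
      (∃ i, P = ((1 : Fin 2), fun _ => i)) := by
    rintro ⟨l, c⟩
    have hc : c = fun _ => c 0 := by
      funext i
      rw [Subsingleton.elim i 0]
    fin_cases l
    · exact Or.inl ⟨c 0, by rw [← hc]; rfl⟩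
    · exact Or.inr ⟨c 0, by rw [← hc]; rfl⟩
  have hsinj : Function.Injective s := by
    intro P P' hPP
    rcases hPcase P with ⟨j, rfl⟩ | ⟨i, rfl⟩
    · rcases hPcase P' with ⟨j', rfl⟩ | ⟨i', rfl⟩
      · rw [hsL, hsL] at hPP
        rw [hs0inj _ _ hPP]
      · rw [hsL, hsR] at hPP
        exact absurd hPP (hs01 _ _)
    · rcases hPcase P' with ⟨j', rfl⟩ | ⟨i', rfl⟩
      · rw [hsL, hsR] at hPP
        exact absurd hPP.symm (hs01 _ _)
      · rw [hsR, hsR] at hPP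
        rw [hs1inj _ _ hPP]
  -- valuations at the vertices
  have hvM : ∀ P, ∀ p : ℕ, p.Prime → p ∣ M0 →
      (vq D (X + s P)).factorization p = (A P).factorization p := by
    intro P p hp hd
    have hlt := hM0fac p hp hd
    rcases hPcase P with ⟨j, rfl⟩ | ⟨i, rfl⟩
    · rw [hsL, hA, if_pos rfl, hAL]
      rw [hAL] at hlt
      have h1 : p ^ ((vq D (y0 + 1)).factorization p + 1) ∣ M0 :=
        (hp.pow_dvd_iff_le_factorization hM0.ne').2 hlt.1
      exact fac_congr hD hp ((hXM.add (H.s0one j)).of_dvd h1) le_rfl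
    · rw [hsR, hA, if_neg (by norm_num), hAR]
      rw [hAR] at hlt
      have h1 : p ^ ((vq D y0).factorization p + 1) ∣ M0 :=
        (hp.pow_dvd_iff_le_factorization hM0.ne').2 hlt.2
      have h2 := hXM.add (H.s1zero i)
      rw [add_zero] at h2
      exact fac_congr hD hp (h2.of_dvd h1) le_rfl
  have hvle : ∀ P, ∀ p : ℕ, p.Prime → (∃ j i, p ∣ h j i) →
      (vq D (X + s P)).factorization p ≤ mm + 1 := by
    rintro P p hp ⟨j, i, hd⟩
    obtain ⟨h1, h2, h3, h4⟩ := hres j i p hp hd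
    have h5 := hw j i p
    rcases hPcase P with ⟨j', rfl⟩ | ⟨i', rfl⟩
    · rw [hsL]
      by_cases hj : j' = j
      · rw [hj, h1]; omega
      · rw [h3 j' hj]; omega
    · rw [hsR]
      by_cases hi : i' = i
      · rw [hi, h2]; omega
      · rw [h4 i' hi]; omega
  have hlow : ∀ P, ∀ p : ℕ, p.Prime → p ∣ Q →
      (vq D (X + s P)).factorization p < Q.factorization p := by
    intro P p hp hd
    rcases hQp p hp hd with h1 | ⟨j, i, h1⟩
    · rw [hvM P p hp h1]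
      have h2 : M0.factorization p ≤ Q.factorization p :=
        (Nat.factorization_le_iff_dvd hM0.ne' hQpos.ne').2 hMQ p
      have h3 := hM0fac p hp h1
      rw [hA]
      split_ifs <;> omega
    · have h2 := hvle P p hp ⟨j, i, h1⟩
      have h3 := hQfac j i p hp h1
      omega
  -- complementary exponents
  obtain ⟨Sd, hSd⟩ : ∃ Sd : Finset ℕ, Sd = (univ : Finset (Fin b × Fin b)).biUnion
    (fun e => (h e.1 e.2).primeFactors) := ⟨_, rfl⟩
  have hSdm : ∀ p, p ∈ Sd ↔ p.Prime ∧ ∃ j i, p ∣ h j i := by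
    intro p
    rw [hSd, mem_biUnion]
    constructor
    · rintro ⟨e, -, he⟩
      exact ⟨Nat.prime_of_mem_primeFactors he, e.1, e.2, Nat.dvd_of_mem_primeFactors he⟩
    · rintro ⟨hp, j, i, hd⟩
      exact ⟨(j, i), mem_univ _, Nat.mem_primeFactors.2 ⟨hp, hd, (hhpos j i).ne'⟩⟩
  have hSdc : Sd.card ≤ Z := by
    rw [hSd]
    refine card_biUnion_le.trans ?_
    refine (Finset.sum_le_card_nsmul _ _ _ fun e _ => H.hi e.1 e.2).trans ?_
    rw [card_univ, Fintype.card_prod, Fintype.card_fin, smul_eq_mul, hZd]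
  have hfl : ∀ P : Pt 1 b, ∃ L : List ℕ, (∀ m ∈ L, 1 ≤ m) ∧
      ∀ {Δ : Type} [CommMonoid Δ] (g : ℕ → Δ), g 0 = 1 →
        (∏ p ∈ Sd, g ((vq D (X + s P)).factorization p)) * (L.map g).prod =
          ∏ j ∈ Icc 1 (mm + 1), g j ^ Z := by
    intro P
    apply filler Sd (fun p => (vq D (X + s P)).factorization p) (mm + 1) Z hSdc
    intro p hp
    obtain ⟨hpp, hpd⟩ := (hSdm p).1 hp
    exact hvle P p hpp hpd
  choose fl hfl1 hfl2 using hfl
  obtain ⟨exL, hexL⟩ : ∃ exL : Pt 1 b → List ℕ, ∀ P, exL P = fl P ++ (if P.1 = 0 then ex else []) :=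
    ⟨_, fun _ => rfl⟩
  obtain ⟨Bf, hBf⟩ : ∃ Bf : ℕ, Bf = ∑ j, ∑ i, (((h j i : ℤ) ^ 2 - 4 * D).natAbs + h j i) :=
    ⟨_, rfl⟩
  have hBfe : ∀ j i, ((h j i : ℤ) ^ 2 - 4 * D).natAbs + h j i ≤ Bf := by
    intro j i
    rw [hBf]
    have h1 := single_le_sum (f := fun i => ((h j i : ℤ) ^ 2 - 4 * D).natAbs + h j i)
      (fun _ _ => Nat.zero_le _) (mem_univ i)
    have h2 := single_le_sum (f := fun j => ∑ i, (((h j i : ℤ) ^ 2 - 4 * D).natAbs + h j i))
      (fun _ _ => Nat.zero_le _) (mem_univ j)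
    exact h1.trans h2
  obtain ⟨Q', X', c, hQ'pos, hQQ', hX'X, hQ'p, hc⟩ := eqzQ hD s hsinj Q X Bf exL hQpos hlow (by
    intro P m hm
    rw [hexL] at hm
    rcases List.mem_append.1 hm with h1 | h1
    · exact hfl1 P m h1
    · split_ifs at h1 with h2
      · exact hex m h1
      · simp at h1)
  have hMQ' : M0 ∣ Q' := hMQ.trans hQQ'
  -- the constants of the vertices
  have hcpos : ∀ P, 0 < c P := fun P => (hc P).1
  have hcQ' : ∀ P, c P ∣ Q' := fun P => (hc P).2.1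
  have hcd : ∀ P n, c P ∣ vq D (Q' * n + (X' + s P)) := fun P => (hc P).2.2.1
  have hcq : ∀ P n p, p.Prime → p ∣ Q' → ¬ p ∣ vq D (Q' * n + (X' + s P)) / c P :=
    fun P => (hc P).2.2.2.1
  have hcv : ∀ P n p, p.Prime → p ∣ Q →
      (vq D (Q' * n + (X' + s P))).factorization p = (vq D (X + s P)).factorization p :=
    fun P => (hc P).2.2.2.2.1
  have hcfac : ∀ P p, p.Prime → p ∣ M0 → (c P).factorization p = (A P).factorization p := by
    intro P p hp hd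
    have h1 := hcv P 0 p hp (hd.trans hMQ)
    rw [hvM P p hp hd] at h1
    rw [← h1, ← Nat.div_mul_cancel (hcd P 0)]
    rw [Nat.factorization_mul (Nat.div_pos (Nat.le_of_dvd (vq_pos hD _) (hcd P 0)) (hcpos P)).ne'
      (hcpos P).ne', Finsupp.add_apply,
      Nat.factorization_eq_zero_of_not_dvd (hcq P 0 p hp (hd.trans hMQ')), zero_add]
  have hApos : ∀ P, 0 < A P := by
    intro P
    rw [hA]
    split_ifs
    · exact hALpos
    · exact hARpos
  have hAM : ∀ P, A P ∣ M0 := by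
    intro P
    rw [hA]
    split_ifs
    · exact hALM
    · exact hARM
  have hAc : ∀ P, A P ∣ c P := by
    intro P
    rw [← Nat.factorization_le_iff_dvd (hApos P).ne' (hcpos P).ne']
    intro p
    by_cases hp : p.Prime ∧ p ∣ M0
    · rw [hcfac P p hp.1 hp.2]
    · have : (A P).factorization p = 0 := by
        rcases not_and_or.1 hp with h1 | h1
        · exact Nat.factorization_eq_zero_of_not_prime _ h1
        · exact Nat.factorization_eq_zero_of_not_dvd (fun h2 => h1 (h2.trans (hAM P)))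
      rw [this]
      exact Nat.zero_le _
  obtain ⟨c', hc'⟩ : ∃ c' : Pt 1 b → ℕ, ∀ P, c P = A P * c' P := by
    choose c' hc' using hAc
    exact ⟨c', hc'⟩
  have hc'pos : ∀ P, 0 < c' P := by
    intro P
    have h1 := hcpos P
    rw [hc'] at h1
    exact Nat.pos_of_mul_pos_left h1
  have hc'M : ∀ P p, p.Prime → p ∣ c' P → ¬ p ∣ M0 := by
    intro P p hp hd hM
    have h1 := hcfac P p hp hM
    rw [hc', Nat.factorization_mul (hApos P).ne' (hc'pos P).ne', Finsupp.add_apply] at h1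
    have h2 := (hp.dvd_iff_one_le_factorization (hc'pos P).ne').1 hd
    omega
  have hc'F : ∀ P, Fm f (c' P) = Φ0 * (((if P.1 = 0 then ex else []) : List ℕ).map f).prod := by
    intro P
    have h1 := (hc P).2.2.2.2.2 f hf0
    have hQS : Q.primeFactors = M0.primeFactors ∪ Sd := by
      ext p
      rw [mem_union, Nat.mem_primeFactors, Nat.mem_primeFactors, hSdm]
      constructor
      · rintro ⟨hp, hd, -⟩
        rcases hQp p hp hd with h2 | h2
        · exact Or.inl ⟨hp, h2, hM0.ne'⟩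
        · exact Or.inr ⟨hp, h2⟩
      · rintro (⟨hp, hd, -⟩ | ⟨hp, j, i, hd⟩)
        · exact ⟨hp, hd.trans hMQ, hQpos.ne'⟩
        · exact ⟨hp, hd.trans (hhQ j i), hQpos.ne'⟩
    have hdisj : Disjoint M0.primeFactors Sd := by
      rw [disjoint_left]
      intro p hp1 hp2
      obtain ⟨hp, j, i, hd⟩ := (hSdm p).1 hp2
      exact hhM0 j i p hp hd (Nat.dvd_of_mem_primeFactors hp1)
    have h2 : ∏ p ∈ M0.primeFactors, f ((vq D (X + s P)).factorization p) = Fm f (A P) := by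
      rw [Fm_prod hf0 (S := M0.primeFactors) (Nat.primeFactors_mono (hAM P) hM0.ne')]
      apply prod_congr rfl
      intro p hp
      rw [hvM P p (Nat.prime_of_mem_primeFactors hp) (Nat.dvd_of_mem_primeFactors hp)]
    have hcop : Nat.Coprime (A P) (c' P) := by
      apply cop_of
      intro p hp h3 h4
      exact hc'M P p hp h4 (h3.trans (hAM P))
    rw [hQS, prod_union hdisj, h2, hc', Fm_mul f (hApos P).ne' (hc'pos P).ne' hcop, hexL,
      List.map_append, List.prod_append] at h1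
    have h3 : Fm f (A P) * Fm f (c' P) = Fm f (A P) * (Φ0 *
        (((if P.1 = 0 then ex else []) : List ℕ).map f).prod) := by
      rw [h1, hΦ0, ← hfl2 P f hf0]
      ac_rfl
    exact mul_left_cancel h3
  have hs_pt0 : ∀ e : Ln 1 b, s (pt 0 e) = s0 (e 1) := fun e => by rw [pt0, hsL]
  have hs_pt1 : ∀ e : Ln 1 b, s (pt 1 e) = s1 (e 0) := fun e => by rw [pt1, hsR]
  refine ⟨fun e => h (e 1) (e 0), s, c, A, c', Q', X', M0, fun e => w (e 1) (e 0), ?_⟩
  refine ⟨hQ'pos, ?_, ?_, hMQ', hMBM0, ?_, fun e => H.sq _ _, fun e => H.one _ _,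
    fun e => hhM0 _ _, fun e => (hhQ _ _).trans hQQ', hcpos, hcQ', hcd, hcq, hc', ?_, ?_, hAM,
    hc'M, ?_, ?_, ?_, ?_, ?_, ?_⟩
  · intro p hp hle
    exact hM1 p hp (by omega)
  · have h1 : B ≤ BF := by rw [hBF]; exact Nat.self_le_factorial B
    have h2 : BF ≤ Q' := Nat.le_of_dvd hQ'pos (hBM0.trans hMQ')
    omega
  · intro e
    show s (pt 0 e) = s (pt 1 e) + h (e 1) (e 0)
    rw [hs_pt0, hs_pt1, H.eq (e 1) (e 0)]
  · intro e
    rw [hA, pt0, if_pos rfl, hAL]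
  · intro e
    rw [hA, pt1, if_neg (by norm_num), hAR]
  · intro e n p hp hd
    show (vq D (Q' * n + (X' + s (pt 0 e)))).factorization p = w (e 1) (e 0) p + 1
    rw [hcv _ n p hp (hd.trans (hhQ _ _)), hs_pt0]
    exact (hres _ _ p hp hd).1
  · intro e n p hp hd
    rw [hcv _ n p hp (hd.trans (hhQ _ _)), hs_pt1]
    exact (hres _ _ p hp hd).2.1
  · intro e n p hp hpQ' hph hpM hpx hpy
    change ¬ p ∣ h (e 1) (e 0) at hph
    obtain ⟨j, hj⟩ : ∃ j, j = e 1 := ⟨_, rfl⟩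
    obtain ⟨i, hi⟩ : ∃ i, i = e 0 := ⟨_, rfl⟩
    obtain ⟨x, hx⟩ : ∃ x, x = Q' * n + (X' + s (pt 0 e)) := ⟨_, rfl⟩
    obtain ⟨y, hy⟩ : ∃ y, y = Q' * n + (X' + s (pt 1 e)) := ⟨_, rfl⟩
    rw [← hx] at hpx
    rw [← hy] at hpy
    rw [← hj, ← hi] at hph
    have hxy' : x = y + h j i := by
      rw [hx, hy, hj, hi, hs_pt0, hs_pt1, H.eq (e 1) (e 0)]
      ring
    by_cases hbig : Bf < p
    · have hb := hBfe j i
      have e0 : (x : ℤ) - y = h j i := by
        have : (x : ℤ) = ((y + h j i : ℕ) : ℤ) := by rw [hxy']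
        push_cast at this
        linarith
      revert hpx
      apply other_root hp hpy
      · rw [e0]
        intro h2
        exact hph (by exact_mod_cast h2)
      · rw [e0]
        apply nd
        · intro h0
          have h2 := ns_mul hD (w := 2) (u := (h j i : ℤ)) (by linarith)
          norm_num at h2
        · omega
    · have hpQ : p ∣ Q := by
        rcases hQ'p p hp hpQ' with h1 | h1
        · exact h1
        · omega
      rcases hQp p hp hpQ with h1 | ⟨j', i', h1⟩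
      · exact hpM h1
      · obtain ⟨-, -, h4, h5⟩ := hres j' i' p hp h1
        have hjj : j = j' := by
          by_contra hne
          have h6 := h4 j hne
          have h7 := hcv (pt 0 e) n p hp hpQ
          rw [hs_pt0, ← hj, h6] at h7
          have h8 : (vq D x).factorization p = 0 := by rw [hx, hs_pt0, ← hj]; exact h7
          have h9 := (hp.dvd_iff_one_le_factorization (vq_pos hD x).ne').1 hpx
          omega
        have hii : i = i' := by
          by_contra hne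
          have h6 := h5 i hne
          have h7 := hcv (pt 1 e) n p hp hpQ
          rw [hs_pt1, ← hi, h6] at h7
          have h8 : (vq D y).factorization p = 0 := by rw [hy, hs_pt1, ← hi]; exact h7
          have h9 := (hp.dvd_iff_one_le_factorization (vq_pos hD y).ne').1 hpy
          omega
        rw [← hjj, ← hii] at h1
        exact hph h1
  · intro e n
    rw [hs_pt0]
    have h2 : Q' * n ≡ 0 [MOD M0] := (Nat.modEq_zero_iff_dvd).2 (hMQ'.mul_right _)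
    have h3 := h2.add (((hX'X.of_dvd hMQ).trans hXM).add (H.s0one (e 1)))
    simpa using h3
  · intro e n
    rw [hs_pt1]
    have h2 : Q' * n ≡ 0 [MOD M0] := (Nat.modEq_zero_iff_dvd).2 (hMQ'.mul_right _)
    have h3 := h2.add (((hX'X.of_dvd hMQ).trans hXM).add (H.s1zero (e 0)))
    simpa using h3
  · intro e U0 U1 hU0 hU1
    show Fm f (c' (pt 0 e)) * Fm f (c' (pt 1 e)) * f 1 ^ (U0 + U1) *
      ∏ p ∈ (h (e 1) (e 0)).primeFactors, kap f (w (e 1) (e 0) p) = _ *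
        f 1 ^ (2 * (h (e 1) (e 0)).primeFactors.card)
    obtain ⟨j, hj⟩ : ∃ j, j = e 1 := ⟨_, rfl⟩
    obtain ⟨i, hi⟩ : ∃ i, i = e 0 := ⟨_, rfl⟩
    rw [← hj, ← hi]
    have hρe : e = ![i, j] := by
      funext l
      fin_cases l
      · exact hi.symm
      · exact hj.symm
    have hcnt' := hcnt j i
    rw [← hρe] at hcnt'
    have hlo := H.lo j i
    rw [hw2 j i (kap f) (kap_zero f hf0), mix_prod f Lp Lm hrel (hcntle j i), ← hKm,
      hc'F, hc'F]
    have hp0 : (pt 0 e : Pt 1 b).1 = 0 := rfl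
    have hp1 : ¬ (pt 1 e : Pt 1 b).1 = 0 := by
      show ¬ (1 : Fin 2) = 0
      norm_num
    rw [if_pos hp0, if_neg hp1, List.map_nil, List.prod_nil, mul_one]
    have hcount : U0 + U1 + cnt j i + 2 * Nn = 2 * (T + 1) + 2 * (h j i).primeFactors.card := by
      omega
    have hpw : f 1 ^ (U0 + U1) * f 1 ^ cnt j i * f 1 ^ (2 * Nn) =
        f 1 ^ (2 * (T + 1)) * f 1 ^ (2 * (h j i).primeFactors.card) := by
      rw [← pow_add, ← pow_add, hcount, pow_add]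
    apply mul_right_cancel (b := f 1 ^ (2 * Nn))
    calc Φ0 * (ex.map f).prod * Φ0 * f 1 ^ (U0 + U1) * (f 1 ^ cnt j i * Km ^ Cm) *
          f 1 ^ (2 * Nn)
        = (f 1 ^ (U0 + U1) * f 1 ^ cnt j i * f 1 ^ (2 * Nn)) *
            (Φ0 * Φ0 * Km ^ Cm * (ex.map f).prod) := by ac_rfl
      _ = (Φ0 * Φ0 * Km ^ Cm * f 1 ^ (2 * (T + 1)) * (ex.map f).prod *
            f 1 ^ (2 * (h j i).primeFactors.card)) := by
          rw [hpw]
          ac_rfl
      _ = (Φ0 * Φ0 * Km ^ Cm * f 1 ^ (2 * (T + 1)) / f 1 ^ (2 * Nn) * f 1 ^ (2 * Nn)) *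
            ((ex.map f).prod * f 1 ^ (2 * (h j i).primeFactors.card)) := by
          rw [div_mul_cancel]
          ac_rfl
      _ = _ := by ac_rfl

end Pool.Agent.Y887.QF
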