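import Mathlib
import Pool.Agent.Y887.QE.Cmb

/-!
The value at a composition of two values, without squarefreeness.
-/

set_option autoImplicit false

namespace Pool.Agent.Y887.QF

open Finset Pool.Agent.Y887.DK Pool.Agent.Y887.QE
open Pool.Agent.Y887.DE (kap)

theorem combineA {Γ : Type} [CommGroup Γ] (f : ℕ → Γ) (hf : f 0 = 1)
    {px py pN h AL AR M0 Q' c0 c1 V0 V1 : ℕ} (w : ℕ → ℕ) (hh : Squarefree h)
    (hcomp0 : pN * h ^ 2 = px * py) (hx0 : px ≠ 0) (hy0 : py ≠ 0)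
    (hx : px = AL * c0 * V0) (hy : py = AR * c1 * V1)
    (hAL : ∀ p : ℕ, p.Prime → p ∣ AL → p ∣ M0) (hAR : ∀ p : ℕ, p.Prime → p ∣ AR → p ∣ M0)
    (hhM : ∀ p : ℕ, p.Prime → p ∣ h → ¬ p ∣ M0)
    (hc0M : ∀ p : ℕ, p.Prime → p ∣ c0 → ¬ p ∣ M0) (hc1M : ∀ p : ℕ, p.Prime → p ∣ c1 → ¬ p ∣ M0)
    (hc0 : c0 ∣ Q') (hc1 : c1 ∣ Q') (hhQ : h ∣ Q') (hMQ : M0 ∣ Q')
    (hV0 : ∀ p : ℕ, p.Prime → p ∣ Q' → ¬ p ∣ V0) (hV1 : ∀ p : ℕ, p.Prime → p ∣ Q' → ¬ p ∣ V1)
    (hF0 : Fm f V0 = f 1 ^ V0.primeFactors.card) (hF1 : Fm f V1 = f 1 ^ V1.primeFactors.card)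
    (hpx : ∀ p : ℕ, p.Prime → p ∣ h → px.factorization p = w p + 1)
    (hpy : ∀ p : ℕ, p.Prime → p ∣ h → py.factorization p = 1)
    (hno : ∀ p : ℕ, p.Prime → ¬ p ∣ h → ¬ p ∣ M0 → p ∣ px → ¬ p ∣ py) :
    ∃ c : ℕ, pN = AL * AR * (c * (V0 * V1)) ∧
      h ^ 2 * c = c0 * c1 ∧ (∀ p : ℕ, p.Prime → p ∣ c * (V0 * V1) → ¬ p ∣ M0) ∧
      Fm f (c * (V0 * V1)) * f 1 ^ (2 * h.primeFactors.card) =
        Fm f c0 * Fm f c1 * f 1 ^ (V0.primeFactors.card + V1.primeFactors.card) *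
          ∏ p ∈ h.primeFactors, kap f (w p) := by
  classical
  have hhpos : 0 < h := Nat.pos_of_ne_zero hh.ne_zero
  have hN0 : pN ≠ 0 := by
    rintro rfl
    rw [zero_mul] at hcomp0
    exact mul_ne_zero hx0 hy0 hcomp0.symm
  have hcomp := hcomp0
  rw [hx, hy] at hcomp
  have hAL0 : AL ≠ 0 := by rintro rfl; rw [hx] at hx0; simp at hx0
  have hAR0 : AR ≠ 0 := by rintro rfl; rw [hy] at hy0; simp at hy0
  have hc00 : c0 ≠ 0 := by rintro rfl; rw [hx] at hx0; simp at hx0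
  have hc10 : c1 ≠ 0 := by rintro rfl; rw [hy] at hy0; simp at hy0
  have hV00 : V0 ≠ 0 := by rintro rfl; rw [hx] at hx0; simp at hx0
  have hV10 : V1 ≠ 0 := by rintro rfl; rw [hy] at hy0; simp at hy0
  -- the small part
  have hcopA : Nat.Coprime (AL * AR) (h ^ 2) := by
    apply Nat.Coprime.pow_right
    apply cop_of
    intro p hp hd hph
    apply hhM p hp hph
    rcases (hp.dvd_mul).1 hd with h1 | h1
    · exact hAL p hp h1
    · exact hAR p hp h1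
  have hAd : AL * AR ∣ pN := by
    apply hcopA.dvd_of_dvd_mul_right
    rw [hcomp]
    exact ⟨c0 * V0 * (c1 * V1), by ring⟩
  obtain ⟨G, hG⟩ := hAd
  have hG0 : G ≠ 0 := by rintro rfl; rw [hG] at hN0; simp at hN0
  have hGe : G * h ^ 2 = (c0 * V0) * (c1 * V1) := by
    have h1 : AL * AR * (G * h ^ 2) = AL * AR * ((c0 * V0) * (c1 * V1)) := by
      calc AL * AR * (G * h ^ 2) = pN * h ^ 2 := by rw [hG]; ring
        _ = AL * c0 * V0 * (AR * c1 * V1) := hcomp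
        _ = _ := by ring
    exact Nat.eq_of_mul_eq_mul_left (Nat.pos_of_ne_zero (mul_ne_zero hAL0 hAR0)) h1
  -- the part `c`
  have hcopV : Nat.Coprime (h ^ 2) (V0 * V1) := by
    apply Nat.Coprime.pow_left
    apply cop_of
    intro p hp hph hd
    rcases (hp.dvd_mul).1 hd with h1 | h1
    · exact hV0 p hp (hph.trans hhQ) h1
    · exact hV1 p hp (hph.trans hhQ) h1
  have hhc : h ^ 2 ∣ c0 * c1 := by
    apply hcopV.dvd_of_dvd_mul_right
    refine ⟨G, ?_⟩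
    calc c0 * c1 * (V0 * V1) = (c0 * V0) * (c1 * V1) := by ring
      _ = h ^ 2 * G := by rw [← hGe]; ring
  obtain ⟨c, hc⟩ := hhc
  have hGc : G = c * (V0 * V1) := by
    have h1 : h ^ 2 * G = h ^ 2 * (c * (V0 * V1)) := by
      calc h ^ 2 * G = (c0 * V0) * (c1 * V1) := by rw [← hGe]; ring
        _ = (c0 * c1) * (V0 * V1) := by ring
        _ = h ^ 2 * c * (V0 * V1) := by rw [hc]
        _ = _ := by ring
    exact Nat.eq_of_mul_eq_mul_left (pow_pos hhpos 2) h1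
  -- divisors of the rough parts
  have hx'M : ∀ p : ℕ, p.Prime → p ∣ c0 * V0 → ¬ p ∣ M0 := by
    intro p hp hd hM
    rcases (hp.dvd_mul).1 hd with h1 | h1
    · exact hc0M p hp h1 hM
    · exact hV0 p hp (hM.trans hMQ) h1
  have hy'M : ∀ p : ℕ, p.Prime → p ∣ c1 * V1 → ¬ p ∣ M0 := by
    intro p hp hd hM
    rcases (hp.dvd_mul).1 hd with h1 | h1
    · exact hc1M p hp h1 hM
    · exact hV1 p hp (hM.trans hMQ) h1
  have hno' : ∀ p : ℕ, p.Prime → ¬ p ∣ h → p ∣ c0 * V0 → ¬ p ∣ c1 * V1 := by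
    intro p hp hph h1 h2
    apply hno p hp hph (hx'M p hp h1)
    · rw [hx, mul_assoc]; exact h1.mul_left _
    · rw [hy, mul_assoc]; exact h2.mul_left _
  have hfacx : ∀ p : ℕ, p.Prime → p ∣ h → (c0 * V0).factorization p = w p + 1 := by
    intro p hp hd
    have h1 := hpx p hp hd
    rw [hx, mul_assoc, Nat.factorization_mul hAL0 (mul_ne_zero hc00 hV00), Finsupp.add_apply,
      Nat.factorization_eq_zero_of_not_dvd (fun h2 => hhM p hp hd (hAL p hp h2)), zero_add] at h1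
    exact h1
  have hfacy : ∀ p : ℕ, p.Prime → p ∣ h → (c1 * V1).factorization p = 1 := by
    intro p hp hd
    have h1 := hpy p hp hd
    rw [hy, mul_assoc, Nat.factorization_mul hAR0 (mul_ne_zero hc10 hV10), Finsupp.add_apply,
      Nat.factorization_eq_zero_of_not_dvd (fun h2 => hhM p hp hd (hAR p hp h2)), zero_add] at h1
    exact h1
  have hcF := comp_F f hf w hG0 (mul_ne_zero hc00 hV00) (mul_ne_zero hc10 hV10) hGe hh hfacx hfacy
    hno'
  have hcop0 : Nat.Coprime c0 V0 := cop_of fun p hp hd => hV0 p hp (hd.trans hc0)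
  have hcop1 : Nat.Coprime c1 V1 := cop_of fun p hp hd => hV1 p hp (hd.trans hc1)
  rw [Fm_mul f hc00 hV00 hcop0, Fm_mul f hc10 hV10 hcop1, hF0, hF1] at hcF
  refine ⟨c, by rw [hG, hGc], hc.symm, ?_, ?_⟩
  · intro p hp hd
    rw [← hGc] at hd
    have h1 : p ∣ (c0 * V0) * (c1 * V1) := by rw [← hGe]; exact hd.mul_right _
    rcases (hp.dvd_mul).1 h1 with h2 | h2
    · exact hx'M p hp h2
    · exact hy'M p hp h2
  · rw [← hGc]
    have hk : (∏ p ∈ h.primeFactors, kap f (w p)) * ∏ p ∈ h.primeFactors, (f (w p + 1) * f 1) =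
        f 1 ^ (2 * h.primeFactors.card) * ∏ p ∈ h.primeFactors, f (w p) := by
      rw [← prod_mul_distrib]
      have h1 : ∀ p ∈ h.primeFactors, kap f (w p) * (f (w p + 1) * f 1) =
          (f 1 * f 1) * f (w p) := by
        intro p _
        unfold kap
        rw [← mul_assoc, div_mul_cancel]
        exact mul_right_comm _ _ _
      rw [prod_congr rfl h1, prod_mul_distrib, prod_const, ← pow_two, ← pow_mul]
    obtain ⟨P1, hP1⟩ : ∃ P1, P1 = ∏ p ∈ h.primeFactors, (f (w p + 1) * f 1) := ⟨_, rfl⟩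
    obtain ⟨P2, hP2⟩ : ∃ P2, P2 = ∏ p ∈ h.primeFactors, f (w p) := ⟨_, rfl⟩
    obtain ⟨P3, hP3⟩ : ∃ P3, P3 = ∏ p ∈ h.primeFactors, kap f (w p) := ⟨_, rfl⟩
    rw [← hP1, ← hP2] at hcF
    rw [← hP1, ← hP2, ← hP3] at hk
    rw [← hP3]
    apply mul_right_cancel (b := P1)
    calc Fm f G * f 1 ^ (2 * h.primeFactors.card) * P1
        = (Fm f G * P1) * f 1 ^ (2 * h.primeFactors.card) := by ac_rfl
      _ = (Fm f c0 * f 1 ^ V0.primeFactors.card * (Fm f c1 * f 1 ^ V1.primeFactors.card) * P2) *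
          f 1 ^ (2 * h.primeFactors.card) := by rw [hcF]
      _ = (Fm f c0 * f 1 ^ V0.primeFactors.card * (Fm f c1 * f 1 ^ V1.primeFactors.card)) *
          (f 1 ^ (2 * h.primeFactors.card) * P2) := by ac_rfl
      _ = (Fm f c0 * f 1 ^ V0.primeFactors.card * (Fm f c1 * f 1 ^ V1.primeFactors.card)) *
          (P3 * P1) := by rw [← hk]
      _ = _ := by
          rw [pow_add]
          ac_rfl

end Pool.Agent.Y887.QF
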