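import Mathlib
import Pool.Agent.Y887.QF.Cfg
import Pool.Agent.Y887.QF.CmbA
import Pool.Agent.Y887.QF.Frm

/-!
The value at the composition of two values of a form.
-/

set_option autoImplicit false

namespace Pool.Agent.Y887.QF

open Finset Filter Pool.Agent.Y887.DK Pool.Agent.Y887.QE
open Pool.Agent.Y887.DE (kap)
open Pool.Agent.H410R2.ED (Ln Pt pt Comb params)

theorem Fm_const {Γ : Type} [CommGroup Γ] {f : ℕ → Γ} (hf1 : ∀ k, 1 ≤ k → f k = f 1) (V : ℕ) :
    Fm f V = f 1 ^ V.primeFactors.card := by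
  unfold Fm
  rw [← prod_const]
  apply prod_congr rfl
  intro p hp
  have hV : V ≠ 0 := by
    rintro rfl
    simp at hp
  exact hf1 _ (((Nat.prime_of_mem_primeFactors hp).dvd_iff_one_le_factorization hV).1
    (Nat.dvd_of_mem_primeFactors hp))

theorem pv_pos {al k ga x : ℕ} (hga : 0 < ga) : 0 < pv al k ga x := by
  unfold pv
  omega

theorem pointQ {Γ : Type} [CommGroup Γ] {f : ℕ → Γ} (hf0 : f 0 = 1)
    (hf1 : ∀ k, 1 ≤ k → f k = f 1) {D : ℤ} (hD : ¬ IsSquare D) {y0 B0 b T : ℕ}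
    {ρ : Ln 1 b → Fin (1 + 1) → ℕ}
    {val : Γ} {MB : ℕ} {h : Ln 1 b → ℕ} {s c A c' : Pt 1 b → ℕ} {Q' X' M0 : ℕ}
    {w : Ln 1 b → ℕ → ℕ} (H : Cfg f D y0 B0 b T ρ val MB h s c A c' Q' X' M0 w)
    {al k ga : ℕ} (hga : 0 < ga) (h1 : al ≡ 1 [MOD Q' ^ 2]) (h2 : k ≡ 0 [MOD Q' ^ 2])
    (h3 : ((Q' ^ 2 : ℕ) : ℤ) ∣ ga + D) (hdisc : (k : ℤ) ^ 2 - al * ga = D) (n : ℕ)
    (hbad : ∀ P p, p.Prime → p ∣ pv al k ga (Q' * n + (X' + s P)) / c P →
      ∀ e, ¬ (p : ℤ) ∣ (al : ℤ) ^ 2 * (h e : ℤ) ^ 2 - 4 * D)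
    (e : Ln 1 b) (he : ∀ l, ρ e l +
      (pv al k ga (Q' * n + (X' + s (pt l e))) / c (pt l e)).primeFactors.card = T + 1) :
    ∃ N cc : ℕ, N = pv al k ga (Q' * n + (X' + s (pt 1 e))) / h e +
        al * (Q' * n + (X' + s (pt 1 e))) + k ∧
      vq D N = vq D (y0 + 1) * vq D y0 * (cc *
        ((pv al k ga (Q' * n + (X' + s (pt 0 e))) / c (pt 0 e)) *
          (pv al k ga (Q' * n + (X' + s (pt 1 e))) / c (pt 1 e)))) ∧
      h e ^ 2 * cc = c' (pt 0 e) * c' (pt 1 e) ∧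
      (∀ p : ℕ, p.Prime → p ∣ cc *
        ((pv al k ga (Q' * n + (X' + s (pt 0 e))) / c (pt 0 e)) *
          (pv al k ga (Q' * n + (X' + s (pt 1 e))) / c (pt 1 e))) → ¬ p ∣ M0) ∧
      Fm f (cc * ((pv al k ga (Q' * n + (X' + s (pt 0 e))) / c (pt 0 e)) *
          (pv al k ga (Q' * n + (X' + s (pt 1 e))) / c (pt 1 e)))) = val ∧
      (MB : ℤ) ∣ (N : ℤ) - ((y0 : ℤ) ^ 2 + y0 - D) := by
  classical
  obtain ⟨V, hV⟩ : ∃ V : Pt 1 b → ℕ, ∀ P, V P = pv al k ga (Q' * n + (X' + s P)) / c P :=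
    ⟨_, fun _ => rfl⟩
  have hq : ∀ P, c P ∣ pv al k ga (Q' * n + (X' + s P)) ∧
      ∀ p : ℕ, p.Prime → p ∣ Q' → ¬ p ∣ V P := by
    intro P
    rw [hV]
    exact quot h1 h2 h3 (H.cQ P) (H.cd P n) (H.cq P n)
  simp only [← hV] at hbad he ⊢
  obtain ⟨x, hx⟩ : ∃ x, x = Q' * n + (X' + s (pt 0 e)) := ⟨_, rfl⟩
  obtain ⟨y, hy⟩ : ∃ y, y = Q' * n + (X' + s (pt 1 e)) := ⟨_, rfl⟩
  have hxy : x = y + h e := by
    rw [hx, hy, H.line e]
    ring
  have hhpos : 0 < h e := Nat.pos_of_ne_zero (H.sq e).ne_zero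
  have hpx0 : pv al k ga x ≠ 0 := (pv_pos hga).ne'
  have hpy0 : pv al k ga y ≠ 0 := (pv_pos hga).ne'
  -- the factorisations at the vertices
  have hcpx : c (pt 0 e) ∣ pv al k ga x := by rw [hx]; exact (hq _).1
  have hcpy : c (pt 1 e) ∣ pv al k ga y := by rw [hy]; exact (hq _).1
  have hVx : V (pt 0 e) = pv al k ga x / c (pt 0 e) := by rw [hV, hx]
  have hVy : V (pt 1 e) = pv al k ga y / c (pt 1 e) := by rw [hV, hy]
  have hfx : ∀ p : ℕ, p.Prime → p ∣ Q' →
      (pv al k ga x).factorization p = (vq D x).factorization p := by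
    intro p hp hd
    rw [fac_c hcpx hpx0 (by rw [← hVx]; exact (hq _).2 p hp hd)]
    rw [hx, fac_c (H.cd _ n) (vq_pos hD _).ne' (H.cq _ n p hp hd)]
  have hfy : ∀ p : ℕ, p.Prime → p ∣ Q' →
      (pv al k ga y).factorization p = (vq D y).factorization p := by
    intro p hp hd
    rw [fac_c hcpy hpy0 (by rw [← hVy]; exact (hq _).2 p hp hd)]
    rw [hy, fac_c (H.cd _ n) (vq_pos hD _).ne' (H.cq _ n p hp hd)]
  have hpx : ∀ p : ℕ, p.Prime → p ∣ h e → (pv al k ga x).factorization p = w e p + 1 := by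
    intro p hp hd
    rw [hfx p hp (hd.trans (H.hQ e)), hx, H.fx e n p hp hd]
  have hpy : ∀ p : ℕ, p.Prime → p ∣ h e → (pv al k ga y).factorization p = 1 := by
    intro p hp hd
    rw [hfy p hp (hd.trans (H.hQ e)), hy, H.fy e n p hp hd]
  have hdy : h e ∣ pv al k ga y := by
    apply sqf_dvd (H.sq e) hpy0
    intro p hp hd
    exact Nat.dvd_of_factorization_pos (by rw [hpy p hp hd]; norm_num)
  obtain ⟨N, hN, hcomp⟩ := pv_comp hdisc hhpos hxy hdy
  have hx1 : pv al k ga x = vq D (y0 + 1) * c' (pt 0 e) * V (pt 0 e) := by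
    rw [← H.A0 e, ← H.cA, hVx, Nat.mul_div_cancel' hcpx]
  have hy1 : pv al k ga y = vq D y0 * c' (pt 1 e) * V (pt 1 e) := by
    rw [← H.A1 e, ← H.cA, hVy, Nat.mul_div_cancel' hcpy]
  have hc'Q : ∀ P, c' P ∣ Q' := by
    intro P
    refine dvd_trans ?_ (H.cQ P)
    rw [H.cA]
    exact dvd_mul_left _ _
  have hno : ∀ p : ℕ, p.Prime → ¬ p ∣ h e → ¬ p ∣ M0 → p ∣ pv al k ga x → ¬ p ∣ pv al k ga y := by
    intro p hp hph hpM hdx hdy'
    by_cases hpQ : p ∣ Q'
    · have h5 : p ∣ vq D x := by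
        apply Nat.dvd_of_factorization_pos
        rw [← hfx p hp hpQ]
        have := (hp.dvd_iff_one_le_factorization hpx0).1 hdx
        omega
      have h6 : p ∣ vq D y := by
        apply Nat.dvd_of_factorization_pos
        rw [← hfy p hp hpQ]
        have := (hp.dvd_iff_one_le_factorization hpy0).1 hdy'
        omega
      rw [hx] at h5
      rw [hy] at h6
      exact H.no e n p hp hpQ hph hpM h5 h6
    · have h5 : p ∣ V (pt 0 e) := by
        have h7 := hdx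
        rw [← Nat.mul_div_cancel' hcpx, ← hVx] at h7
        rcases (hp.dvd_mul).1 h7 with h8 | h8
        · exact absurd (h8.trans (H.cQ _)) hpQ
        · exact h8
      have h6 := hbad _ p hp h5 e
      have e0 : (x : ℤ) - y = h e := by
        rw [hxy]
        push_cast
        ring
      have h7 := two_roots hp hdisc hdx hdy' (by
        rw [e0]
        intro h8
        exact hph (by exact_mod_cast h8))
      rw [e0] at h7
      exact h6 h7
  obtain ⟨cc, hvN, hcc, hccM, hFN⟩ := combineA f hf0 (w e) (H.sq e) hcomp hpx0 hpy0 hx1 hy1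
    (fun p hp hd => by
      rw [← H.A0 e] at hd
      exact hd.trans (H.AM _))
    (fun p hp hd => by
      rw [← H.A1 e] at hd
      exact hd.trans (H.AM _))
    (H.hM e) (H.cM _) (H.cM _) (hc'Q _) (hc'Q _) (H.hQ e) H.hMQ (hq _).2 (hq _).2
    (Fm_const hf1 _) (Fm_const hf1 _) hpx hpy hno
  refine ⟨N, cc, ?_, hvN, hcc, hccM, ?_, ?_⟩
  · rw [hN, hy]
  · have h5 := H.vl e _ _ (he 0) (he 1)
    rw [h5] at hFN
    exact mul_right_cancel hFN
  · -- the congruence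
    have hM2 : M0 ∣ Q' ^ 2 := H.hMQ.trans (dvd_pow_self _ (by norm_num))
    have k1 : (M0 : ℤ) ∣ (al : ℤ) - 1 := by
      have := (Nat.modEq_iff_dvd).1 (h1.of_dvd hM2).symm
      push_cast at this
      exact this
    have k2 : (M0 : ℤ) ∣ (k : ℤ) := by
      have := (Nat.modEq_zero_iff_dvd).1 (h2.of_dvd hM2)
      exact_mod_cast this
    have k3 : (M0 : ℤ) ∣ (ga : ℤ) + D := (Int.natCast_dvd_natCast.2 hM2).trans h3
    have k4 : (M0 : ℤ) ∣ (x : ℤ) - (y0 + 1) := by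
      have := (Nat.modEq_iff_dvd).1 (H.r0 e n).symm
      rw [← hx] at this
      push_cast at this
      exact this
    have k5 : (M0 : ℤ) ∣ (y : ℤ) - y0 := by
      have := (Nat.modEq_iff_dvd).1 (H.r1 e n).symm
      rw [← hy] at this
      exact this
    have k6 : (M0 : ℤ) ∣ (h e : ℤ) - 1 := by
      have := (Nat.modEq_iff_dvd).1 (H.one e).symm
      push_cast at this
      exact this
    have hNh : (h e : ℤ) * N = al * x * y + k * (x + y) + ga := by
      obtain ⟨t, ht⟩ := hdy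
      have h7 : N = t + al * y + k := by
        rw [hN, ht, Nat.mul_div_cancel_left _ hhpos]
      have h8 : (h e : ℤ) * t = al * y ^ 2 + 2 * k * y + ga := by
        rw [← pv_cast, ht]
        push_cast
        ring
      rw [h7, hxy]
      push_cast
      linear_combination h8
    refine (Int.natCast_dvd_natCast.2 H.MBM).trans ?_
    have e1 : (N : ℤ) - ((y0 : ℤ) ^ 2 + y0 - D) = ((al : ℤ) - 1) * (x * y) + k * (x + y) +
        (ga + D) + ((x : ℤ) - (y0 + 1)) * y + (y0 + 1) * ((y : ℤ) - y0) -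
        ((h e : ℤ) - 1) * N := by
      linear_combination hNh
    rw [e1]
    exact dvd_sub (dvd_add (dvd_add (dvd_add (dvd_add (k1.mul_right _) (k2.mul_right _)) k3)
      (k4.mul_right _)) (k5.mul_left _)) (k6.mul_right _)

end Pool.Agent.Y887.QF
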