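import Mathlib
import Pool.Agent.Y887.QE.SvB

/-!
The sieve for systems with at most two roots, with values up to a power of the length.
-/

set_option autoImplicit false

namespace Pool.Agent.Y887.QF

open Finset Pool.Agent.H373R2.T7 Pool.Agent.Y887.TD Pool.Agent.Y887.QE

variable {ι : Type} [Fintype ι]

theorem few_largeE {n X Ex : ℕ} (hn : n ≠ 0) (hX : n ≤ X ^ Ex) :
    (n.primeFactors.filter (fun q => Nat.sqrt X < q)).card ≤ 2 * Ex := by
  classical
  by_contra hcon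
  push Not at hcon
  set U := n.primeFactors.filter (fun q => Nat.sqrt X < q) with hU
  set s := Nat.sqrt X with hs
  have h1 : (s + 1) ^ U.card ≤ ∏ q ∈ U, q := pow_card_le_prod _ _ _ (fun q hq => by
    rw [hU, mem_filter] at hq
    exact hq.2)
  have h2 : ∏ q ∈ U, q ≤ n := by
    refine Nat.le_of_dvd (Nat.pos_of_ne_zero hn) ?_
    refine dvd_trans ?_ (Nat.prod_primeFactors_dvd n)
    exact prod_dvd_prod_of_subset _ _ _ (filter_subset _ _)
  have h3 : X < (s + 1) ^ 2 := by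
    rw [hs, pow_two]
    exact Nat.lt_succ_sqrt X
  have h4 : (s + 1) ^ U.card ≤ X ^ Ex := h1.trans (h2.trans hX)
  have h5 : X ^ Ex ≤ ((s + 1) ^ 2) ^ Ex := Nat.pow_le_pow_left h3.le Ex
  have h6 : ((s + 1) ^ 2) ^ Ex = (s + 1) ^ (2 * Ex) := by rw [← pow_mul]
  have h7 : (s + 1) ^ (2 * Ex + 1) ≤ (s + 1) ^ U.card :=
    Nat.pow_le_pow_right (Nat.succ_pos s) (by omega)
  have h8 : (s + 1) ^ (2 * Ex + 1) ≤ (s + 1) ^ (2 * Ex) := h7.trans (h4.trans (h5.trans h6.le))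
  rcases Nat.eq_zero_or_pos s with h9 | h9
  · -- `X = 0`
    have hX0 : X = 0 := by
      rw [h9] at h3
      omega
    rw [hX0] at h4
    rcases Nat.eq_zero_or_pos Ex with h10 | h10
    · rw [h10] at hX hcon
      rw [pow_zero] at hX
      have hn1 : n = 1 := by omega
      rw [hU, hn1] at hcon
      simp at hcon
    · rw [zero_pow (by omega)] at h4
      have : 0 < (s + 1) ^ U.card := by positivity
      omega
  · have := Nat.pow_lt_pow_right (show 1 < s + 1 by omega) (show 2 * Ex < 2 * Ex + 1 by omega)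
    omega

set_option maxHeartbeats 2000000 in
open Classical in
theorem coreVE (Ex : ℕ) (v : ι → ℕ → ℕ) (hv : Good v)
    (hκ : 1 ≤ Fintype.card ι) (L n J X x y R1 : ℕ) (V : ℝ)
    (hL : ∀ (J n : ℕ) (P : Finset ℕ), (∀ q ∈ P, q.Prime ∧ 2 ^ 2 ^ J < q ∧ q < 2 ^ 2 ^ (J + n)) →
      ∑ q ∈ P, (1 : ℝ) / q ≤ L * n)
    (hy : y = 2 ^ 2 ^ J) (hyx : y ≤ x) (hxX : x ^ 4 ≤ X) (hXn : X < 2 ^ 2 ^ (J + n))
    (hV : V = ∏ p ∈ pz y, (1 - (nuB (QV v) p : ℝ) / p)) (hV0 : 0 ≤ V)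
    (hFund : ∀ Q : ℕ → ℕ → Prop, PerB Q (2 * Fintype.card ι) → ∀ X : ℕ,
      |((((Icc 1 X).filter (fun n : ℕ => ∀ p ∈ pz y, ¬ Q p n)).card : ℕ) : ℝ) -
      X * ∏ p ∈ pz y, (1 - (nuB Q p : ℝ) / p)| ≤
      1 / 4 * (X * ∏ p ∈ pz y, (1 - (nuB Q p : ℝ) / p)) + √(x : ℝ))
    (hsz : ∀ h, ∀ m ≤ X, 1 ≤ v h m ∧ v h m ≤ X ^ Ex)
    (hE : (128 : ℝ) / y ≤ V)
    (hR1 : 10 * (L * n) + (12 * Ex + 32) ≤ R1) :
    (X : ℝ) * V / 8 ≤ (((Icc 1 X).filter (fun m =>
        ∑ h, (v h m).primeFactors.card ≤ Fintype.card ι * R1 ∧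
        ∀ h, ∀ p : ℕ, p.Prime → p ∣ v h m → y < p)).card : ℝ) := by
  set κ : ℕ := Fintype.card ι with hκd
  have hy2 : 2 ≤ y := by
    rw [hy]
    calc 2 = 2 ^ 1 := by norm_num
      _ ≤ 2 ^ 2 ^ J := Nat.pow_le_pow_right (by norm_num) Nat.one_le_two_pow
  have hx1 : 1 ≤ x := by omega
  set s := Nat.sqrt X with hs
  have hx2s : x ^ 2 ≤ s := by
    rw [hs, Nat.le_sqrt']
    calc (x ^ 2) ^ 2 = x ^ 4 := by ring
      _ ≤ X := hxX
  have hssX : s * s ≤ X := Nat.sqrt_le X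
  have hxyX : x * y ≤ X := by
    calc x * y ≤ x * x := Nat.mul_le_mul_left _ hyx
      _ = x ^ 2 := by ring
      _ ≤ s := hx2s
      _ ≤ X := Nat.sqrt_le_self X
  have hsxyX : s * x * y ≤ X := by
    calc s * x * y ≤ s * x * x := Nat.mul_le_mul_left _ hyx
      _ = s * x ^ 2 := by ring
      _ ≤ s * s := Nat.mul_le_mul_left _ hx2s
      _ ≤ X := hssX
  have hyr : (0 : ℝ) < y := by
    have : 0 < y := by omega
    exact_mod_cast this
  have hX1 : 1 ≤ X := by nlinarith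
  have hXr : (1 : ℝ) ≤ X := by exact_mod_cast hX1
  have hκr : (1 : ℝ) ≤ κ := by exact_mod_cast hκ
  have hsqx : √(x : ℝ) ≤ x := by
    have h1 : (1 : ℝ) ≤ x := by exact_mod_cast hx1
    rw [Real.sqrt_le_left (by linarith)]
    nlinarith
  set E : ℝ := X / y with hEd
  have hE0 : 0 ≤ E := by positivity
  have hE1 : √(x : ℝ) ≤ E := by
    refine hsqx.trans ?_
    rw [hEd, le_div_iff₀ hyr]
    exact_mod_cast hxyX
  have hE2 : (s : ℝ) * (1 + √(x : ℝ)) ≤ 2 * E := by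
    have h1 : (1 : ℝ) ≤ x := by exact_mod_cast hx1
    have h2 : (s : ℝ) * x ≤ E := by
      rw [hEd, le_div_iff₀ hyr]
      exact_mod_cast hsxyX
    have h3 : (0 : ℝ) ≤ s := Nat.cast_nonneg s
    nlinarith
  set W : ℝ := X * V with hW
  have hW0 : 0 ≤ W := by positivity
  have hEW : 128 * E ≤ W := by
    have h1 := mul_le_mul_of_nonneg_left hE (show (0 : ℝ) ≤ X by linarith)
    rw [hW]
    refine le_trans (le_of_eq ?_) h1
    rw [hEd]
    ring
  -- the rough arguments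
  set S := (Icc 1 X).filter (fun m => ∀ p ∈ pz y, ¬ QV v p m) with hS
  have hSc := hFund (QV v) (perQV hv) X
  rw [← hV, ← hW, ← hS] at hSc
  have hS1 : (S.card : ℝ) ≤ 5 / 4 * W + E := by
    have := (abs_le.1 hSc).2
    linarith
  have hS2 : 3 / 4 * W - E ≤ (S.card : ℝ) := by
    have := (abs_le.1 hSc).1
    linarith
  -- the prime factors
  set Pq := (Ioc y s).filter Nat.Prime with hPq
  have hPq' : ∀ q ∈ Pq, q.Prime ∧ y < q ∧ q ≤ s := by
    intro q hq
    rw [hPq, mem_filter, mem_Ioc] at hq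
    exact ⟨hq.2, hq.1.1, hq.1.2⟩
  have hrec : ∑ q ∈ Pq, (1 : ℝ) / q ≤ L * n := by
    apply hL J n
    intro q hq
    obtain ⟨h1, h2, h3⟩ := hPq' q hq
    refine ⟨h1, by rw [← hy]; exact h2, lt_of_le_of_lt (h3.trans (Nat.sqrt_le_self X)) hXn⟩
  have hω : ∀ m ∈ S, ∀ h, (v h m).primeFactors.card ≤
      (Pq.filter (fun q => q ∣ v h m)).card + 2 * Ex := by
    intro m hm h
    rw [hS, mem_filter, mem_Icc] at hm
    obtain ⟨hne, h2⟩ := hsz h m hm.1.2
    have h1 := card_filter_add_card_filter_not (s := (v h m).primeFactors) (fun q => s < q)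
    have h3 := few_largeE (by omega) h2
    rw [← hs] at h3
    have h4 : ((v h m).primeFactors.filter (fun q => ¬ s < q)).card ≤
        (Pq.filter (fun q => q ∣ v h m)).card := by
      apply card_le_card
      intro q hq
      rw [mem_filter, Nat.mem_primeFactors] at hq
      rw [mem_filter, hPq, mem_filter, mem_Ioc]
      exact ⟨⟨⟨rough_gtV hm.2 h hq.1.1 hq.1.2.1, by omega⟩, hq.1.1⟩, hq.1.2.1⟩
    omega
  have hqcount : ∀ h, ∀ q ∈ Pq, ((S.filter (fun m => q ∣ v h m)).card : ℝ) ≤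
      2 * (1 + √(x : ℝ) + 5 / 4 * W * (1 / q)) := by
    intro h q hq
    obtain ⟨hqp, hyq, hqs⟩ := hPq' q hq
    have h1 : S.filter (fun m => q ∣ v h m) =
        (Icc 1 X).filter (fun m => (∀ p ∈ pz y, ¬ QV v p m) ∧ q ∣ v h m) := by
      rw [hS, filter_filter]
    rw [h1]
    apply count_root hv hqp X h _ (by positivity)
    intro r
    have h2 := hFund (QW v y q r) (perQW hv hqp hyq) (X / q)
    have h3 : ∏ p ∈ pz y, (1 - (nuB (QW v y q r) p : ℝ) / p) = V := by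
      rw [hV]
      apply prod_congr rfl
      intro p hp
      rw [nuB_QW hv (mem_pz.1 hp).2 hqp (mem_pz.1 hp).1 hyq]
    rw [h3] at h2
    have h5 := (abs_le.1 h2).2
    have h6 : ((X / q : ℕ) : ℝ) * V ≤ W * (1 / q) := by
      have h7 : ((X / q : ℕ) : ℝ) ≤ (X : ℝ) / q := Nat.cast_div_le
      calc ((X / q : ℕ) : ℝ) * V ≤ (X : ℝ) / q * V := mul_le_mul_of_nonneg_right h7 hV0
        _ = W * (1 / q) := by rw [hW]; ring
    linarith
  have hPqc : (Pq.card : ℝ) ≤ s := by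
    have : Pq.card ≤ s := (card_filter_le _ _).trans (by rw [Nat.card_Ioc]; omega)
    exact_mod_cast this
  have hR1r : 10 * ((L : ℝ) * n) + (12 * Ex + 32) ≤ R1 := by exact_mod_cast hR1
  have hExr : (0 : ℝ) ≤ (Ex : ℝ) := Nat.cast_nonneg _
  have hLn : (0 : ℝ) ≤ (L : ℝ) * n := by positivity
  have hsum : (∑ m ∈ S, ∑ h, ((v h m).primeFactors.card : ℝ)) ≤
      κ * (5 / 2 * W * (L * n) + 4 * E) + 2 * Ex * κ * S.card := by
    calc (∑ m ∈ S, ∑ h, ((v h m).primeFactors.card : ℝ))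
        ≤ ∑ m ∈ S, ∑ h, (((Pq.filter (fun q => q ∣ v h m)).card : ℝ) + 2 * Ex) := by
          refine sum_le_sum fun m hm => sum_le_sum fun h _ => ?_
          exact_mod_cast hω m hm h
      _ = (∑ h, ∑ q ∈ Pq, ((S.filter (fun m => q ∣ v h m)).card : ℝ)) +
          2 * Ex * κ * S.card := by
          simp only [sum_add_distrib, sum_const, nsmul_eq_mul]
          congr 1
          · rw [sum_comm]
            refine sum_congr rfl fun h _ => ?_
            simp only [card_filter, Nat.cast_sum]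
            rw [sum_comm]
          · rw [card_univ, ← hκd]; ring
      _ ≤ (∑ _h : ι, (5 / 2 * W * (L * n) + 4 * E)) + 2 * Ex * κ * S.card := by
          refine add_le_add (sum_le_sum fun h _ => ?_) le_rfl
          calc ∑ q ∈ Pq, ((S.filter (fun m => q ∣ v h m)).card : ℝ)
              ≤ ∑ q ∈ Pq, 2 * (1 + √(x : ℝ) + 5 / 4 * W * (1 / q)) :=
                sum_le_sum fun q hq => hqcount h q hq
            _ = 2 * (Pq.card * (1 + √(x : ℝ)) + 5 / 4 * W * ∑ q ∈ Pq, (1 : ℝ) / q) := by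
                rw [← mul_sum, sum_add_distrib, sum_const, nsmul_eq_mul, mul_sum]
            _ ≤ 2 * (s * (1 + √(x : ℝ)) + 5 / 4 * W * (L * n)) := by
                apply mul_le_mul_of_nonneg_left _ (by norm_num)
                refine add_le_add (mul_le_mul_of_nonneg_right hPqc (by positivity))
                  (mul_le_mul_of_nonneg_left hrec (by positivity))
            _ ≤ _ := by linarith
      _ = _ := by
          rw [sum_const, nsmul_eq_mul, card_univ, ← hκd]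
  -- the bad arguments
  have hbad : ((S.filter (fun m => ¬ ∑ h, (v h m).primeFactors.card ≤ κ * R1)).card : ℝ) *
      (κ * R1) ≤ κ * (5 / 2 * W * (L * n) + 4 * E) + 2 * Ex * κ * S.card := by
    refine le_trans ?_ hsum
    calc ((S.filter (fun m => ¬ ∑ h, (v h m).primeFactors.card ≤ κ * R1)).card : ℝ) *
        (κ * R1) = ∑ _m ∈ S.filter (fun m => ¬ ∑ h, (v h m).primeFactors.card ≤ κ * R1),
          ((κ : ℝ) * R1) := by rw [sum_const, nsmul_eq_mul]
      _ ≤ ∑ m ∈ S.filter (fun m => ¬ ∑ h, (v h m).primeFactors.card ≤ κ * R1),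
          ∑ h, ((v h m).primeFactors.card : ℝ) := by
          refine sum_le_sum fun m hm => ?_
          have h1 := (mem_filter.1 hm).2
          have h2 : κ * R1 ≤ ∑ h, (v h m).primeFactors.card := by omega
          exact_mod_cast h2
      _ ≤ _ := by
          apply sum_le_sum_of_subset_of_nonneg (filter_subset _ _)
          intro _ _ _
          exact sum_nonneg fun _ _ => Nat.cast_nonneg _
  set bd := ((S.filter (fun m => ¬ ∑ h, (v h m).primeFactors.card ≤ κ * R1)).card : ℝ) with hbdd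
  have hR0 : (0 : ℝ) < R1 := by linarith
  have hbW : bd ≤ W / 4 := by
    have h1 : bd * R1 ≤ 5 / 2 * W * (L * n) + 4 * E + 2 * Ex * S.card := by
      have h2 : κ * (bd * R1) ≤ κ * (5 / 2 * W * (L * n) + 4 * E + 2 * Ex * S.card) := by
        linarith
      exact le_of_mul_le_mul_left h2 (by linarith)
    have h5 : bd * R1 ≤ W / 4 * R1 := by
      have h6 : W / 4 * (10 * (L * n) + (12 * Ex + 32)) ≤ W / 4 * R1 :=
        mul_le_mul_of_nonneg_left hR1r (by linarith)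
      have h7 : 5 / 2 * W * (L * n) + 4 * E + 2 * Ex * S.card ≤ W / 4 * (10 * (L * n) + (12 * Ex + 32)) := by
        have : W / 4 * (10 * (L * n) + (12 * Ex + 32)) =
            5 / 2 * W * (L * n) + 3 * Ex * W + 8 * W := by ring
        rw [this]
        have h8 : 2 * (Ex : ℝ) * S.card ≤ 2 * Ex * (5 / 4 * W + E) :=
          mul_le_mul_of_nonneg_left hS1 (by positivity)
        have h9 : (Ex : ℝ) * (128 * E) ≤ Ex * W := mul_le_mul_of_nonneg_left hEW hExr
        nlinarith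
      linarith
    exact le_of_mul_le_mul_right h5 hR0
  set G1 := S.filter (fun m => ∑ h, (v h m).primeFactors.card ≤ κ * R1) with hG1
  have hcard : (S.card : ℝ) ≤ G1.card + W / 4 := by
    have h1 := card_filter_add_card_filter_not (s := S)
      (fun m => ∑ h, (v h m).primeFactors.card ≤ κ * R1)
    have h2 : (S.card : ℝ) = G1.card + bd := by
      rw [hbdd, hG1]
      exact_mod_cast h1.symm
    linarith
  have hsubf : G1 ⊆
      (Icc 1 X).filter (fun m => ∑ h, (v h m).primeFactors.card ≤ κ * R1 ∧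
        ∀ h, ∀ p : ℕ, p.Prime → p ∣ v h m → y < p) := by
    intro m hm
    rw [hG1, mem_filter, hS, mem_filter] at hm
    rw [mem_filter]
    exact ⟨hm.1.1, hm.2, fun h p hp hpd => rough_gtV hm.1.2 h hp hpd⟩
  have hfin2 : (G1.card : ℝ) ≤
      (((Icc 1 X).filter (fun m => ∑ h, (v h m).primeFactors.card ≤ κ * R1 ∧
        ∀ h, ∀ p : ℕ, p.Prime → p ∣ v h m → y < p)).card : ℝ) := by
    exact_mod_cast card_le_card hsubf
  refine le_trans ?_ hfin2
  linarith

open Classical Filter in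
/-- the sieve, uniformly in the system -/
theorem sieveVE (Ex : ℕ) : ∃ C1 : ℕ, 1 ≤ C1 ∧ ∀ κ : ℕ, 1 ≤ κ → ∃ K X0 : ℕ, ∀ X : ℕ, X0 ≤ X →
    ∀ (ι : Type) [Fintype ι], Fintype.card ι = κ → ∀ v : ι → ℕ → ℕ, Good v →
    (∀ p : ℕ, p.Prime → p ≤ 4 * κ → ∀ h n, ¬ p ∣ v h n) →
    (∀ h, ∀ m ≤ X, 1 ≤ v h m ∧ v h m ≤ X ^ Ex) →
    (X : ℝ) / Real.log X ^ K ≤
      (((Icc 1 X).filter (fun m =>
        ∑ h, (v h m).primeFactors.card ≤ κ * (C1 * (Nat.log 2 κ + 1)) ∧
        ∀ h, ∀ p : ℕ, p.Prime → p ∣ v h m → X < p ^ K)).card : ℝ) := by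
  obtain ⟨N1, hN1⟩ := sysFundU
  obtain ⟨L, hL⟩ := sum_recip
  set c2 : ℕ := Nat.log 2 (64 * ((2 * N1 + 14) * (2 * N1 + 14))) with hc2
  refine ⟨10 * (L * (c2 + 4)) + (12 * Ex + 32), by omega, ?_⟩
  intro κ hκ
  obtain ⟨x0, hx0⟩ := hN1 (2 * κ) (by omega)
  obtain ⟨C0, hC0⟩ : ∃ C0 : ℕ, C0 = N1 * (2 * κ) + 2 * (2 * κ) + 10 := ⟨_, rfl⟩
  rw [← hC0] at hx0
  have hC01 : 1 ≤ C0 := by rw [hC0]; exact Nat.le_add_left _ _
  obtain ⟨K0, hK0⟩ : ∃ K0 : ℕ, K0 = 16 * (C0 * C0) := ⟨_, rfl⟩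
  rw [← hK0] at hx0
  have hK01 : K0 ≠ 0 := by
    have h1 := Nat.mul_pos hC01 hC01
    rw [hK0]
    exact (Nat.mul_pos (by norm_num) h1).ne'
  have hC0le : C0 ≤ (2 * N1 + 14) * κ := by
    rw [hC0]; nlinarith
  obtain ⟨K', N0, hV⟩ := V_low (2 * κ)
  set t : ℕ := Nat.log 2 (64 * (C0 * C0)) + 1 with ht
  have ht4 : 4 * K0 ≤ 2 ^ t := by
    have h0 : 64 * (C0 * C0) < 2 ^ t := Nat.lt_pow_succ_log_self (by norm_num) (64 * (C0 * C0))
    omega
  have htle : t ≤ c2 + 2 * Nat.log 2 κ + 3 := by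
    have h1 : Nat.log 2 (64 * (C0 * C0)) ≤
        Nat.log 2 (64 * ((2 * N1 + 14) * (2 * N1 + 14)) * (κ * κ)) := by
      apply Nat.log_mono_right
      calc 64 * (C0 * C0) ≤ 64 * (((2 * N1 + 14) * κ) * ((2 * N1 + 14) * κ)) :=
            Nat.mul_le_mul_left _ (Nat.mul_le_mul hC0le hC0le)
        _ = _ := by ring
    have h2 := two_log_le (64 * ((2 * N1 + 14) * (2 * N1 + 14))) κ hκ (by nlinarith)
    omega
  have htle' : t + 1 ≤ (c2 + 4) * (Nat.log 2 κ + 1) := by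
    clear hx0
    nlinarith
  -- the parameter
  set T : ℕ → ℕ := fun X => Nat.log 2 (Nat.log 2 X) with hT
  have hTt : Tendsto T atTop atTop := by
    have h1 : Tendsto (Nat.log 2) atTop atTop := by
      rw [tendsto_atTop]
      intro b
      filter_upwards [eventually_ge_atTop (2 ^ b)] with n hn
      exact Nat.le_log_of_pow_le (by norm_num) hn
    exact h1.comp h1
  set Y : ℕ → ℕ := fun X => 2 ^ 2 ^ (T X - t) with hY
  have hYt : Tendsto Y atTop atTop := by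
    rw [tendsto_atTop]
    intro b
    filter_upwards [hTt.eventually_ge_atTop (t + b)] with X hX
    have h1 : b ≤ T X - t := by omega
    calc b ≤ T X - t := h1
      _ ≤ 2 ^ (T X - t) := Nat.lt_two_pow_self.le
      _ ≤ 2 ^ 2 ^ (T X - t) := Nat.lt_two_pow_self.le
  have hlim : Tendsto (fun y : ℕ => 128 * Real.log y ^ K' / y) atTop (nhds 0) := by
    have h1 : Tendsto (fun x : ℝ => Real.log x ^ K' / x) atTop (nhds 0) := by
      have h2 := Real.isLittleO_pow_log_id_atTop (n := K')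
      exact h2.tendsto_div_nhds_zero
    have h3 := (h1.comp tendsto_natCast_atTop_atTop).const_mul (128 : ℝ)
    rw [mul_zero] at h3
    refine h3.congr fun y => ?_
    simp only [Function.comp_apply]
    ring
  have hlogX : Tendsto (fun X : ℕ => Real.log (X : ℝ)) atTop atTop :=
    Real.tendsto_log_atTop.comp tendsto_natCast_atTop_atTop
  have hev : ∀ᶠ X : ℕ in atTop, t ≤ T X ∧ x0 ≤ Y X ∧ N0 ≤ Y X ∧ 3 ≤ Y X ∧
      128 * Real.log (Y X) ^ K' / (Y X : ℝ) < 1 ∧ 4 ≤ X ∧ (8 : ℝ) ≤ Real.log X := by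
    filter_upwards [hTt.eventually_ge_atTop t, hYt.eventually_ge_atTop x0,
      hYt.eventually_ge_atTop N0, hYt.eventually_ge_atTop 3,
      hYt.eventually (hlim.eventually_lt_const (show (0 : ℝ) < 1 by norm_num)),
      eventually_ge_atTop 4, hlogX.eventually_ge_atTop 8]
      with X hX1 hX2 hX3 hX4 hX5 hX7 hX8
    exact ⟨hX1, hX2, hX3, hX4, hX5, hX7, hX8⟩
  obtain ⟨X0, hX0⟩ := eventually_atTop.1 hev
  refine ⟨(K' + 1) + 2 ^ (t + 1), X0, ?_⟩
  intro X hXX0 ι _ hκd v hv hsmall hsz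
  obtain ⟨hX1, hX2, hX3, hX4, hX5, hX7, hX8⟩ := hX0 X hXX0
  obtain ⟨J, hJ⟩ : ∃ J : ℕ, J = T X - t := ⟨_, rfl⟩
  obtain ⟨y, hy⟩ : ∃ y : ℕ, y = Y X := ⟨_, rfl⟩
  have hyJ : y = 2 ^ 2 ^ J := by rw [hy, hJ]
  rw [← hy] at hX2 hX3 hX4 hX5
  have hXne : Nat.log 2 X ≠ 0 := by
    have : 0 < Nat.log 2 X := Nat.log_pos (by norm_num) (by omega)
    omega
  have hXlow : 2 ^ 2 ^ (T X) ≤ X := by
    calc 2 ^ 2 ^ (T X) ≤ 2 ^ (Nat.log 2 X) :=
          Nat.pow_le_pow_right (by norm_num) (Nat.pow_log_le_self 2 hXne)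
      _ ≤ X := Nat.pow_log_le_self 2 (by omega)
  have hXup : X < 2 ^ 2 ^ (J + (t + 1)) := by
    have h1 : X < 2 ^ (Nat.log 2 X + 1) := Nat.lt_pow_succ_log_self (by norm_num) X
    have h2 : Nat.log 2 X + 1 ≤ 2 ^ (T X + 1) := Nat.lt_pow_succ_log_self (by norm_num) _
    have h3 : J + (t + 1) = T X + 1 := by clear hyJ; omega
    rw [h3]
    exact h1.trans_le (Nat.pow_le_pow_right (by norm_num) h2)
  obtain ⟨x, hx⟩ : ∃ x : ℕ, x = y ^ K0 := ⟨_, rfl⟩
  have hyx : y ≤ x := by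
    rw [hx]
    exact Nat.le_self_pow hK01 _
  have hxX : x ^ 4 ≤ X := by
    calc x ^ 4 = 2 ^ (2 ^ J * (4 * K0)) := by
          rw [hx, hyJ, ← pow_mul, ← pow_mul]
          ring_nf
      _ ≤ 2 ^ (2 ^ J * 2 ^ t) := Nat.pow_le_pow_right (by norm_num) (Nat.mul_le_mul_left _ ht4)
      _ = 2 ^ 2 ^ (T X) := by
          rw [← pow_add]
          have h3 : J + t = T X := by clear hyJ hx hXup hXlow; omega
          rw [h3]
      _ ≤ X := hXlow
  obtain ⟨V, hVd⟩ : ∃ V : ℝ, V = ∏ p ∈ pz y, (1 - (nuB (QV v) p : ℝ) / p) := ⟨_, rfl⟩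
  have hVl : 1 / Real.log y ^ K' ≤ V := by
    rw [hVd]
    apply hV y hX3 (QV v) (by rw [← hκd]; exact perQV hv)
    intro p hp hpκ
    unfold nuB
    rw [card_eq_zero, filter_eq_empty_iff]
    rintro r _ ⟨-, h, hd⟩
    exact hsmall p hp (by omega) h r hd
  have hy3 : (3 : ℝ) ≤ y := by exact_mod_cast hX4
  have hlogy : 1 < Real.log y := by
    rw [Real.lt_log_iff_exp_lt (by linarith)]
    have := Real.exp_one_lt_d9
    linarith
  have hlogyX : Real.log y ≤ Real.log X := by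
    apply Real.log_le_log (by linarith)
    have : y ≤ X := by
      calc y ≤ x := hyx
        _ ≤ x ^ 4 := Nat.le_self_pow (by norm_num) _
        _ ≤ X := hxX
    exact_mod_cast this
  have hV0 : 0 ≤ V := le_trans (by positivity) hVl
  have hEV : (128 : ℝ) / y ≤ V := by
    refine le_trans ?_ hVl
    rw [div_le_div_iff₀ (by linarith) (by positivity)]
    have h1 : 128 * Real.log y ^ K' < 1 * y := by
      rwa [div_lt_iff₀ (by linarith)] at hX5
    linarith
  have hmain := coreVE Ex v hv (by omega) L (t + 1) J X x y ((10 * (L * (c2 + 4)) + (12 * Ex + 32)) *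
    (Nat.log 2 κ + 1)) V hL hyJ hyx hxX hXup hVd hV0
    (fun Q hQ X' => hx0 x y hX2 (le_of_eq hx.symm) Q (by rw [← hκd]; exact hQ) X') hsz hEV (by
      have h1 : t + 1 ≤ (c2 + 4) * (Nat.log 2 κ + 1) := htle'
      have h2 : L * (t + 1) ≤ L * ((c2 + 4) * (Nat.log 2 κ + 1)) := Nat.mul_le_mul_left _ h1
      have h3 : (12 * Ex + 32) ≤ (12 * Ex + 32) * (Nat.log 2 κ + 1) :=
        Nat.le_mul_of_pos_right _ (Nat.succ_pos _)
      calc 10 * (L * (t + 1)) + (12 * Ex + 32) ≤ 10 * (L * ((c2 + 4) * (Nat.log 2 κ + 1))) +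
            (12 * Ex + 32) * (Nat.log 2 κ + 1) := Nat.add_le_add (Nat.mul_le_mul_left _ h2) h3
        _ = _ := by ring)
  rw [hκd] at hmain
  have hmono : ((((Icc 1 X).filter (fun m =>
        ∑ h, (v h m).primeFactors.card ≤ κ * ((10 * (L * (c2 + 4)) + (12 * Ex + 32)) *
          (Nat.log 2 κ + 1)) ∧
        ∀ h, ∀ p : ℕ, p.Prime → p ∣ v h m → y < p)).card : ℕ) : ℝ) ≤
      (((Icc 1 X).filter (fun m =>
        ∑ h, (v h m).primeFactors.card ≤ κ * ((10 * (L * (c2 + 4)) + (12 * Ex + 32)) *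
          (Nat.log 2 κ + 1)) ∧
        ∀ h, ∀ p : ℕ, p.Prime → p ∣ v h m →
          X < p ^ ((K' + 1) + 2 ^ (t + 1)))).card : ℝ) := by
    have h0 : (Icc 1 X).filter (fun m =>
        ∑ h, (v h m).primeFactors.card ≤ κ * ((10 * (L * (c2 + 4)) + (12 * Ex + 32)) *
          (Nat.log 2 κ + 1)) ∧
        ∀ h, ∀ p : ℕ, p.Prime → p ∣ v h m → y < p) ⊆
      (Icc 1 X).filter (fun m =>
        ∑ h, (v h m).primeFactors.card ≤ κ * ((10 * (L * (c2 + 4)) + (12 * Ex + 32)) *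
          (Nat.log 2 κ + 1)) ∧
        ∀ h, ∀ p : ℕ, p.Prime → p ∣ v h m →
          X < p ^ ((K' + 1) + 2 ^ (t + 1))) := by
      intro m hm
      rw [mem_filter] at hm ⊢
      refine ⟨hm.1, hm.2.1, fun h p hp hpd => ?_⟩
      have h1 := hm.2.2 h p hp hpd
      calc X < 2 ^ 2 ^ (J + (t + 1)) := hXup
        _ = y ^ 2 ^ (t + 1) := by rw [hyJ, ← pow_mul, pow_add]
        _ ≤ p ^ 2 ^ (t + 1) := Nat.pow_le_pow_left h1.le _
        _ ≤ p ^ ((K' + 1) + 2 ^ (t + 1)) := Nat.pow_le_pow_right hp.pos (Nat.le_add_left _ _)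
    exact_mod_cast card_le_card h0
  refine le_trans ?_ (hmain.trans hmono)
  have hXr : (4 : ℝ) ≤ X := by exact_mod_cast hX7
  calc (X : ℝ) / Real.log X ^ ((K' + 1) + 2 ^ (t + 1)) ≤ (X : ℝ) / Real.log X ^ (K' + 1) := by
        apply div_le_div_of_nonneg_left (by linarith) (by positivity)
        exact pow_le_pow_right₀ (by linarith) (Nat.le_add_right _ _)
    _ ≤ X / (8 * Real.log y ^ K') := by
        apply div_le_div_of_nonneg_left (by linarith) (by positivity)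
        rw [pow_succ, mul_comm (Real.log X ^ K')]
        apply mul_le_mul hX8 (pow_le_pow_left₀ (by linarith) hlogyX _) (by positivity) (by linarith)
    _ = X * (1 / Real.log y ^ K') / 8 := by
        field_simp
    _ ≤ X * V / 8 := by
        have := mul_le_mul_of_nonneg_left hVl (show (0 : ℝ) ≤ X by linarith)
        linarith

end Pool.Agent.Y887.QF
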