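import Mathlib
import Pool.Agent.Y887.QF.SvE
import Pool.Agent.Y887.UT.SvB

/-!
The sieve with a set of forbidden primes.
-/

set_option autoImplicit false

namespace Pool.Agent.Y887.QF

open Finset Filter Pool.Agent.Y887.QE Pool.Agent.Y887.UT

open Classical in
theorem cnt_two {ι : Type} {v : ι → ℕ → ℕ} (hv : Good v) (h : ι) {p : ℕ} (hp : p.Prime) (X : ℕ) :
    ((Icc 1 X).filter (fun m => p ∣ v h m)).card ≤ 2 * (X / p + 1) := by
  have hsub : (Icc 1 X).filter (fun m => p ∣ v h m) ⊆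
      ((range p).filter (fun r => p ∣ v h r)).biUnion (fun r =>
        (Icc 1 X).filter (fun m => m % p = r)) := by
    intro m hm
    rw [mem_filter] at hm
    rw [mem_biUnion]
    refine ⟨m % p, ?_, mem_filter.2 ⟨hm.1, rfl⟩⟩
    rw [mem_filter, mem_range]
    exact ⟨Nat.mod_lt _ hp.pos, (hv.per h p m hp).1 hm.2⟩
  refine (card_le_card hsub).trans (card_biUnion_le.trans ?_)
  have h1 : ∀ r ∈ (range p).filter (fun r => p ∣ v h r),
      ((Icc 1 X).filter (fun m => m % p = r)).card ≤ X / p + 1 := by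
    intro r _
    calc ((Icc 1 X).filter (fun m => m % p = r)).card ≤ (range (X / p + 1)).card := by
          apply card_le_card_of_injOn (fun m => m / p)
          · intro m hm
            rw [mem_coe, mem_filter, mem_Icc] at hm
            rw [mem_coe, mem_range]
            exact Nat.lt_succ_of_le (Nat.div_le_div_right hm.1.2)
          · intro m hm m' hm' hmm
            rw [mem_coe, mem_filter] at hm hm'
            have hmm : m / p = m' / p := hmm
            rw [← Nat.div_add_mod m p, ← Nat.div_add_mod m' p, hmm, hm.2, hm'.2]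
      _ = _ := card_range _
  refine (sum_le_card_nsmul _ _ _ h1).trans ?_
  rw [smul_eq_mul]
  exact Nat.mul_le_mul_right _ (hv.few h p hp)

open Classical in
theorem sieveF (Ex : ℕ) : ∃ C1 : ℕ, 1 ≤ C1 ∧ ∀ κ : ℕ, 1 ≤ κ → ∃ K X0 : ℕ, 2 ≤ K ∧ ∀ X : ℕ, X0 ≤ X →
    ∀ (ι : Type) [Fintype ι], Fintype.card ι = κ → ∀ v : ι → ℕ → ℕ, Good v →
    (∀ p : ℕ, p.Prime → p ≤ 4 * κ → ∀ h n, ¬ p ∣ v h n) →
    (∀ h, ∀ m ≤ X, 1 ≤ v h m ∧ v h m ≤ X ^ Ex) →
    ∀ bad : Finset ℕ, (∀ p ∈ bad, p.Prime) → bad.card ^ (2 * K) ≤ X →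
    (X : ℝ) / Real.log X ^ K ≤
      (((Icc 1 X).filter (fun m =>
        ∑ h, (v h m).primeFactors.card ≤ κ * (C1 * (Nat.log 2 κ + 1)) ∧
        ∀ h, ∀ p : ℕ, p.Prime → p ∣ v h m → X < p ^ K ∧ p ∉ bad)).card : ℝ) := by
  obtain ⟨C1, hC1, hS⟩ := sieveVE Ex
  refine ⟨C1, hC1, fun κ hκ => ?_⟩
  obtain ⟨K, X0, hS⟩ := hS κ hκ
  obtain ⟨X1, hX1⟩ := exc_small (2 * κ) (K + 2) (by omega)
  refine ⟨K + 2, X0 + X1 + 8, by omega, ?_⟩
  intro X hX ι _ hcard v hv hsmall hsize bad hbad hbadc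
  have hmain := hS X (by omega) ι hcard v hv hsmall hsize
  -- the parameter z
  have hXpos : 0 < X := by omega
  obtain ⟨z, hz⟩ : ∃ z : ℕ, z = Nat.find (p := fun z => X < (z + 1) ^ (K + 2))
      ⟨X, (Nat.lt_succ_self X).trans_le (Nat.le_self_pow (by omega) _)⟩ := ⟨_, rfl⟩
  have hz1 : X < (z + 1) ^ (K + 2) := by
    rw [hz]
    exact Nat.find_spec (p := fun z => X < (z + 1) ^ (K + 2)) _
  have hz2 : ∀ p, X < p ^ (K + 2) → z < p := by
    intro p hp
    by_contra hle
    push Not at hle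
    have hp0 : 0 < p := by
      rcases Nat.eq_zero_or_pos p with h0 | h0
      · rw [h0, zero_pow (by omega)] at hp
        omega
      · exact h0
    have hlt : p - 1 < z := by omega
    rw [hz] at hlt
    have := Nat.find_min (p := fun z => X < (z + 1) ^ (K + 2)) _ hlt
    apply this
    have e : p - 1 + 1 = p := by omega
    show X < (p - 1 + 1) ^ (K + 2)
    rw [e]
    exact hp
  have hz0 : 1 ≤ z := by
    by_contra h0
    have h3 : z = 0 := by omega
    rw [h3, zero_add, one_pow] at hz1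
    omega
  have hzX : X ≤ (2 * z) ^ (K + 2) := by
    have h3 : (z + 1) ^ (K + 2) ≤ (2 * z) ^ (K + 2) := Nat.pow_le_pow_left (by omega) _
    omega
  obtain ⟨hlog1, hexc⟩ := hX1 X (by omega) z 1 bad.card hz0 hzX (by
    have : 1 ≤ X ^ 3 := Nat.one_le_pow _ _ hXpos
    omega) hbadc
  have hzr : (0 : ℝ) < z := by exact_mod_cast hz0
  -- the exceptional arguments
  obtain ⟨Ec, hEc⟩ : ∃ Ec : Finset ℕ, Ec = (Icc 1 X).filter (fun m => ∃ h, ∃ p : ℕ, p.Prime ∧
    z < p ∧ p ∣ v h m ∧ p ∈ bad) := ⟨_, rfl⟩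
  have hE : (Ec.card : ℝ) ≤ ((2 * κ : ℕ) : ℝ) * (X / z + (1 : ℕ) + bad.card * (X / z + 1)) := by
    have hsub : Ec ⊆ (univ : Finset ι).biUnion (fun h => (bad.filter (fun p => z < p)).biUnion
        (fun p => (Icc 1 X).filter (fun m => p ∣ v h m))) := by
      intro m hm
      rw [hEc, mem_filter] at hm
      obtain ⟨hm1, h, p, hp, hzp, hpd, hpb⟩ := hm
      rw [mem_biUnion]
      refine ⟨h, mem_univ _, ?_⟩
      rw [mem_biUnion]
      exact ⟨p, mem_filter.2 ⟨hpb, hzp⟩, mem_filter.2 ⟨hm1, hpd⟩⟩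
    have h1 := (card_le_card hsub).trans (card_biUnion_le.trans (sum_le_sum fun h _ =>
      card_biUnion_le.trans (sum_le_sum fun p (hp : p ∈ bad.filter (fun p => z < p)) =>
        cnt_two hv h (hbad p (mem_filter.1 hp).1) X)))
    have h2 := (Nat.cast_le (α := ℝ)).2 h1
    refine h2.trans ?_
    push_cast
    have h3 : ∀ h ∈ (univ : Finset ι), ∑ p ∈ bad.filter (fun p => z < p),
        (2 * (((X / p : ℕ) : ℝ) + 1)) ≤ 2 * (bad.card * (X / z + 1)) := by
      intro h _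
      calc ∑ p ∈ bad.filter (fun p => z < p), (2 * (((X / p : ℕ) : ℝ) + 1))
          ≤ ∑ _p ∈ bad.filter (fun p => z < p), (2 * ((X : ℝ) / z + 1)) := by
            apply sum_le_sum
            intro p hp
            rw [mem_filter] at hp
            have h5 : ((X / p : ℕ) : ℝ) ≤ (X : ℝ) / p := Nat.cast_div_le
            have h6 : (X : ℝ) / p ≤ X / z := by
              apply div_le_div_of_nonneg_left (Nat.cast_nonneg X) hzr
              exact_mod_cast hp.2.le
            linarith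
        _ = ((bad.filter (fun p => z < p)).card : ℝ) * (2 * ((X : ℝ) / z + 1)) := by
            rw [sum_const, nsmul_eq_mul]
        _ ≤ (bad.card : ℝ) * (2 * ((X : ℝ) / z + 1)) := by
            apply mul_le_mul_of_nonneg_right _ (by positivity)
            exact_mod_cast card_filter_le _ _
        _ = _ := by ring
    refine (sum_le_sum h3).trans ?_
    rw [sum_const, card_univ, hcard, nsmul_eq_mul]
    have h4 : (0 : ℝ) ≤ X / z := by positivity
    have h5 : (0 : ℝ) ≤ κ := Nat.cast_nonneg _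
    have h6 : (κ : ℝ) * (2 * (bad.card * (X / z + 1))) = 2 * κ * (bad.card * (X / z + 1)) := by ring
    rw [h6]
    apply mul_le_mul_of_nonneg_left _ (by positivity)
    linarith
  have hE' := hE.trans hexc
  have hsub : (Icc 1 X).filter (fun m =>
        ∑ h, (v h m).primeFactors.card ≤ κ * (C1 * (Nat.log 2 κ + 1)) ∧
        ∀ h, ∀ p : ℕ, p.Prime → p ∣ v h m → X < p ^ K) ⊆
      (Icc 1 X).filter (fun m =>
        ∑ h, (v h m).primeFactors.card ≤ κ * (C1 * (Nat.log 2 κ + 1)) ∧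
        ∀ h, ∀ p : ℕ, p.Prime → p ∣ v h m → X < p ^ (K + 2) ∧ p ∉ bad) ∪ Ec := by
    intro m hm
    rw [mem_filter] at hm
    obtain ⟨hm1, hm2, hm3⟩ := hm
    have hm4 : ∀ h, ∀ p : ℕ, p.Prime → p ∣ v h m → X < p ^ (K + 2) :=
      fun h p hp hpd => (hm3 h p hp hpd).trans_le (Nat.pow_le_pow_right hp.pos (by omega))
    rw [mem_union]
    by_cases hs : ∃ h, ∃ p : ℕ, p.Prime ∧ z < p ∧ p ∣ v h m ∧ p ∈ bad
    · right
      rw [hEc]
      exact mem_filter.2 ⟨hm1, hs⟩
    · left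
      push Not at hs
      rw [mem_filter]
      exact ⟨hm1, hm2, fun h p hp hpd => ⟨hm4 h p hp hpd, hs h p hp (hz2 p (hm4 h p hp hpd)) hpd⟩⟩
  have hcardle := (card_le_card hsub).trans (card_union_le _ _)
  have hcardr := (Nat.cast_le (α := ℝ)).2 hcardle
  rw [Nat.cast_add] at hcardr
  have hXr : (0 : ℝ) ≤ X := Nat.cast_nonneg _
  have hX8 : (8 : ℝ) ≤ X := by
    have : 8 ≤ X := by omega
    exact_mod_cast this
  obtain ⟨t, ht⟩ : ∃ t : ℝ, t = (X : ℝ) / Real.log X ^ (K + 2) := ⟨_, rfl⟩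
  have ht0 : 0 ≤ t := by rw [ht]; positivity
  have hl : 2 ≤ Real.log X := by
    rw [Real.le_log_iff_exp_le (by linarith)]
    have h3 := Real.exp_one_lt_d9
    have h4 : Real.exp 2 = Real.exp 1 * Real.exp 1 := by
      rw [← Real.exp_add]; norm_num
    have h5 := Real.exp_pos 1
    rw [h4]
    nlinarith
  have e1 : (X : ℝ) / Real.log X ^ K = Real.log X ^ 2 * t := by
    rw [ht, pow_add]
    have h3 : Real.log X ≠ 0 := by linarith
    field_simp
  have e2 : (X : ℝ) / Real.log X ^ (K + 2 + 1) = t / Real.log X := by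
    rw [ht, div_div, ← pow_succ]
  rw [e1] at hmain
  rw [e2] at hE'
  have e3 : (X : ℝ) / Real.log X ^ (K + 2) = t := ht.symm
  rw [e3]
  have h3 : t / Real.log X ≤ t := div_le_self ht0 (by linarith)
  have h4 : 2 * t ≤ Real.log X ^ 2 * t := mul_le_mul_of_nonneg_right (by nlinarith) ht0
  linarith

end Pool.Agent.Y887.QF
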