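import Mathlib
import Pool.Agent.H446R2.ED_T1
import Pool.Agent.Y887.UT.Core
import Pool.Agent.Y887.QF.Ptq
import Pool.Agent.Y887.QF.Cnq
import Pool.Agent.Y887.QF.Fam
import Pool.Agent.Y887.QF.SvF

/-!
Many arguments at which `N ^ 2 - D` has an exact number of prime factors.
-/

set_option autoImplicit false

namespace Pool.Agent.Y887.QF

open Finset Filter Pool.Agent.Y887.DK Pool.Agent.Y887.QE
open Pool.Agent.Y887.DE (kap)
open Pool.Agent.H410R2.ED (Ln Pt pt Comb params)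

/-- the properties of the arguments -/
def GoodQ {Γ : Type} [CommGroup Γ] (f : ℕ → Γ) (D : ℤ) (y0 MB M K C X : ℕ) (val : Γ) (N : ℕ) :
    Prop :=
  M ≤ N ∧ (MB : ℤ) ∣ (N : ℤ) - ((y0 : ℤ) ^ 2 + y0 - D) ∧ ∃ c s : ℕ,
    vq D N = vq D (y0 + 1) * vq D y0 * (c * s) ∧ c ≤ C ∧
    (∀ p : ℕ, p.Prime → p ∣ s → X < p ^ K) ∧ (∀ p : ℕ, p.Prime → p ∣ c * s → M < p) ∧
    Fm f (c * s) = val

theorem log2_ge (t : ℕ) (ht : 1 ≤ t) : Real.log t ≤ (Nat.log 2 t + 1 : ℕ) := by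
  have h1 : t < 2 ^ (Nat.log 2 t + 1) := Nat.lt_pow_succ_log_self (by norm_num) t
  have h2 : (t : ℝ) ≤ (2 : ℝ) ^ (Nat.log 2 t + 1) := by exact_mod_cast h1.le
  have h3 : (0 : ℝ) < t := by exact_mod_cast ht
  have h4 := Real.log_le_log h3 h2
  rw [Real.log_pow] at h4
  have h5 : Real.log 2 ≤ 1 := by
    have := Real.log_two_lt_d9
    linarith
  have h6 : (0 : ℝ) ≤ ((Nat.log 2 t + 1 : ℕ) : ℝ) := Nat.cast_nonneg _
  calc Real.log t ≤ ((Nat.log 2 t + 1 : ℕ) : ℝ) * Real.log 2 := h4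
    _ ≤ ((Nat.log 2 t + 1 : ℕ) : ℝ) * 1 := mul_le_mul_of_nonneg_left h5 h6
    _ = _ := mul_one _

/-- from real to natural counts -/
theorem count_nat {t K c : ℕ} (ht : 3 ≤ t) (h : (t : ℝ) / Real.log t ^ K ≤ (c : ℝ)) :
    t ≤ c * (Nat.log 2 t + 1) ^ K := by
  have h1 := log2_ge t (by omega)
  have h2 : 0 < Real.log t := Real.log_pos (by exact_mod_cast (by omega : 1 < t))
  have h3 : (t : ℝ) ≤ c * Real.log t ^ K := by
    rwa [div_le_iff₀ (pow_pos h2 K)] at h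
  have h4 : Real.log t ^ K ≤ ((Nat.log 2 t + 1 : ℕ) : ℝ) ^ K := pow_le_pow_left₀ h2.le h1 K
  have h5 : (t : ℝ) ≤ (c : ℝ) * ((Nat.log 2 t + 1 : ℕ) : ℝ) ^ K :=
    h3.trans (mul_le_mul_of_nonneg_left h4 (Nat.cast_nonneg _))
  exact_mod_cast h5

theorem log_pow_le (t E : ℕ) (hE : 1 ≤ E) : Nat.log 2 (t ^ E) + 1 ≤ 2 * E * (Nat.log 2 t + 1) := by
  have h1 : t < 2 ^ (Nat.log 2 t + 1) := Nat.lt_pow_succ_log_self (by norm_num) t
  have h2 : t ^ E < 2 ^ ((Nat.log 2 t + 1) * E) := by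
    rw [pow_mul]
    exact Nat.pow_lt_pow_left h1 (by omega)
  have h3 : Nat.log 2 (t ^ E) < (Nat.log 2 t + 1) * E ∨ t ^ E = 0 := by
    rcases Nat.eq_zero_or_pos (t ^ E) with h | h
    · exact Or.inr h
    · exact Or.inl (Nat.log_lt_of_lt_pow h.ne' h2)
  have h4 : 1 ≤ (Nat.log 2 t + 1) * E := Nat.mul_pos (by omega) hE
  have h5 : 2 * E * (Nat.log 2 t + 1) = 2 * ((Nat.log 2 t + 1) * E) := by ring
  rcases h3 with h | h
  · omega
  · rw [h]
    simp only [Nat.log_zero_right]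
    omega

set_option maxHeartbeats 8000000 in
theorem mainQ (E' : ℕ) (hE' : 1 ≤ E') {Γ : Type} [CommGroup Γ] (f : ℕ → Γ) (hf0 : f 0 = 1)
    (hf1 : ∀ k, 1 ≤ k → f k = f 1) (Lp Lm : List ℕ)
    (hrel : (Lp.map (kap f)).prod = f 1 * (Lm.map (kap f)).prod) :
    ∃ (Φ : Γ) (K : ℕ), ∀ D : ℤ, ¬ IsSquare D → ∀ y0 MB : ℕ, 0 < MB →
      ∀ ex : List ℕ, (∀ m ∈ ex, 1 ≤ m) → ∀ M : ℕ, ∃ C W : ℕ, 1 ≤ W ∧ ∀ L : ℕ,
        ∀ᶠ t : ℕ in atTop, ∀ X : ℕ, W * t ^ (2 * E' + 2) ≤ X → X < t ^ (2 * E' + 3) →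
          L * t ^ (2 * E') ≤
            {N : ℕ | N ≤ X ∧ GoodQ f D y0 MB M K C X (Φ * (ex.map f).prod) N}.ncard := by
  classical
  obtain ⟨C2, hC20, hS2⟩ := sieveF (2 * E' + 3)
  have hC2r : (0 : ℝ) < 3 * C2 := by
    have : (1 : ℝ) ≤ C2 := by exact_mod_cast hC20
    linarith
  obtain ⟨b, T, hb2, hbT, hCT⟩ := params (3 * C2) hC2r 1
  obtain ⟨ρ, hρ, hcomb⟩ := Pool.Agent.H446R2.comb 1 b T hbT
  have hκ2 : 2 ≤ (1 + 1) * b ^ 1 := by rw [pow_one]; omega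
  obtain ⟨K0, X0, hK02, hS2⟩ := hS2 ((1 + 1) * b ^ 1) (by omega)
  have hcardP : Fintype.card (Pt 1 b) = (1 + 1) * b ^ 1 := by simp [Pt]
  have hsumbd : 2 * ((1 + 1) * b ^ 1 * (C2 * (Nat.log 2 ((1 + 1) * b ^ 1) + 1))) ≤ T * b ^ 1 := by
    have h1 := natlog_le2 hκ2
    have h2 : (2 : ℝ) * ((((1 + 1) * b ^ 1 : ℕ) : ℝ) * (C2 *
        ((Nat.log 2 ((1 + 1) * b ^ 1) + 1 : ℕ) : ℝ))) ≤
        2 * (3 * C2 * (((1 + 1) * b ^ 1 : ℕ) : ℝ) * Real.log (((1 + 1) * b ^ 1 : ℕ) : ℝ)) := by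
      have h3 : (0 : ℝ) ≤ (((1 + 1) * b ^ 1 : ℕ) : ℝ) * C2 := by positivity
      have h4 := mul_le_mul_of_nonneg_left h1 h3
      calc (2 : ℝ) * ((((1 + 1) * b ^ 1 : ℕ) : ℝ) * (C2 *
            ((Nat.log 2 ((1 + 1) * b ^ 1) + 1 : ℕ) : ℝ)))
          = 2 * ((((1 + 1) * b ^ 1 : ℕ) : ℝ) * C2 *
            ((Nat.log 2 ((1 + 1) * b ^ 1) + 1 : ℕ) : ℝ)) := by ring
        _ ≤ 2 * ((((1 + 1) * b ^ 1 : ℕ) : ℝ) * C2 *
            (3 * Real.log (((1 + 1) * b ^ 1 : ℕ) : ℝ))) := by linarith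
        _ = _ := by ring
    have h4 := h2.trans hCT
    exact_mod_cast h4
  obtain ⟨Φ, hcfg⟩ := config f hf0 Lp Lm hrel b T hb2 ρ hρ
  refine ⟨Φ, K0 * (2 * E' + 3), ?_⟩
  intro D hD y0 MB hMB ex hex M
  have hD0 : D ≠ 0 := by
    rintro rfl
    exact hD ⟨0, by simp⟩
  obtain ⟨h, s, c, A, c', Q', X', M0, w, H⟩ := hcfg D hD y0 MB hMB ex hex M
  obtain ⟨B0, hB0⟩ : ∃ B0 : ℕ, B0 = 4 * (b * b) + 8 * b + M + D.natAbs + 5 := ⟨_, rfl⟩
  rw [← hB0] at H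
  obtain ⟨val, hval⟩ : ∃ val : Γ, val = Φ * (ex.map f).prod := ⟨_, rfl⟩
  rw [← hval] at H ⊢
  have hQpos := H.Qpos
  obtain ⟨Cf, A0f, hCf, hfam⟩ := family D (Q' ^ 2) (pow_pos hQpos 2)
  have : Nonempty (Ln 1 b) := ⟨fun _ => ⟨0, by omega⟩⟩
  have hE1 : 1 ≤ Fintype.card (Ln 1 b) := Fintype.card_pos
  obtain ⟨Ss, hSs⟩ : ∃ Ss : ℕ, Ss = Q' + X' + ∑ P, s P := ⟨_, rfl⟩
  have hSs1 : 1 ≤ Ss := by omega
  obtain ⟨W0, hW0⟩ : ∃ W0 : ℕ, W0 = 4 * Cf * Ss ^ 2 := ⟨_, rfl⟩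
  have hW01 : 1 ≤ W0 := by
    rw [hW0]
    exact Nat.mul_pos (by omega) (pow_pos hSs1 2)
  obtain ⟨Cb, hCb⟩ : ∃ Cb : ℕ, Cb = (∑ P, c' P) * (∑ P, c' P) := ⟨_, rfl⟩
  obtain ⟨Hm, hHm⟩ : ∃ Hm : ℕ, Hm = ∑ e, h e := ⟨_, rfl⟩
  have hHme : ∀ e, h e ≤ Hm := by
    intro e
    rw [hHm]
    exact single_le_sum (f := fun e => h e) (fun _ _ => Nat.zero_le _) (mem_univ e)
  refine ⟨Cb, 2 * W0, by omega, ?_⟩
  intro L
  obtain ⟨Lc, hLc⟩ : ∃ Lc : ℕ, Lc = (4 * E' + 6) * K0 := ⟨_, rfl⟩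
  obtain ⟨nE, hnE⟩ : ∃ nE : ℕ, nE = Fintype.card (Ln 1 b) := ⟨_, rfl⟩
  filter_upwards [eventually_ge_atTop A0f, eventually_ge_atTop X0,
    eventually_ge_atTop W0, eventually_ge_atTop (Cf ^ 2 * Hm ^ 2 + 4 * D.natAbs + 3),
    Pool.Agent.Y887.UT.evlog ((nE * (4 * E' + 1)) ^ (2 * K0)) (2 * K0),
    Pool.Agent.Y887.UT.evlog (L * (nE * 2 ^ Lc * Cf * (2 * E'))) (K0 + 1)]
    with t ht1 ht2 ht3 ht4 ht5 ht6
  intro X hX1 hX2
  have ht3' : 3 ≤ t := by omega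
  have hAt : A0f ≤ t ^ E' := ht1.trans (Nat.le_self_pow (by omega) t)
  obtain ⟨S, al, k, ga, hScard, hmem, hinj⟩ := hfam (t ^ E') hAt
  -- the arguments
  obtain ⟨xx, hxx⟩ : ∃ xx : Pt 1 b → ℕ → ℕ, ∀ P n, xx P n = Q' * n + (X' + s P) :=
    ⟨_, fun _ _ => rfl⟩
  have hxle : ∀ P n, n ≤ t → xx P n ≤ Ss * t := by
    intro P n hn
    have h1 := single_le_sum (f := fun P => s P) (fun _ _ => Nat.zero_le _) (mem_univ P)
    have h2 : X' + s P ≤ (X' + ∑ P, s P) * t :=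
      (Nat.add_le_add_left h1 _).trans (Nat.le_mul_of_pos_right _ (by omega))
    rw [hxx, hSs]
    calc Q' * n + (X' + s P) ≤ Q' * t + (X' + ∑ P, s P) * t :=
          Nat.add_le_add (Nat.mul_le_mul_left _ hn) h2
      _ = _ := by ring
  -- the values
  obtain ⟨V, hV⟩ : ∃ V : ℕ × ℕ → Pt 1 b → ℕ → ℕ, ∀ g P n,
      V g P n = pv (al g) (k g) (ga g) (Q' * n + (X' + s P)) / c P := ⟨_, fun _ _ _ => rfl⟩
  have hq : ∀ g ∈ S, ∀ P n, c P ∣ pv (al g) (k g) (ga g) (Q' * n + (X' + s P)) ∧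
      ∀ p : ℕ, p.Prime → p ∣ Q' → ¬ p ∣ V g P n := by
    intro g hg P n
    obtain ⟨-, -, -, h1, h2, h3, -⟩ := hmem g hg
    rw [hV]
    exact quot h1 h2 h3 (H.cQ P) (H.cd P n) (H.cq P n)
  have hpvle : ∀ g ∈ S, ∀ P n, n ≤ t →
      pv (al g) (k g) (ga g) (Q' * n + (X' + s P)) ≤ W0 * t ^ (2 * E' + 2) := by
    intro g hg P n hn
    obtain ⟨-, -, -, -, -, -, -, h5, h6, h7⟩ := hmem g hg
    rw [hW0, ← hxx]
    exact pv_le h5 h6 h7 hSs1 (by omega) (hxle P n hn)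
  have hpvle2 : ∀ g ∈ S, ∀ P n, n ≤ t →
      pv (al g) (k g) (ga g) (Q' * n + (X' + s P)) ≤ t ^ (2 * E' + 3) := by
    intro g hg P n hn
    refine (hpvle g hg P n hn).trans ?_
    rw [show 2 * E' + 3 = (2 * E' + 2) + 1 by ring, pow_succ t (2 * E' + 2), mul_comm]
    exact Nat.mul_le_mul_left _ ht3
  have hVpos : ∀ g ∈ S, ∀ P n, 0 < V g P n := by
    intro g hg P n
    obtain ⟨-, -, h0, -⟩ := hmem g hg
    rw [hV]
    exact Nat.div_pos (Nat.le_of_dvd (pv_pos h0) (hq g hg P n).1) (H.cpos P)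
  have hVle : ∀ g ∈ S, ∀ P n, n ≤ t → V g P n ≤ t ^ (2 * E' + 3) := by
    intro g hg P n hn
    rw [hV]
    exact (Nat.div_le_self _ _).trans (hpvle2 g hg P n hn)
  -- the bad primes
  obtain ⟨bad, hbadd⟩ : ∃ bad : ℕ × ℕ → Finset ℕ, ∀ g, bad g = (univ : Finset (Ln 1 b)).biUnion
      (fun e => (((al g : ℤ) ^ 2 * (h e : ℤ) ^ 2 - 4 * D).natAbs).primeFactors) :=
    ⟨_, fun _ => rfl⟩
  have hns : ∀ g e, ((al g : ℤ) ^ 2 * (h e : ℤ) ^ 2 - 4 * D) ≠ 0 := by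
    intro g e h0
    have h2 := ns_mul hD (w := 2) (u := (al g : ℤ) * (h e : ℤ)) (by linarith)
    norm_num at h2
  have hbadc : ∀ g ∈ S, (bad g).card ≤ nE * (4 * E' + 1) * (Nat.log 2 t + 1) := by
    intro g hg
    obtain ⟨-, -, -, -, -, -, -, h5, -⟩ := hmem g hg
    rw [hbadd]
    refine card_biUnion_le.trans ?_
    refine (Finset.sum_le_card_nsmul _ _ ((4 * E' + 1) * (Nat.log 2 t + 1)) fun e _ => ?_).trans ?_
    · apply card_pf
      · rw [Int.natAbs_ne_zero]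
        exact hns g e
      · have h6 : ((al g : ℤ) ^ 2 * (h e : ℤ) ^ 2 - 4 * D).natAbs ≤
            (al g) ^ 2 * (h e) ^ 2 + 4 * D.natAbs := by
          have h7 := Int.natAbs_sub_le ((al g : ℤ) ^ 2 * (h e : ℤ) ^ 2) (4 * D)
          rw [Int.natAbs_mul, Int.natAbs_mul, Int.natAbs_pow, Int.natAbs_pow, Int.natAbs_natCast,
            Int.natAbs_natCast] at h7
          exact h7
        have h7 : (al g) ^ 2 * (h e) ^ 2 + 4 * D.natAbs < t ^ (4 * E' + 1) := by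
          have h8 : (al g) ^ 2 ≤ (Cf * (t ^ E') ^ 2) ^ 2 := Nat.pow_le_pow_left h5 2
          have h9 : (h e) ^ 2 ≤ Hm ^ 2 := Nat.pow_le_pow_left (hHme e) 2
          have h10 : 1 ≤ t ^ (4 * E') := Nat.one_le_pow _ _ (by omega)
          calc (al g) ^ 2 * (h e) ^ 2 + 4 * D.natAbs
              ≤ (Cf * (t ^ E') ^ 2) ^ 2 * Hm ^ 2 + 4 * D.natAbs :=
                Nat.add_le_add_right (Nat.mul_le_mul h8 h9) _
            _ = (Cf ^ 2 * Hm ^ 2) * t ^ (4 * E') + 4 * D.natAbs := by ring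
            _ ≤ (Cf ^ 2 * Hm ^ 2) * t ^ (4 * E') + (4 * D.natAbs) * t ^ (4 * E') :=
                Nat.add_le_add_left (Nat.le_mul_of_pos_right _ h10) _
            _ = (Cf ^ 2 * Hm ^ 2 + 4 * D.natAbs) * t ^ (4 * E') := by ring
            _ < t * t ^ (4 * E') := Nat.mul_lt_mul_of_pos_right (by omega) h10
            _ = _ := by ring
        have h8 : t < 2 ^ (Nat.log 2 t + 1) := Nat.lt_pow_succ_log_self (by norm_num) t
        calc _ ≤ (al g) ^ 2 * (h e) ^ 2 + 4 * D.natAbs := h6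
          _ < t ^ (4 * E' + 1) := h7
          _ ≤ (2 ^ (Nat.log 2 t + 1)) ^ (4 * E' + 1) := Nat.pow_le_pow_left h8.le _
          _ = _ := by rw [← pow_mul, mul_comm]
    · rw [card_univ, ← hnE, smul_eq_mul, mul_assoc]
  have hbadp : ∀ g ∈ S, (bad g).card ^ (2 * K0) ≤ t := by
    intro g hg
    refine (Nat.pow_le_pow_left (hbadc g hg) _).trans ?_
    rw [mul_pow]
    exact ht5
  -- the good arguments
  obtain ⟨G, hG⟩ : ∃ G : ℕ × ℕ → Finset ℕ, ∀ g, G g = (Icc 1 t).filter (fun m =>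
        ∑ P, (V g P m).primeFactors.card ≤
          (1 + 1) * b ^ 1 * (C2 * (Nat.log 2 ((1 + 1) * b ^ 1) + 1)) ∧
        ∀ P, ∀ p : ℕ, p.Prime → p ∣ V g P m → t < p ^ K0 ∧ p ∉ bad g) := ⟨_, fun _ => rfl⟩
  have hsmall : ∀ p : ℕ, p.Prime → ((p : ℤ) ∣ 2 ∨ (p : ℤ) ∣ D) → p ∣ Q' := by
    intro p hp hd
    refine dvd_trans (H.small p hp ?_) H.hMQ
    rcases hd with hd | hd
    · have h1 : p ∣ 2 := by exact_mod_cast hd
      have := Nat.le_of_dvd (by norm_num) h1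
      omega
    · have h1 : p ∣ D.natAbs := Int.natCast_dvd.1 hd
      have := Nat.le_of_dvd (Int.natAbs_pos.2 hD0) h1
      omega
  have hGc : ∀ g ∈ S, t ≤ (G g).card * (Nat.log 2 t + 1) ^ K0 := by
    intro g hg
    obtain ⟨-, -, -, -, -, -, h4, -⟩ := hmem g hg
    apply count_nat ht3'
    rw [hG]
    have hgood : Good (fun P m => V g P m) := by
      have h5 := good_pv h4 Q' hsmall (fun P => X' + s P) c
        (fun P m => (hq g hg P m).1) (fun P p hp hd => hd.trans (H.cQ P))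
        (fun P m p hp hd => by
          have := (hq g hg P m).2 p hp hd
          rwa [hV] at this)
      simp only [hV]
      exact h5
    exact hS2 t ht2 (Pt 1 b) hcardP (fun P m => V g P m) hgood
      (fun p hp hle P n => (hq g hg P n).2 p hp ((H.small p hp (by
        rw [pow_one] at hle
        omega)).trans H.hMQ))
      (fun P m hm => ⟨hVpos g hg P m, hVle g hg P m hm⟩)
      (bad g) (by
        intro p hp
        rw [hbadd, mem_biUnion] at hp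
        obtain ⟨e, -, he⟩ := hp
        exact Nat.prime_of_mem_primeFactors he) (hbadp g hg)
  -- the pairs
  obtain ⟨Pr, hPr⟩ : ∃ Pr : Finset (Σ _ : ℕ × ℕ, ℕ), Pr = S.sigma G := ⟨_, rfl⟩
  have hPrc : t * S.card ≤ Pr.card * (Nat.log 2 t + 1) ^ K0 := by
    rw [hPr, card_sigma, sum_mul, mul_comm, ← smul_eq_mul, ← sum_const]
    exact sum_le_sum hGc
  have hpt : ∀ a : (Σ _ : ℕ × ℕ, ℕ), a ∈ Pr → ∃ (e : Ln 1 b) (N cc : ℕ),
      N = pv (al a.1) (k a.1) (ga a.1) (Q' * a.2 + (X' + s (pt 1 e))) / h e +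
        al a.1 * (Q' * a.2 + (X' + s (pt 1 e))) + k a.1 ∧
      vq D N = vq D (y0 + 1) * vq D y0 * (cc * (V a.1 (pt 0 e) a.2 * V a.1 (pt 1 e) a.2)) ∧
      h e ^ 2 * cc = c' (pt 0 e) * c' (pt 1 e) ∧
      (∀ p : ℕ, p.Prime → p ∣ cc * (V a.1 (pt 0 e) a.2 * V a.1 (pt 1 e) a.2) → ¬ p ∣ M0) ∧
      Fm f (cc * (V a.1 (pt 0 e) a.2 * V a.1 (pt 1 e) a.2)) = val ∧
      (MB : ℤ) ∣ (N : ℤ) - ((y0 : ℤ) ^ 2 + y0 - D) := by
    intro a ha
    rw [hPr, mem_sigma, hG, mem_filter] at ha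
    obtain ⟨hg, -, hsum, hrough⟩ := ha
    obtain ⟨e, he⟩ := hcomb (fun P => (V a.1 P a.2).primeFactors.card) (by omega)
    obtain ⟨-, -, h0, h1, h2, h3, h4, -⟩ := hmem a.1 hg
    refine ⟨e, ?_⟩
    simp only [hV] at hrough he ⊢
    apply pointQ hf0 hf1 hD H h0 h1 h2 h3 h4 a.2
    · intro P p hp hd e' hd'
      apply (hrough P p hp hd).2
      rw [hbadd, mem_biUnion]
      refine ⟨e', mem_univ _, Nat.mem_primeFactors.2 ⟨hp, Int.natCast_dvd.1 hd', ?_⟩⟩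
      rw [Int.natAbs_ne_zero]
      exact hns a.1 e'
    · intro l
      exact he l
  choose! eF NF cF hF using hpt
  -- the fibres
  have hfib : ∀ q ∈ Pr.image (fun a => (eF a, NF a)),
      (Pr.filter (fun a => (eF a, NF a) = q)).card ≤ 2 ^ Lc := by
    intro q hq'
    rw [mem_image] at hq'
    obtain ⟨a0, ha0, rfl⟩ := hq'
    obtain ⟨h1, h2, h3, h4, h5, h6⟩ := hF a0 ha0
    obtain ⟨s0, hs0⟩ : ∃ s0, s0 = V a0.1 (pt 0 (eF a0)) a0.2 * V a0.1 (pt 1 (eF a0)) a0.2 :=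
      ⟨_, rfl⟩
    have ha0' := ha0
    rw [hPr, mem_sigma, hG, mem_filter, mem_Icc] at ha0'
    obtain ⟨hg0, hn0, -, hr0⟩ := ha0'
    have hs00 : s0 ≠ 0 := by
      rw [hs0]
      exact (Nat.mul_pos (hVpos _ hg0 _ _) (hVpos _ hg0 _ _)).ne'
    have hdivs : s0.divisors.card ≤ 2 ^ Lc := by
      rw [hLc]
      apply div_rough (by omega : 2 ≤ t) hs00
      · rw [hs0, show 4 * E' + 6 = (2 * E' + 3) + (2 * E' + 3) by ring, pow_add]
        exact Nat.mul_le_mul (hVle _ hg0 _ _ hn0.2) (hVle _ hg0 _ _ hn0.2)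
      · intro p hp hd
        rw [hs0] at hd
        rcases (hp.dvd_mul).1 hd with h7 | h7
        · exact (hr0 _ p hp h7).1
        · exact (hr0 _ p hp h7).1
    refine le_trans ?_ hdivs
    apply card_le_card_of_injOn (fun a => V a.1 (pt 1 (eF a)) a.2)
    · intro a ha
      rw [mem_coe, mem_filter] at ha
      obtain ⟨ha, heq⟩ := ha
      rw [Prod.mk.injEq] at heq
      obtain ⟨he, hNe⟩ := heq
      obtain ⟨k1, k2, k3, k4, k5, k6⟩ := hF a ha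
      rw [mem_coe, Nat.mem_divisors]
      refine ⟨?_, hs00⟩
      -- the constants agree
      have hcc : cF a = cF a0 := by
        have hh2 : 0 < h (eF a0) ^ 2 := pow_pos (Nat.pos_of_ne_zero (H.sq _).ne_zero) 2
        rw [he] at k3
        exact Nat.eq_of_mul_eq_mul_left hh2 (k3.trans h3.symm)
      have hss : V a.1 (pt 0 (eF a)) a.2 * V a.1 (pt 1 (eF a)) a.2 = s0 := by
        have h7 : 0 < vq D (y0 + 1) * vq D y0 := Nat.mul_pos (vq_pos hD _) (vq_pos hD _)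
        have h8 : vq D (NF a) = vq D (NF a0) := by rw [hNe]
        rw [k2, h2] at h8
        have h9 := Nat.eq_of_mul_eq_mul_left h7 h8
        rw [hcc, ← hs0] at h9
        have h10 : 0 < cF a0 := by
          rcases Nat.eq_zero_or_pos (cF a0) with h11 | h11
          · exfalso
            rw [h11] at h2
            simp only [zero_mul, mul_zero] at h2
            exact (vq_pos hD (NF a0)).ne' h2
          · exact h11
        exact Nat.eq_of_mul_eq_mul_left h10 h9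
      rw [← hss]
      exact dvd_mul_left _ _
    · intro a ha a' ha' hVV
      rw [mem_coe, mem_filter] at ha ha'
      obtain ⟨ha, heq⟩ := ha
      obtain ⟨ha', heq'⟩ := ha'
      rw [Prod.mk.injEq] at heq heq'
      obtain ⟨he, hNe⟩ := heq
      obtain ⟨he', hNe'⟩ := heq'
      obtain ⟨k1, -⟩ := hF a ha
      obtain ⟨k1', -⟩ := hF a' ha'
      have hmem1 := ha
      have hmem2 := ha'
      rw [hPr, mem_sigma] at hmem1 hmem2
      have hg := hmem1.1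
      have hg' := hmem2.1
      obtain ⟨g1, -, g3, -, -, -, g7, -⟩ := hmem a.1 hg
      obtain ⟨-, -, -, -, -, -, g7', -⟩ := hmem a'.1 hg'
      simp only at hVV
      rw [he, he'] at hVV
      have hZ : pv (al a.1) (k a.1) (ga a.1) (Q' * a.2 + (X' + s (pt 1 (eF a0)))) =
          pv (al a'.1) (k a'.1) (ga a'.1) (Q' * a'.2 + (X' + s (pt 1 (eF a0)))) := by
        rw [← Nat.mul_div_cancel' (hq a.1 hg (pt 1 (eF a0)) a.2).1,
          ← Nat.mul_div_cancel' (hq a'.1 hg' (pt 1 (eF a0)) a'.2).1, ← hV, ← hV, hVV]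
      rw [he, hNe] at k1
      rw [he', hNe'] at k1'
      obtain ⟨r1, r2⟩ := recon g3 g7 g7' hZ (k1.symm.trans k1')
      have hgg : a.1 = a'.1 := hinj a.1 hg a'.1 hg' r1 r2
      rw [hZ, hgg] at k1
      have h7 : al a'.1 * (Q' * a.2 + (X' + s (pt 1 (eF a0)))) =
          al a'.1 * (Q' * a'.2 + (X' + s (pt 1 (eF a0)))) := by omega
      have h8 : Q' * a.2 + (X' + s (pt 1 (eF a0))) = Q' * a'.2 + (X' + s (pt 1 (eF a0))) :=
        Nat.eq_of_mul_eq_mul_left (by rw [← hgg]; exact g1) h7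
      have h9 : Q' * a.2 = Q' * a'.2 := by omega
      have h10 : a.2 = a'.2 := Nat.eq_of_mul_eq_mul_left hQpos h9
      exact Sigma.ext hgg (heq_of_eq h10)
  have hcard1 := card_le_mul_card_image Pr (2 ^ Lc) hfib
  have hcard2 : (Pr.image (fun a => (eF a, NF a))).card ≤ nE * (Pr.image NF).card := by
    have hsub : Pr.image (fun a => (eF a, NF a)) ⊆ (univ : Finset (Ln 1 b)) ×ˢ (Pr.image NF) := by
      intro q hq'
      rw [mem_image] at hq'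
      obtain ⟨a, ha, rfl⟩ := hq'
      exact mem_product.2 ⟨mem_univ _, mem_image_of_mem _ ha⟩
    have := card_le_card hsub
    rwa [card_product, card_univ, ← hnE] at this
  -- the final set
  have hNsub : ((Pr.image NF : Finset ℕ) : Set ℕ) ⊆
      {N : ℕ | N ≤ X ∧ GoodQ f D y0 MB M (K0 * (2 * E' + 3)) Cb X val N} := by
    intro N hN
    rw [mem_coe, mem_image] at hN
    obtain ⟨a, ha, rfl⟩ := hN
    obtain ⟨k1, k2, k3, k4, k5, k6⟩ := hF a ha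
    rw [hPr, mem_sigma, hG, mem_filter, mem_Icc] at ha
    obtain ⟨hg, hn, -, hr⟩ := ha
    obtain ⟨g1, -, g3, -, -, -, g7, -⟩ := hmem a.1 hg
    obtain ⟨y, hy⟩ : ∃ y, y = Q' * a.2 + (X' + s (pt 1 (eF a))) := ⟨_, rfl⟩
    have hyQ : Q' ≤ y := by
      have : Q' ≤ Q' * a.2 := Nat.le_mul_of_pos_right _ hn.1
      omega
    have hpvy := hpvle a.1 hg (pt 1 (eF a)) a.2 hn.2
    rw [← hy] at k1 hpvy
    refine ⟨?_, ?_, k6, cF a, _, k2, ?_, ?_, ?_, k5⟩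
    · rw [k1]
      refine le_trans ?_ hX1
      have h1 : pv (al a.1) (k a.1) (ga a.1) y / h (eF a) ≤ pv (al a.1) (k a.1) (ga a.1) y :=
        Nat.div_le_self _ _
      have h2 : al a.1 * y + k a.1 ≤ pv (al a.1) (k a.1) (ga a.1) y := by
        unfold pv
        have h3 : al a.1 * y ≤ al a.1 * y ^ 2 :=
          Nat.mul_le_mul_left _ (Nat.le_self_pow (by norm_num) y)
        have h4 : k a.1 ≤ 2 * k a.1 * y := by
          have : k a.1 * 1 ≤ k a.1 * (2 * y) := Nat.mul_le_mul_left _ (by omega)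
          calc k a.1 = k a.1 * 1 := (mul_one _).symm
            _ ≤ k a.1 * (2 * y) := this
            _ = _ := by ring
        omega
      have h3 : 2 * W0 * t ^ (2 * E' + 2) = 2 * (W0 * t ^ (2 * E' + 2)) := by ring
      rw [h3]
      omega
    · have h1 : y ≤ al a.1 * y := Nat.le_mul_of_pos_left _ g1
      have h2 := H.QB
      have h3 : M ≤ al a.1 * y := by omega
      rw [k1]
      exact (h3.trans (Nat.le_add_left _ _)).trans (Nat.le_add_right _ _)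
    · have hh2 : 1 ≤ h (eF a) ^ 2 := Nat.one_le_pow _ _ (Nat.pos_of_ne_zero (H.sq _).ne_zero)
      calc cF a ≤ h (eF a) ^ 2 * cF a := Nat.le_mul_of_pos_left _ hh2
        _ = _ := k3
        _ ≤ Cb := by
            rw [hCb]
            exact Nat.mul_le_mul
              (single_le_sum (f := fun P => c' P) (fun _ _ => Nat.zero_le _) (mem_univ _))
              (single_le_sum (f := fun P => c' P) (fun _ _ => Nat.zero_le _) (mem_univ _))
    · intro p hp hd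
      have h1 : t < p ^ K0 := by
        rcases (hp.dvd_mul).1 hd with h7 | h7
        · exact (hr _ p hp h7).1
        · exact (hr _ p hp h7).1
      rw [pow_mul]
      exact hX2.trans_le (Nat.pow_le_pow_left h1.le _)
    · intro p hp hd
      have h1 := k4 p hp hd
      by_contra hle
      exact h1 (H.small p hp (by omega))
  have hfin : {N : ℕ | N ≤ X ∧ GoodQ f D y0 MB M (K0 * (2 * E' + 3)) Cb X val N}.Finite :=
    (Set.finite_Iic X).subset fun n hn => hn.1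
  have hcard3 := Set.ncard_le_ncard hNsub hfin
  rw [Set.ncard_coe_finset] at hcard3
  refine le_trans ?_ hcard3
  -- the arithmetic
  obtain ⟨l, hl⟩ : ∃ l : ℕ, l = Nat.log 2 t + 1 := ⟨_, rfl⟩
  rw [← hl] at hPrc ht6
  have hlog := log_pow_le t E' hE'
  rw [← hl] at hlog
  have hA2 : (t ^ E') ^ 2 = t ^ (2 * E') := by rw [← pow_mul, mul_comm]
  rw [hA2] at hScard
  obtain ⟨n1, hn1⟩ : ∃ n1, n1 = (Pr.image NF).card := ⟨_, rfl⟩
  obtain ⟨T2, hT2⟩ : ∃ T2, T2 = t ^ (2 * E') := ⟨_, rfl⟩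
  rw [← hn1] at hcard2 ⊢
  rw [← hT2] at hScard ⊢
  obtain ⟨Zz, hZz⟩ : ∃ Zz, Zz = nE * 2 ^ Lc * Cf * (2 * E') * l ^ (K0 + 1) := ⟨_, rfl⟩
  have hZpos : 0 < Zz := by
    rw [hZz, hl]
    have : 0 < nE := by omega
    positivity
  have h1 : t * T2 ≤ Zz * n1 := by
    calc t * T2 ≤ t * (Cf * (Nat.log 2 (t ^ E') + 1) * S.card) := Nat.mul_le_mul_left _ hScard
      _ ≤ t * (Cf * (2 * E' * l) * S.card) :=
          Nat.mul_le_mul_left _ (Nat.mul_le_mul_right _ (Nat.mul_le_mul_left _ hlog))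
      _ = Cf * (2 * E' * l) * (t * S.card) := by ring
      _ ≤ Cf * (2 * E' * l) * (Pr.card * l ^ K0) := Nat.mul_le_mul_left _ hPrc
      _ ≤ Cf * (2 * E' * l) * ((2 ^ Lc * (nE * n1)) * l ^ K0) :=
          Nat.mul_le_mul_left _ (Nat.mul_le_mul_right _ (hcard1.trans
            (Nat.mul_le_mul_left _ hcard2)))
      _ = _ := by rw [hZz]; ring
  have h2 : L * Zz ≤ t := by
    calc L * Zz = L * (nE * 2 ^ Lc * Cf * (2 * E')) * l ^ (K0 + 1) := by rw [hZz]; ring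
      _ ≤ t := ht6
  have h3 : Zz * (L * T2) ≤ Zz * n1 := by
    calc Zz * (L * T2) = (L * Zz) * T2 := by ring
      _ ≤ t * T2 := Nat.mul_le_mul_right _ h2
      _ ≤ _ := h1
  exact Nat.le_of_mul_le_mul_left h3 hZpos

end Pool.Agent.Y887.QF
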