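import Mathlib
import Pool.Agent.Y887.QF.Mnq
import Pool.Agent.Y887.QE.Fin

/-!
Exact numbers of prime factors at the values of all irreducible quadratic polynomials: from the
arguments `N` of `N ^ 2 - D` to the arguments of the polynomial.
-/

set_option autoImplicit false

namespace Pool.Agent.Y887.QF

open Finset Filter Pool.Agent.Y887.DK Pool.Agent.Y887.QE
open Pool.Agent.Y887.DE (kap kap_gadget)

/-- the conclusion of the main theorem -/
def MainStmt (E' : ℕ) {Γ : Type} [CommGroup Γ] (f : ℕ → Γ) (Φ : Γ) (K : ℕ) : Prop :=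
  ∀ D : ℤ, ¬ IsSquare D → ∀ y0 MB : ℕ, 0 < MB →
      ∀ ex : List ℕ, (∀ m ∈ ex, 1 ≤ m) → ∀ M : ℕ, ∃ C W : ℕ, 1 ≤ W ∧ ∀ L : ℕ,
        ∀ᶠ t : ℕ in atTop, ∀ X : ℕ, W * t ^ (2 * E' + 2) ≤ X → X < t ^ (2 * E' + 3) →
          L * t ^ (2 * E') ≤
            {N : ℕ | N ≤ X ∧ GoodQ f D y0 MB M K C X (Φ * (ex.map f).prod) N}.ncard

/-- from powers to all bounds -/
theorem all_bounds (E' W : ℕ) (hW : 1 ≤ W) (c : ℕ → ℕ)
    (h : ∀ L : ℕ, ∀ᶠ t : ℕ in atTop, ∀ X : ℕ, W * t ^ (2 * E' + 2) ≤ X → X < t ^ (2 * E' + 3) →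
      L * t ^ (2 * E') ≤ c X) :
    ∀ᶠ X : ℕ in atTop, (X : ℝ) ^ (1 - 1 / ((E' : ℝ) + 1)) ≤ (c X : ℝ) := by
  obtain ⟨W', hW'⟩ : ∃ W' : ℕ, W' = W * 2 ^ (2 * E' + 2) := ⟨_, rfl⟩
  have hW'1 : 1 ≤ W' := by
    rw [hW']
    exact Nat.mul_pos hW (by positivity)
  obtain ⟨t0, ht0⟩ := eventually_atTop.1 (h W')
  obtain ⟨t1, ht1⟩ : ∃ t1 : ℕ, t1 = t0 + W' + 2 := ⟨_, rfl⟩
  filter_upwards [eventually_ge_atTop (W * t1 ^ (2 * E' + 2) + t1)] with X hX
  obtain ⟨t, ht⟩ : ∃ t : ℕ, t = Nat.findGreatest (fun t => W * t ^ (2 * E' + 2) ≤ X) X :=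
    ⟨_, rfl⟩
  have htt1 : t1 ≤ t := by
    rw [ht]
    apply Nat.le_findGreatest
    · omega
    · omega
  have ht2 : W * t ^ (2 * E' + 2) ≤ X := by
    have := Nat.findGreatest_spec (P := fun t => W * t ^ (2 * E' + 2) ≤ X) (n := X) (m := t1)
      (by omega) (by show W * t1 ^ (2 * E' + 2) ≤ X; omega)
    rw [ht]
    exact this
  have htX : t < X := by
    have h1 : t ^ 2 ≤ t ^ (2 * E' + 2) := Nat.pow_le_pow_right (by omega) (by omega)
    have h2 : t ^ (2 * E' + 2) ≤ W * t ^ (2 * E' + 2) := Nat.le_mul_of_pos_left _ hW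
    have h3 : t < t ^ 2 := by
      have : 2 ≤ t := by omega
      nlinarith
    omega
  have ht3 : X < W * (t + 1) ^ (2 * E' + 2) := by
    have := Nat.findGreatest_is_greatest (P := fun t => W * t ^ (2 * E' + 2) ≤ X) (n := X)
      (k := t + 1) (by rw [← ht]; omega) (by omega)
    simpa using this
  have ht4 : X < W' * t ^ (2 * E' + 2) := by
    refine ht3.trans_le ?_
    rw [hW', mul_assoc, ← mul_pow]
    exact Nat.mul_le_mul_left _ (Nat.pow_le_pow_left (by omega) _)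
  have ht5 : X < t ^ (2 * E' + 3) := by
    refine ht4.trans_le ?_
    rw [show 2 * E' + 3 = (2 * E' + 2) + 1 by ring, pow_succ t (2 * E' + 2), mul_comm]
    exact Nat.mul_le_mul_left _ (by omega)
  have h1 := ht0 t (by omega) X ht2 ht5
  have h2 : ((W' * t ^ (2 * E') : ℕ) : ℝ) ≤ (c X : ℝ) := by exact_mod_cast h1
  refine le_trans ?_ h2
  have hE : (0 : ℝ) < (E' : ℝ) + 1 := by positivity
  have he : (1 : ℝ) - 1 / ((E' : ℝ) + 1) = E' / ((E' : ℝ) + 1) := by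
    field_simp
    ring
  rw [he]
  have he0 : (0 : ℝ) ≤ E' / ((E' : ℝ) + 1) := by positivity
  have he1 : (E' : ℝ) / ((E' : ℝ) + 1) ≤ 1 := by
    rw [div_le_one hE]
    linarith
  have htr : (0 : ℝ) ≤ t := Nat.cast_nonneg t
  have hWr : (1 : ℝ) ≤ W' := by exact_mod_cast hW'1
  calc (X : ℝ) ^ ((E' : ℝ) / ((E' : ℝ) + 1))
      ≤ ((W' : ℝ) * (t : ℝ) ^ (2 * E' + 2)) ^ ((E' : ℝ) / ((E' : ℝ) + 1)) := by
        apply Real.rpow_le_rpow (Nat.cast_nonneg _) _ he0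
        exact_mod_cast ht4.le
    _ = (W' : ℝ) ^ ((E' : ℝ) / ((E' : ℝ) + 1)) *
        ((t : ℝ) ^ (2 * E' + 2)) ^ ((E' : ℝ) / ((E' : ℝ) + 1)) := by
        rw [Real.mul_rpow (by positivity) (by positivity)]
    _ ≤ (W' : ℝ) * (t : ℝ) ^ (2 * E') := by
        apply mul_le_mul
        · calc (W' : ℝ) ^ ((E' : ℝ) / ((E' : ℝ) + 1)) ≤ (W' : ℝ) ^ (1 : ℝ) :=
              Real.rpow_le_rpow_of_exponent_le hWr he1
            _ = W' := Real.rpow_one _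
        · rw [← Real.rpow_natCast, ← Real.rpow_natCast, ← Real.rpow_mul htr]
          apply le_of_eq
          congr 1
          push_cast
          field_simp
        · positivity
        · positivity
    _ = _ := by push_cast; ring

theorem quadQ {Γ : Type} [CommGroup Γ] (f : ℕ → Γ) {E' : ℕ} {Φ : Γ} {K : ℕ}
    (hmain : MainStmt E' f Φ K) (ε : ℝ) (hε : 1 / ((E' : ℝ) + 1) ≤ ε) (α β γ : ℤ) (hα : 0 < α)
    (hdisc : ¬ IsSquare (β ^ 2 - 4 * α * γ)) :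
      ∃ m0 : ℕ, 0 < m0 ∧ ∀ δ ∈ Submonoid.closure (f '' {j | 1 ≤ j}), ∀ M : ℕ, ∃ C : ℕ,
        ∀ᶠ X : ℕ in atTop, (X : ℝ) ^ (1 - ε) ≤
          ({n : ℕ | n ≤ X ∧ ∃ c s : ℕ, α * n ^ 2 + β * n + γ = ((m0 * (c * s) : ℕ) : ℤ) ∧
            Fm f (c * s) = Φ * δ ∧ (∀ p : ℕ, p.Prime → p ∣ c * s → M < p) ∧ c ≤ C ∧
            ∀ p : ℕ, p.Prime → p ∣ s → X < p ^ K}.ncard : ℝ) := by
  classical
  obtain ⟨D, hD⟩ : ∃ D : ℤ, D = β ^ 2 - 4 * α * γ := ⟨_, rfl⟩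
  rw [← hD] at hdisc
  -- the base point
  obtain ⟨y0, hy0⟩ : ∃ y0 : ℕ, (y0 : ℤ) = β + 4 * α * |β| := by
    have h1 : 0 ≤ β + 4 * α * |β| := by
      have h2 := neg_abs_le β
      have h3 := abs_nonneg β
      nlinarith
    exact ⟨(β + 4 * α * |β|).toNat, Int.toNat_of_nonneg h1⟩
  have h4α : (4 * α) ∣ (y0 : ℤ) ^ 2 - D := by
    rw [hy0, hD]
    refine ⟨|β| * (2 * β + 4 * α * |β|) + γ, ?_⟩
    ring
  obtain ⟨a, ha⟩ : ∃ a : ℕ, α = (a : ℤ) := ⟨α.toNat, (Int.toNat_of_nonneg hα.le).symm⟩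
  have hapos : 0 < a := by
    rw [ha] at hα
    exact_mod_cast hα
  have h4a : 4 * a ∣ vq D y0 := by
    rw [dvd_vq]
    push_cast
    rw [← ha]
    exact h4α
  obtain ⟨q, hq⟩ := h4a
  have hv0 := vq_pos hdisc y0
  have hv1 := vq_pos hdisc (y0 + 1)
  have hqpos : 0 < q := by
    rw [hq] at hv0
    exact Nat.pos_of_mul_pos_left hv0
  refine ⟨vq D (y0 + 1) * q, Nat.mul_pos hv1 hqpos, ?_⟩
  intro δ hδ M
  obtain ⟨ex, hex1, hex2⟩ := monoid_list f δ hδ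
  obtain ⟨M', hM'⟩ : ∃ M' : ℕ, M' = M + β.natAbs + D.natAbs + 1 := ⟨_, rfl⟩
  obtain ⟨C, W1, hW1, hC⟩ := hmain D hdisc y0 (2 * a) (by omega) ex hex1 M'
  have hC' := all_bounds E' W1 hW1 _ hC
  refine ⟨C, ?_⟩
  filter_upwards [hC', eventually_ge_atTop β.natAbs, eventually_ge_atTop 1] with X hX hXβ hX1
  have hX0 : (X : ℝ) ^ (1 - ε) ≤ (X : ℝ) ^ (1 - 1 / ((E' : ℝ) + 1)) := by
    apply Real.rpow_le_rpow_of_exponent_le
    · exact_mod_cast hX1
    · linarith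
  refine hX0.trans (hX.trans ?_)
  rw [hex2]
  obtain ⟨W, hW⟩ : ∃ W : Set ℕ, W = {n : ℕ | n ≤ X ∧ ∃ c s : ℕ,
    α * n ^ 2 + β * n + γ = ((vq D (y0 + 1) * q * (c * s) : ℕ) : ℤ) ∧
            Fm f (c * s) = Φ * δ ∧ (∀ p : ℕ, p.Prime → p ∣ c * s → M < p) ∧ c ≤ C ∧
            ∀ p : ℕ, p.Prime → p ∣ s → X < p ^ K} := ⟨_, rfl⟩
  rw [← hW]
  have hWfin : W.Finite := by
    rw [hW]
    exact (Set.finite_Iic X).subset fun n hn => hn.1
  -- every good argument is `2 a n + β`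
  have key : ∀ N : ℕ, N ≤ X → GoodQ f D y0 (2 * a) M' K C X (Φ * δ) N →
      ∃ n ∈ W, (N : ℤ) = 2 * a * n + β := by
    intro N hNX hgood
    obtain ⟨hMN, hdvd, c, s, hval, hcC, hrough, hMp, hF⟩ := hgood
    have hNβ : (β.natAbs : ℤ) + D.natAbs + 1 ≤ N := by
      have : β.natAbs + D.natAbs + 1 ≤ N := by omega
      exact_mod_cast this
    rw [Int.natCast_natAbs, Int.natCast_natAbs] at hNβ
    have h1 : (2 * a : ℤ) ∣ (N : ℤ) - β := by
      have h2 : (2 * a : ℤ) ∣ ((y0 : ℤ) ^ 2 + y0 - D) - β := by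
        rw [← ha, hy0, hD]
        refine ⟨2 * |β| * (2 * β + 4 * α * |β|) + 2 * γ + 2 * |β|, ?_⟩
        ring
      have h3 := dvd_add (show (2 * a : ℤ) ∣ (N : ℤ) - ((y0 : ℤ) ^ 2 + y0 - D) by
        exact_mod_cast hdvd) h2
      have e : (N : ℤ) - ((y0 : ℤ) ^ 2 + y0 - D) + (((y0 : ℤ) ^ 2 + y0 - D) - β) = N - β := by
        ring
      rwa [e] at h3
    obtain ⟨nz, hnz⟩ := h1
    have ha0 : (0 : ℤ) < a := by exact_mod_cast hapos
    have hnz0 : 0 ≤ nz := by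
      by_contra hneg
      push Not at hneg
      have h2 : (2 * a : ℤ) * nz < 0 := mul_neg_of_pos_of_neg (by linarith) hneg
      have h3 := le_abs_self β
      have h4 := abs_nonneg D
      linarith
    obtain ⟨n, hn⟩ : ∃ n : ℕ, nz = (n : ℤ) := ⟨nz.toNat, (Int.toNat_of_nonneg hnz0).symm⟩
    rw [hn] at hnz
    have hNn : (N : ℤ) = 2 * a * n + β := by linarith
    refine ⟨n, ?_, hNn⟩
    rw [hW]
    have hquad : (N : ℤ) ^ 2 - D = 4 * a * (α * n ^ 2 + β * n + γ) := by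
      rw [hNn, hD, ha]
      ring
    have hpos : 0 < (N : ℤ) ^ 2 - D := by
      have h2 := le_abs_self D
      have h3 := abs_nonneg β
      have h4 : (1 : ℤ) ≤ N := by
        have := abs_nonneg D
        linarith
      nlinarith
    have hvN : ((vq D N : ℕ) : ℤ) = (N : ℤ) ^ 2 - D := by
      unfold vq
      rw [Int.natCast_natAbs, abs_of_pos hpos]
    refine ⟨?_, c, s, ?_, hF, ?_, hcC, hrough⟩
    · -- the size of `n`
      have h2 : (n : ℤ) ≤ X := by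
        have h3 : (N : ℤ) ≤ X := by exact_mod_cast hNX
        have h4 : ((β.natAbs : ℕ) : ℤ) ≤ X := by exact_mod_cast hXβ
        rw [Int.natCast_natAbs] at h4
        have h5 := neg_abs_le β
        have h6 : (2 * (n : ℤ)) ≤ 2 * a * n := by
          have : (1 : ℤ) ≤ a := by linarith
          have h7 : (0 : ℤ) ≤ (n : ℤ) := Int.natCast_nonneg n
          nlinarith
        linarith
      exact_mod_cast h2
    · have h2 : (4 * (a : ℤ)) * (α * n ^ 2 + β * n + γ) =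
          (4 * (a : ℤ)) * ((vq D (y0 + 1) * q * (c * s) : ℕ) : ℤ) := by
        rw [← hquad, ← hvN, hval, hq]
        push_cast
        ring
      exact mul_left_cancel₀ (by linarith) h2
    · intro p hp hd
      have := hMp p hp hd
      omega
  have hex3 : ∀ N : ℕ, ∃ n : ℕ, (N ≤ X ∧ GoodQ f D y0 (2 * a) M' K C X (Φ * δ) N) →
      n ∈ W ∧ (N : ℤ) = 2 * a * n + β := by
    intro N
    by_cases hN : N ≤ X ∧ GoodQ f D y0 (2 * a) M' K C X (Φ * δ) N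
    · obtain ⟨n, h1, h2⟩ := key N hN.1 hN.2
      exact ⟨n, fun _ => ⟨h1, h2⟩⟩
    · exact ⟨0, fun h => absurd h hN⟩
  choose g hg using hex3
  have hle : {N : ℕ | N ≤ X ∧ GoodQ f D y0 (2 * a) M' K C X (Φ * δ) N}.ncard ≤ W.ncard := by
    refine Set.ncard_le_ncard_of_injOn g ?_ ?_ hWfin
    · intro N hN
      exact (hg N hN).1
    · intro N hN N' hN' heq
      have h1 := (hg N hN).2
      have h2 := (hg N' hN').2
      rw [heq] at h1
      have h3 : (N : ℤ) = N' := by rw [h1, h2]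
      exact_mod_cast h3
  exact_mod_cast hle

end Pool.Agent.Y887.QF
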