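import Mathlib
import Pool.Agent.Y887.QF.Finq
import Pool.Agent.Y887.UT.FinB

/-!
Exact numbers of prime factors of the values of irreducible quadratic polynomials, nearly all of the
expected number of arguments.
-/

set_option autoImplicit false

namespace Pool.Agent.Y887.QF

open Finset Filter Pool.Agent.Y887.DK Pool.Agent.Y887.QE
open Pool.Agent.Y887.DE (kap)
open Pool.Agent.Y887.UT (fom Fm_omega omega_mem)

/-- the number of prime factors, normalised -/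
def fo1 : ℕ → Multiplicative ℤ := fun k => if k = 0 then 1 else Multiplicative.ofAdd (1 : ℤ)

theorem fo1_one {k : ℕ} (hk : 1 ≤ k) : fo1 k = Multiplicative.ofAdd (1 : ℤ) := by
  unfold fo1
  rw [if_neg (by omega)]

theorem Fm_fo1 (n : ℕ) : Fm fo1 n = Multiplicative.ofAdd (n.primeFactors.card : ℤ) := by
  rw [← Fm_omega]
  unfold Fm
  apply prod_congr rfl
  intro p hp
  have hn : n ≠ 0 := by
    rintro rfl
    simp at hp
  rw [fo1_one (((Nat.prime_of_mem_primeFactors hp).dvd_iff_one_le_factorization hn).1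
    (Nat.dvd_of_mem_primeFactors hp))]
  rfl

theorem omegaQ (ε : ℝ) (hε : 0 < ε) : ∃ r₀ K : ℕ, ∀ a b c : ℤ, 0 < a →
    ¬ IsSquare (b ^ 2 - 4 * a * c) →
      ∃ m₀ : ℕ, 0 < m₀ ∧ ∀ r : ℕ, r₀ ≤ r → ∀ M : ℕ, ∃ C : ℕ,
        ∀ᶠ X : ℕ in atTop, (X : ℝ) ^ (1 - ε) ≤
          ({n : ℕ | n ≤ X ∧ ∃ k s : ℕ, a * n ^ 2 + b * n + c = ((m₀ * (k * s) : ℕ) : ℤ) ∧
            (k * s).primeFactors.card = r ∧ (∀ p : ℕ, p.Prime → p ∣ k * s → M < p) ∧ k ≤ C ∧
            ∀ p : ℕ, p.Prime → p ∣ s → X < p ^ K}.ncard : ℝ) := by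
  classical
  obtain ⟨E0, hE0⟩ := exists_nat_one_div_lt hε
  obtain ⟨E', hE'⟩ : ∃ E' : ℕ, E' = E0 + 1 := ⟨_, rfl⟩
  have hEε : 1 / ((E' : ℝ) + 1) ≤ ε := by
    refine le_trans ?_ hE0.le
    apply one_div_le_one_div_of_le (by positivity)
    rw [hE']
    push_cast
    linarith
  have hf0 : fo1 0 = 1 := rfl
  have hf1 : ∀ k, 1 ≤ k → fo1 k = fo1 1 := fun k hk => by
    rw [fo1_one hk, fo1_one le_rfl]
  have hrel : (([1] : List ℕ).map (kap fo1)).prod = fo1 1 * (([] : List ℕ).map (kap fo1)).prod := by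
    simp only [List.map_cons, List.map_nil, List.prod_cons, List.prod_nil, mul_one]
    unfold kap
    rw [hf1 (1 + 1) (by norm_num)]
    exact mul_div_cancel_right _ _
  obtain ⟨Φ, K, hmain⟩ := mainQ E' (by omega) fo1 hf0 hf1 [1] [] hrel
  refine ⟨(Multiplicative.toAdd Φ).toNat, K, ?_⟩
  intro a b c ha hdisc
  obtain ⟨m0, hm0, hquad⟩ := quadQ fo1 (E' := E') (Φ := Φ) (K := K) hmain ε hEε a b c ha hdisc
  refine ⟨m0, hm0, ?_⟩
  intro r hr M
  obtain ⟨δ, hδ, hom⟩ := omega_mem Φ r hr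
  have himg : fom '' {j | 1 ≤ j} = fo1 '' {j | 1 ≤ j} := by
    apply Set.image_congr
    intro j hj
    rw [fo1_one hj]
    rfl
  rw [himg] at hδ
  obtain ⟨C, hC⟩ := hquad δ hδ M
  refine ⟨C, hC.mono fun X hX => hX.trans ?_⟩
  have hfin : {n : ℕ | n ≤ X ∧ ∃ k s : ℕ, a * n ^ 2 + b * n + c = ((m0 * (k * s) : ℕ) : ℤ) ∧
            (k * s).primeFactors.card = r ∧ (∀ p : ℕ, p.Prime → p ∣ k * s → M < p) ∧ k ≤ C ∧
            ∀ p : ℕ, p.Prime → p ∣ s → X < p ^ K}.Finite :=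
    (Set.finite_Iic X).subset fun n hn => hn.1
  have hle := Set.ncard_le_ncard (s := {n : ℕ | n ≤ X ∧ ∃ k s : ℕ,
    a * n ^ 2 + b * n + c = ((m0 * (k * s) : ℕ) : ℤ) ∧
            Fm fo1 (k * s) = Φ * δ ∧ (∀ p : ℕ, p.Prime → p ∣ k * s → M < p) ∧ k ≤ C ∧
            ∀ p : ℕ, p.Prime → p ∣ s → X < p ^ K}) (by
      rintro n ⟨h1, k, s, h2, h3, h4, h5, h6⟩
      refine ⟨h1, k, s, h2, ?_, h4, h5, h6⟩
      apply hom
      rw [Fm_omega, ← Fm_fo1, h3]) hfin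
  exact_mod_cast hle

end Pool.Agent.Y887.QF
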